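import Mathlib

/-!
# MP_a1e8df_an, Q2: base definitions

`GG` is the (unrestricted) wreath-like group `(ℤ → F) ⋊ ℤ` with `F` the free group on two
generators; the group of the theorem is the subgroup `G0` generated by the constants, the copy of
`F` at position `0` and the shift.
-/

set_option autoImplicit false

namespace Pool.Agent.Pa1e8

/-- the free group on two generators -/
abbrev F : Type := FreeGroup Bool
/-- first generator -/
def fa : F := FreeGroup.of true
/-- second generator -/
def fb : F := FreeGroup.of false
/-- the reduced words starting with a power of `fa` -/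
def BF : Set F := {x | ∃ e : Bool, x.toWord.head? = some (true, e)}

/-- `(ℤ → F) ⋊ ℤ`, the integers acting by translation -/
@[ext] structure GG where
  /-- the function part -/
  w : ℤ → F
  /-- the shift part -/
  m : ℤ

namespace GG

instance : Mul GG := ⟨fun x y => ⟨fun i => x.w i * y.w (i - x.m), x.m + y.m⟩⟩
instance : One GG := ⟨⟨fun _ => 1, 0⟩⟩
instance : Inv GG := ⟨fun x => ⟨fun i => (x.w (i + x.m))⁻¹, -x.m⟩⟩

@[simp] theorem mul_w (x y : GG) (i : ℤ) : (x * y).w i = x.w i * y.w (i - x.m) := rfl
@[simp] theorem mul_m (x y : GG) : (x * y).m = x.m + y.m := rfl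
@[simp] theorem one_w (i : ℤ) : (1 : GG).w i = 1 := rfl
@[simp] theorem one_m : (1 : GG).m = 0 := rfl
@[simp] theorem inv_w (x : GG) (i : ℤ) : (x⁻¹).w i = (x.w (i + x.m))⁻¹ := rfl
@[simp] theorem inv_m (x : GG) : (x⁻¹).m = -x.m := rfl

instance : Group GG :=
  Group.ofLeftAxioms
    (fun x y z => by
      ext i
      · simp [mul_assoc, sub_sub]
      · simp [add_assoc])
    (fun x => by
      ext i
      · simp
      · simp)
    (fun x => by
      ext i
      · simp
      · simp)

/-- constant functions -/
def cst (k : F) : GG := ⟨fun _ => k, 0⟩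
/-- the value `k` at position `0` -/
def pos (k : F) : GG := ⟨Pi.mulSingle 0 k, 0⟩
/-- the translation by `n` -/
def sh (n : ℤ) : GG := ⟨fun _ => 1, n⟩

@[simp] theorem cst_w (k : F) (i : ℤ) : (cst k).w i = k := rfl
@[simp] theorem cst_m (k : F) : (cst k).m = 0 := rfl
@[simp] theorem pos_w (k : F) : (pos k).w = Pi.mulSingle 0 k := rfl
@[simp] theorem pos_m (k : F) : (pos k).m = 0 := rfl
@[simp] theorem sh_w (n : ℤ) (i : ℤ) : (sh n).w i = 1 := rfl
@[simp] theorem sh_m (n : ℤ) : (sh n).m = n := rfl

theorem sh_add (a b : ℤ) : sh (a + b) = sh a * sh b := by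
  ext i <;> simp

theorem sh_zero : sh 0 = 1 := by
  ext i <;> simp

theorem sh_neg (a : ℤ) : sh (-a) = (sh a)⁻¹ := by
  ext i <;> simp

end GG

open GG

/-- the group of the theorem -/
def G0 : Subgroup GG :=
  Subgroup.closure {cst fa, cst fb, pos fa, pos fb, sh 1}

/-- the group of the theorem, as a type -/
abbrev G : Type := ↥G0

theorem cst_fa_mem : cst fa ∈ G0 := Subgroup.subset_closure (by simp)
theorem cst_fb_mem : cst fb ∈ G0 := Subgroup.subset_closure (by simp)
theorem pos_fa_mem : pos fa ∈ G0 := Subgroup.subset_closure (by simp)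
theorem pos_fb_mem : pos fb ∈ G0 := Subgroup.subset_closure (by simp)
theorem sh_one_mem : sh 1 ∈ G0 := Subgroup.subset_closure (by simp)

theorem sh_mem (n : ℤ) : sh n ∈ G0 := by
  induction n using Int.induction_on with
  | zero => rw [sh_zero]; exact one_mem _
  | succ i ih => rw [sh_add]; exact mul_mem ih sh_one_mem
  | pred i ih =>
    rw [sub_eq_add_neg, sh_add, sh_neg]
    exact mul_mem ih (inv_mem sh_one_mem)

/-- the constant function with value the first generator -/
def ac : G := ⟨cst fa, cst_fa_mem⟩
/-- the constant function with value the second generator -/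
def bc : G := ⟨cst fb, cst_fb_mem⟩
/-- the first generator at position `0` -/
def a0 : G := ⟨pos fa, pos_fa_mem⟩
/-- the second generator at position `0` -/
def b0 : G := ⟨pos fb, pos_fb_mem⟩
/-- the shifts -/
def tt (n : ℤ) : G := ⟨sh n, sh_mem n⟩

theorem tt_add (a b : ℤ) : tt (a + b) = tt a * tt b := Subtype.ext (sh_add a b)
theorem tt_zero : tt 0 = 1 := Subtype.ext sh_zero
theorem tt_neg (a : ℤ) : tt (-a) = (tt a)⁻¹ := Subtype.ext (sh_neg a)

theorem tt_injective : Function.Injective tt := by
  intro a b h
  have := congrArg (fun g : G => g.1.m) h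
  simpa [tt] using this

/-- elements moved by the constants: those with nontrivial function part -/
def Yc : Set G := {g | ∃ i, g.1.w i ≠ 1}
/-- elements moved by the copy of `F` at position `0` -/
def Y0 : Set G := {g | g.1.m ≠ 0 ∨ g.1.w 0 ≠ 1}

instance : Countable G := by
  have h : (G0 : Set GG) = Set.range (FreeGroup.lift
      (fun x : ({cst fa, cst fb, pos fa, pos fb, sh 1} : Set GG) => (x : GG))) := by
    rw [← MonoidHom.coe_range, FreeGroup.range_lift_eq_closure, Subtype.range_coe]
    rfl
  have hfin : ({cst fa, cst fb, pos fa, pos fb, sh 1} : Set GG).Finite := by simp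
  have : Countable ({cst fa, cst fb, pos fa, pos fb, sh 1} : Set GG) := hfin.countable.to_subtype
  have h2 : (G0 : Set GG).Countable := by
    rw [h]
    have : Countable (FreeGroup ({cst fa, cst fb, pos fa, pos fb, sh 1} : Set GG)) := by
      infer_instance
    exact Set.countable_range _
  exact h2.to_subtype

instance : Group.FG G := by
  have hfin : ({cst fa, cst fb, pos fa, pos fb, sh 1} : Set GG).Finite := by simp
  have := hfin.to_subtype
  exact Group.closure_finite_fg (s := {cst fa, cst fb, pos fa, pos fb, sh 1})

end Pool.Agent.Pa1e8
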