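import Pool.Agent.Lib.Pa1e8df.Rel

/-!
# MP_a1e8df_an, Q2: from an isomorphism of ultrapowers to a correspondence
-/

set_option autoImplicit false

open scoped InnerProductSpace
open Filter Topology

namespace Pool.Agent.Pa1e8

universe u v

section

variable {Γ : Type} [Group Γ] {I : Type u} {K : Type v} {U₁ : Ultrafilter I} {V : Ultrafilter K}
  {n : K → ℕ}

theorem hs_add_le {m : ℕ} (x y : Mn m) : hs (x + y) ≤ 2 * hs x + 2 * hs y := by
  have h := sqrt_hs_add_le x y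
  have h0 := Real.sqrt_nonneg (hs (x + y))
  have h1 := Real.sq_sqrt (hs_nonneg (x + y))
  have h2 := Real.sq_sqrt (hs_nonneg x)
  have h3 := Real.sq_sqrt (hs_nonneg y)
  nlinarith [sq_nonneg (√(hs x) - √(hs y))]

theorem nullM_iff_of_zero' {y : ∀ k : K, Mn (n k)} (h : ∀ k, y k = 0) : nullM V n y := by
  intro ε hε
  refine Eventually.of_forall fun k => ?_
  rw [h k]
  simpa [hs] using hε

theorem nullM_add {y z : ∀ k : K, Mn (n k)} (hy : nullM V n y) (hz : nullM V n z) :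
    nullM V n (y + z) := by
  intro ε hε
  filter_upwards [hy (ε / 4) (by positivity), hz (ε / 4) (by positivity)] with k h1 h2
  have := hs_add_le (y k) (z k)
  show hs (y k + z k) < ε
  linarith

theorem nullM_neg {y : ∀ k : K, Mn (n k)} (hy : nullM V n y) : nullM V n (-y) := by
  intro ε hε
  filter_upwards [hy ε hε] with k h1
  show hs (-y k) < ε
  rwa [hs_neg]

theorem nullM_smul (c : ℂ) {y : ∀ k : K, Mn (n k)} (hy : nullM V n y) : nullM V n (c • y) := by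
  intro ε hε
  have h0 : 0 < ‖c‖ ^ 2 + 1 := by positivity
  filter_upwards [hy (ε / (‖c‖ ^ 2 + 1)) (by positivity)] with k h1
  show hs (c • y k) < ε
  rw [hs_smul]
  have h2 := hs_nonneg (y k)
  calc ‖c‖ ^ 2 * hs (y k) ≤ (‖c‖ ^ 2 + 1) * hs (y k) := by gcongr; linarith
    _ < ε := by
      rw [lt_div_iff₀ h0] at h1
      linarith

theorem nullM_star {y : ∀ k : K, Mn (n k)} (hy : nullM V n y) : nullM V n (star y) := by
  intro ε hε
  filter_upwards [hy ε hε] with k h1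
  show hs (star (y k)) < ε
  rwa [hs_star]

theorem nullM_mul_left {y z : ∀ k : K, Mn (n k)} (hy : BM n y) (hz : nullM V n z) :
    nullM V n (y * z) := by
  obtain ⟨C, hC⟩ := hy
  intro ε hε
  have h0 : 0 < C ^ 2 + 1 := by positivity
  filter_upwards [hz (ε / (C ^ 2 + 1)) (by positivity)] with k h1
  show hs (y k * z k) < ε
  have h2 := hs_nonneg (z k)
  have h3 : ‖y k‖ ^ 2 ≤ C ^ 2 := by
    have := hC k
    gcongr
  calc hs (y k * z k) ≤ ‖y k‖ ^ 2 * hs (z k) := hs_mul_le_left _ _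
    _ ≤ (C ^ 2 + 1) * hs (z k) := by gcongr; linarith
    _ < ε := by
      rw [lt_div_iff₀ h0] at h1
      linarith

theorem nullM_mul_right {y z : ∀ k : K, Mn (n k)} (hy : BM n y) (hz : nullM V n z) :
    nullM V n (z * y) := by
  obtain ⟨C, hC⟩ := hy
  intro ε hε
  have h0 : 0 < C ^ 2 + 1 := by positivity
  filter_upwards [hz (ε / (C ^ 2 + 1)) (by positivity)] with k h1
  show hs (z k * y k) < ε
  have h2 := hs_nonneg (z k)
  have h3 : ‖y k‖ ^ 2 ≤ C ^ 2 := by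
    have := hC k
    gcongr
  calc hs (z k * y k) ≤ ‖y k‖ ^ 2 * hs (z k) := hs_mul_le_right _ _
    _ ≤ (C ^ 2 + 1) * hs (z k) := by gcongr; linarith
    _ < ε := by
      rw [lt_div_iff₀ h0] at h1
      linarith

theorem BM_add {y z : ∀ k : K, Mn (n k)} (hy : BM n y) (hz : BM n z) : BM n (y + z) := by
  obtain ⟨C, hC⟩ := hy
  obtain ⟨C', hC'⟩ := hz
  exact ⟨C + C', fun k => (norm_add_le _ _).trans (add_le_add (hC k) (hC' k))⟩

theorem BM_mul {y z : ∀ k : K, Mn (n k)} (hy : BM n y) (hz : BM n z) : BM n (y * z) := by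
  obtain ⟨C, hC⟩ := hy
  obtain ⟨C', hC'⟩ := hz
  exact ⟨C * C', fun k => (g_norm_mul _ _).trans
    (mul_le_mul (hC k) (hC' k) (norm_nonneg _) ((norm_nonneg _).trans (hC k)))⟩

theorem BM_star {y : ∀ k : K, Mn (n k)} (hy : BM n y) : BM n (star y) := by
  obtain ⟨C, hC⟩ := hy
  exact ⟨C, fun k => (g_norm_star (y k)).le.trans (hC k)⟩

theorem BM_smul (c : ℂ) {y : ∀ k : K, Mn (n k)} (hy : BM n y) : BM n (c • y) := by
  obtain ⟨C, hC⟩ := hy
  refine ⟨‖c‖ * C, fun k => ?_⟩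
  show ‖c • y k‖ ≤ _
  rw [norm_smul]
  have := hC k
  gcongr

theorem BM_one : BM n (1 : ∀ k, Mn (n k)) := ⟨1, fun _ => g_norm_one_le⟩

theorem BN_add {x x' : I → (L2 Γ →L[ℂ] L2 Γ)} (hx : BN x) (hx' : BN x') : BN (x + x') := by
  obtain ⟨h1, C, hC⟩ := hx
  obtain ⟨h2, C', hC'⟩ := hx'
  exact ⟨fun i => LG_add (h1 i) (h2 i), C + C',
    fun k => (norm_add_le _ _).trans (add_le_add (hC k) (hC' k))⟩

theorem BN_mul {x x' : I → (L2 Γ →L[ℂ] L2 Γ)} (hx : BN x) (hx' : BN x') : BN (x * x') := by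
  obtain ⟨h1, C, hC⟩ := hx
  obtain ⟨h2, C', hC'⟩ := hx'
  exact ⟨fun i => LG_mul (h1 i) (h2 i), C * C', fun k => (norm_mul_le _ _).trans
    (mul_le_mul (hC k) (hC' k) (norm_nonneg _) ((norm_nonneg _).trans (hC k)))⟩

theorem BN_star {x : I → (L2 Γ →L[ℂ] L2 Γ)} (hx : BN x) : BN (star x) := by
  obtain ⟨h1, C, hC⟩ := hx
  exact ⟨fun i => LG_star (h1 i), C, fun i => (norm_star (x i)).le.trans (hC i)⟩

theorem BN_smul (c : ℂ) {x : I → (L2 Γ →L[ℂ] L2 Γ)} (hx : BN x) : BN (c • x) := by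
  obtain ⟨h1, C, hC⟩ := hx
  refine ⟨fun i => LG_smul c (h1 i), ‖c‖ * C, fun k => ?_⟩
  show ‖c • x k‖ ≤ _
  rw [norm_smul]
  have := hC k
  gcongr

theorem BN_one : BN (1 : I → (L2 Γ →L[ℂ] L2 Γ)) :=
  ⟨fun _ => LG_one, 1, fun _ => g_norm_one_le⟩

theorem fam_sub_rearr (a b c : ∀ k : K, Mn (n k)) : a - b = (a - c) + -(b - c) := by
  funext k
  show a k - b k = (a k - c k) + -(b k - c k)
  abel

/-- An isomorphism of the ultraproducts, given on representatives, yields a correspondence. -/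
theorem corr_of_iso (Φ : (I → (L2 Γ →L[ℂ] L2 Γ)) → (∀ k : K, Mn (n k)))
    (hb : ∀ x, BN x → BM n (Φ x))
    (heq : ∀ x x', BN x → BN x' → (nullN U₁ (x - x') ↔ nullM V n (Φ x - Φ x')))
    (hsurj : ∀ y, BM n y → ∃ x, BN x ∧ nullM V n (Φ x - y))
    (hadd : ∀ x x', BN x → BN x' → nullM V n (Φ (x + x') - (Φ x + Φ x')))
    (hmul : ∀ x x', BN x → BN x' → nullM V n (Φ (x * x') - (Φ x * Φ x')))
    (hstar : ∀ x, BN x → nullM V n (Φ (star x) - star (Φ x)))
    (hsmul : ∀ x, BN x → ∀ c : ℂ, nullM V n (Φ (c • x) - c • Φ x)) :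
    Corr U₁ V n (fun x y => BN x ∧ BM n y ∧ nullM V n (Φ x - y)) := by
  have h0 : nullM V n (Φ 0) := by
    have := hsmul (1 : I → (L2 Γ →L[ℂ] L2 Γ)) BN_one 0
    have e1 : ((0 : ℂ) • (1 : I → (L2 Γ →L[ℂ] L2 Γ))) = 0 := zero_smul _ _
    have e2 : ((0 : ℂ) • Φ 1) = 0 := by
      funext k
      exact zero_smul ℂ (Φ 1 k)
    rw [e1, e2] at this
    have e3 : Φ 0 - 0 = Φ 0 := by
      funext k
      exact sub_zero (Φ 0 k)
    rwa [e3] at this
  have hBN0 : BN (0 : I → (L2 Γ →L[ℂ] L2 Γ)) := by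
    have := BN_smul 0 (BN_one (I := I) (Γ := Γ))
    rwa [zero_smul] at this
  have hmul' : ∀ {x y x' y'}, (BN x ∧ BM n y ∧ nullM V n (Φ x - y)) →
      (BN x' ∧ BM n y' ∧ nullM V n (Φ x' - y')) →
      (BN (x * x') ∧ BM n (y * y') ∧ nullM V n (Φ (x * x') - (y * y'))) := by
    rintro x y x' y' ⟨h1, h2, h3⟩ ⟨h1', h2', h3'⟩
    refine ⟨BN_mul h1 h1', BM_mul h2 h2', ?_⟩
    have e : Φ (x * x') - y * y' = (Φ (x * x') - (Φ x * Φ x')) +
        ((Φ x - y) * Φ x' + y * (Φ x' - y')) := by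
      funext k
      exact g_mul_split _ _ _ _ _
    rw [e]
    exact nullM_add (hmul x x' h1 h1') (nullM_add (nullM_mul_right (hb x' h1') h3)
      (nullM_mul_left h2 h3'))
  refine ⟨fun h => h.1, fun h => h.2.1, ?_, ?_, ?_, hmul', ?_, ?_, ?_, ?_, ?_, ?_⟩
  · intro x hx
    refine ⟨Φ x, hx, hb x hx, ?_⟩
    apply nullM_iff_of_zero'
    intro k
    exact sub_self (Φ x k)
  · intro y hy
    obtain ⟨x, hx, h⟩ := hsurj y hy
    exact ⟨x, hx, hy, h⟩
  · rintro x y x' y' ⟨h1, h2, h3⟩ ⟨h1', h2', h3'⟩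
    refine ⟨BN_add h1 h1', BM_add h2 h2', ?_⟩
    have e : Φ (x + x') - (y + y') = (Φ (x + x') - (Φ x + Φ x')) + ((Φ x - y) + (Φ x' - y')) := by
      funext k
      show Φ (x + x') k - (y k + y' k) = (Φ (x + x') k - (Φ x k + Φ x' k)) +
        ((Φ x k - y k) + (Φ x' k - y' k))
      abel
    rw [e]
    exact nullM_add (hadd x x' h1 h1') (nullM_add h3 h3')
  · rintro x y ⟨h1, h2, h3⟩
    refine ⟨BN_star h1, BM_star h2, ?_⟩
    have e : Φ (star x) - star y = (Φ (star x) - star (Φ x)) + star (Φ x - y) := by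
      funext k
      show Φ (star x) k - star (y k) = (Φ (star x) k - star (Φ x k)) + star (Φ x k - y k)
      rw [g_star_sub]
      abel
    rw [e]
    exact nullM_add (hstar x h1) (nullM_star h3)
  · rintro c x y ⟨h1, h2, h3⟩
    refine ⟨BN_smul c h1, BM_smul c h2, ?_⟩
    have e : Φ (c • x) - c • y = (Φ (c • x) - c • Φ x) + c • (Φ x - y) := by
      funext k
      show Φ (c • x) k - c • y k = (Φ (c • x) k - c • Φ x k) + c • (Φ x k - y k)
      rw [g_smul_sub]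
      abel
    rw [e]
    exact nullM_add (hsmul x h1 c) (nullM_smul c h3)
  · obtain ⟨x, hx, h⟩ := hsurj 1 BM_one
    refine ⟨BN_one, BM_one, ?_⟩
    have h2 := hmul' (x := 1) (y := Φ 1) (x' := x) (y' := 1)
      ⟨BN_one, hb 1 BN_one, nullM_iff_of_zero' (fun k => sub_self (Φ 1 k))⟩ ⟨hx, BM_one, h⟩
    have h3 := h2.2.2
    rw [one_mul] at h3
    have e1 : Φ 1 * 1 = Φ 1 := by
      funext k
      exact mul_one (Φ 1 k)
    rw [e1] at h3
    have e : Φ 1 - 1 = (Φ x - 1) + -(Φ x - Φ 1) := by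
      funext k
      show Φ 1 k - 1 = (Φ x k - 1) + -(Φ x k - Φ 1 k)
      abel
    rw [e]
    exact nullM_add h (nullM_neg h3)
  · rintro x y ⟨h1, h2, h3⟩
    have h4 := heq x 0 h1 hBN0
    rw [sub_zero] at h4
    rw [h4]
    constructor
    · intro h
      have e : y = (Φ x - Φ 0) + Φ 0 + -(Φ x - y) := by
        funext k
        show y k = (Φ x k - Φ 0 k) + Φ 0 k + -(Φ x k - y k)
        abel
      rw [e]
      exact nullM_add (nullM_add h h0) (nullM_neg h3)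
    · intro h
      have e : Φ x - Φ 0 = (Φ x - y) + y + -Φ 0 := by
        funext k
        show Φ x k - Φ 0 k = (Φ x k - y k) + y k + -Φ 0 k
        abel
      rw [e]
      exact nullM_add (nullM_add h3 h) (nullM_neg h0)
  · rintro x x' y ⟨h1, h2, h3⟩ hx' hn
    refine ⟨hx', h2, ?_⟩
    have h4 := (heq x' x hx' h1).mp hn
    have e : Φ x' - y = (Φ x' - Φ x) + (Φ x - y) := by
      funext k
      show Φ x' k - y k = (Φ x' k - Φ x k) + (Φ x k - y k)
      abel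
    rw [e]
    exact nullM_add h4 h3
  · rintro x y y' ⟨h1, h2, h3⟩ hy' hn
    refine ⟨h1, hy', ?_⟩
    have e : Φ x - y' = (Φ x - y) + -(y' - y) := by
      funext k
      show Φ x k - y' k = (Φ x k - y k) + -(y' k - y k)
      abel
    rw [e]
    exact nullM_add h3 (nullM_neg hn)

end

end Pool.Agent.Pa1e8
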