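import Mathlib

/-!
# MP_a1e8df_an, Q2: cutting bounded operators down to contractions (MODULE Cut)

With `h = s* s + r* r` and `k = (1 + h)⁻¹`, the operator `2 s k` is a contraction, because
`‖(1+h) v‖² - 4 ‖s v‖² ≥ ‖(1+h) v‖² - 4 ⟪h v, v⟫ = ‖(1-h) v‖² ≥ 0`, and
`s - 2 s k = s k (h - 1)`.
-/

set_option autoImplicit false

namespace Pool.Agent.Pa1e8

open ContinuousLinearMap in
theorem cut {E : Type*} [NormedAddCommGroup E] [InnerProductSpace ℂ E] [CompleteSpace E]
    (s r : E →L[ℂ] E) :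
    ∃ k : E →L[ℂ] E, k * (1 + (star s * s + star r * r)) = 1 ∧
      (1 + (star s * s + star r * r)) * k = 1 ∧ star k = k ∧ ‖k‖ ≤ 1 ∧
      ‖(2 : ℂ) • (s * k)‖ ≤ 1 ∧
      s - (2 : ℂ) • (s * k) = (s * k) * ((star s * s + star r * r) - 1) := by
  set h : E →L[ℂ] E := star s * s + star r * r with hh
  -- the quadratic form of `h`
  have hq : ∀ v : E, RCLike.re (inner ℂ (h v) v) = ‖s v‖ ^ 2 + ‖r v‖ ^ 2 := by
    intro v
    have h1 : inner ℂ ((star s * s) v) v = inner ℂ (s v) (s v) := by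
      rw [ContinuousLinearMap.mul_apply, ContinuousLinearMap.star_eq_adjoint,
        ContinuousLinearMap.adjoint_inner_left]
    have h2 : inner ℂ ((star r * r) v) v = inner ℂ (r v) (r v) := by
      rw [ContinuousLinearMap.mul_apply, ContinuousLinearMap.star_eq_adjoint,
        ContinuousLinearMap.adjoint_inner_left]
    rw [hh, ContinuousLinearMap.add_apply, inner_add_left, h1, h2, map_add,
      inner_self_eq_norm_sq, inner_self_eq_norm_sq]
  have hT : ∀ v : E, ‖v‖ ^ 2 ≤ RCLike.re (inner ℂ ((1 + h) v) v) := by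
    intro v
    have h1 : (1 + h) v = v + h v := rfl
    rw [h1, inner_add_left, map_add, hq, inner_self_eq_norm_sq]
    nlinarith [sq_nonneg ‖s v‖, sq_nonneg ‖r v‖]
  have hunit : IsUnit (1 + h) := by
    refine ContinuousLinearMap.isUnit_of_forall_le_norm_inner_map (1 + h) (c := 1) (by norm_num) ?_
    intro v
    have := hT v
    have h2 := RCLike.re_le_norm (inner ℂ ((1 + h) v) v)
    simp only [NNReal.coe_one, mul_one]
    linarith
  obtain ⟨u, hu⟩ := hunit
  have hk1 : (↑u⁻¹ : E →L[ℂ] E) * (1 + h) = 1 := by rw [← hu]; exact u.inv_mul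
  have hk2 : (1 + h) * (↑u⁻¹ : E →L[ℂ] E) = 1 := by rw [← hu]; exact u.mul_inv
  set k : E →L[ℂ] E := ↑u⁻¹ with hk
  have hTstar : star (1 + h) = 1 + h := by
    rw [hh]; simp [star_add, star_mul]
  have hkstar : star k = k := by
    have h1 : star k * (1 + h) = 1 := by
      have := congrArg star hk2
      rwa [star_mul, hTstar, star_one] at this
    calc star k = star k * ((1 + h) * k) := by rw [hk2, mul_one]
      _ = k := by rw [← mul_assoc, h1, one_mul]
  have hTk : ∀ w : E, (1 + h) (k w) = w := by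
    intro w
    have := congrArg (fun f : E →L[ℂ] E => f w) hk2
    simpa using this
  have hknorm : ‖k‖ ≤ 1 := by
    refine ContinuousLinearMap.opNorm_le_bound _ zero_le_one ?_
    intro w
    have h1 := hT (k w)
    rw [hTk w] at h1
    have h2 : RCLike.re (inner ℂ w (k w)) ≤ ‖w‖ * ‖k w‖ := re_inner_le_norm w (k w)
    rw [one_mul]
    by_contra hcon
    push Not at hcon
    have h3 : 0 < ‖k w‖ := lt_of_le_of_lt (norm_nonneg _) hcon
    nlinarith
  have hsk : ‖(2 : ℂ) • (s * k)‖ ≤ 1 := by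
    refine ContinuousLinearMap.opNorm_le_bound _ zero_le_one ?_
    intro w
    rw [one_mul]
    have h0 : ((2 : ℂ) • (s * k)) w = (2 : ℂ) • s (k w) := rfl
    rw [h0, norm_smul]
    have h2n : ‖(2 : ℂ)‖ = 2 := by norm_num
    rw [h2n]
    set v := k w with hv
    have hw : w = v + h v := by rw [← hTk w]; rfl
    have h3 : ‖v + h v‖ ^ 2 = ‖v‖ ^ 2 + 2 * RCLike.re (inner ℂ v (h v)) + ‖h v‖ ^ 2 :=
      norm_add_sq v (h v)
    have h4 : ‖v - h v‖ ^ 2 = ‖v‖ ^ 2 - 2 * RCLike.re (inner ℂ v (h v)) + ‖h v‖ ^ 2 :=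
      norm_sub_sq v (h v)
    have h5 : RCLike.re (inner ℂ v (h v)) = ‖s v‖ ^ 2 + ‖r v‖ ^ 2 := by
      rw [← hq v]; exact inner_re_symm v (h v)
    have h6 : (2 * ‖s v‖) ^ 2 ≤ ‖w‖ ^ 2 := by
      rw [hw, h3]
      nlinarith [sq_nonneg ‖v - h v‖, sq_nonneg ‖r v‖]
    exact le_of_sq_le_sq h6 (norm_nonneg w)
  refine ⟨k, hk1, hk2, hkstar, hknorm, hsk, ?_⟩
  have h1 : s = s * k * (1 + h) := by rw [mul_assoc, hk1, mul_one]
  calc s - (2 : ℂ) • (s * k) = s * k * (1 + h) - (2 : ℂ) • (s * k) := by rw [← h1]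
    _ = (s * k) * (h - 1) := by
        rw [two_smul, mul_add, mul_sub, mul_one]; abel

/-- the case `r = 0`: then `z = 2 s k` and `R = (1 - s* s) k` satisfy `z* z + R* R = 1` -/
theorem cut_unitary {E : Type*} [NormedAddCommGroup E] [InnerProductSpace ℂ E] [CompleteSpace E]
    (s : E →L[ℂ] E) :
    ∃ k z R : E →L[ℂ] E, ‖k‖ ≤ 1 ∧ ‖s * k‖ ≤ 1 / 2 ∧ star z * z + star R * R = 1 ∧
      s - z = (s * k) * (star s * s - 1) ∧ R = - (k * (star s * s - 1)) := by
  obtain ⟨k, hk1, hk2, hks, hkn, hskn, hsk⟩ := cut s 0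
  have e0 : star s * s + star (0 : E →L[ℂ] E) * 0 = star s * s := by simp
  rw [e0] at hk1 hk2 hsk
  set h : E →L[ℂ] E := star s * s with hh
  have hhs : star h = h := by rw [hh]; simp [star_mul]
  have hcomm : k * h = h * k := by
    have : k * (1 + h) = (1 + h) * k := by rw [hk1, hk2]
    rw [mul_add, add_mul, mul_one, one_mul] at this
    exact add_left_cancel this
  refine ⟨k, (2 : ℂ) • (s * k), - (k * (h - 1)), hkn, ?_, ?_, hsk, rfl⟩
  · rw [norm_smul] at hskn
    have h2n : ‖(2 : ℂ)‖ = 2 := by norm_num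
    rw [h2n] at hskn
    linarith
  · have e1 : star ((2 : ℂ) • (s * k)) * ((2 : ℂ) • (s * k)) = (4 : ℂ) • (k * h * k) := by
      rw [star_smul, star_mul, hks, smul_mul_smul_comm, hh]
      have : star (2 : ℂ) * 2 = 4 := by
        have h2 : star (2 : ℂ) = 2 := by
          rw [Complex.star_def]; exact Complex.conj_ofNat 2
        rw [h2]; norm_num
      rw [this]; simp only [mul_assoc]
    have e2 : star (-(k * (h - 1))) * (-(k * (h - 1))) = (h - 1) * k * k * (h - 1) := by
      rw [star_neg, star_mul, star_sub, star_one, hhs, hks]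
      noncomm_ring
    rw [e1, e2]
    have e3 : (h - 1) * k * k * (h - 1) = k * (h - 1) * (h - 1) * k := by
      have c1 : (h - 1) * k = k * (h - 1) := by rw [sub_mul, mul_sub, hcomm]; simp
      rw [c1]
      calc k * (h - 1) * k * (h - 1) = k * (h - 1) * (k * (h - 1)) := by rw [mul_assoc]
        _ = k * (h - 1) * ((h - 1) * k) := by rw [c1]
        _ = k * (h - 1) * (h - 1) * k := by rw [← mul_assoc]
    rw [e3]
    have e4 : (4 : ℂ) • (k * h * k) = k * ((4 : ℂ) • h) * k := by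
      rw [mul_smul_comm, smul_mul_assoc]
    rw [e4]
    have e5 : k * ((4 : ℂ) • h) * k + k * (h - 1) * (h - 1) * k
        = (k * (1 + h)) * ((1 + h) * k) := by
      have : ((4 : ℂ) • h) = h + h + h + h := by
        have h4 : (4 : ℂ) = 1 + 1 + 1 + 1 := by norm_num
        rw [h4]; simp only [add_smul, one_smul]
      rw [this]; noncomm_ring
    rw [e5, hk1, hk2, one_mul]

end Pool.Agent.Pa1e8
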