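import Pool.Agent.Lib.Pa1e8df.Base

/-!
# MP_a1e8df_an, Q2: the paradoxical set in the free group (MODULE Free)

`BF` = reduced words starting with `fa` or `fa⁻¹`.
-/

set_option autoImplicit false

namespace Pool.Agent.Pa1e8

theorem free_hl (x : F) (l : Bool × Bool) (h : x.toWord.head? ≠ some (l.1, !l.2)) :
    (FreeGroup.mk [l] * x).toWord = l :: x.toWord := by
  rw [FreeGroup.toWord_mul, FreeGroup.toWord_mk, FreeGroup.reduce_singleton]
  have hx : FreeGroup.reduce x.toWord = x.toWord := FreeGroup.reduce_toWord x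
  rw [List.singleton_append, FreeGroup.reduce.cons, hx]
  cases hw : x.toWord with
  | nil => rfl
  | cons hd tl =>
    have h2 : ¬ (l.1 = hd.1 ∧ l.2 = !hd.2) := by
      rintro ⟨h3, h4⟩
      apply h
      rw [hw]
      simp [h3, h4]
    simp only [if_neg h2]

theorem free_hr (x : F) (l p q : Bool × Bool) (t : List (Bool × Bool))
    (h : x.toWord = p :: q :: t) : (x * FreeGroup.mk [l]).toWord.head? = some p := by
  rw [FreeGroup.toWord_mul, FreeGroup.toWord_mk, FreeGroup.reduce_singleton]
  have hred : FreeGroup.IsReduced x.toWord := FreeGroup.isReduced_toWord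
  obtain ⟨L, m, hL⟩ : ∃ L m, x.toWord = L ++ [m] := by
    refine ⟨x.toWord.dropLast, x.toWord.getLast (by simp [h]), ?_⟩
    exact (List.dropLast_append_getLast _).symm
  have hLne : L ≠ [] := by
    rintro rfl
    rw [h] at hL
    simp at hL
  have hhead : L.head? = some p := by
    cases L with
    | nil => exact absurd rfl hLne
    | cons c L' =>
      rw [h] at hL
      simp only [List.cons_append, List.cons.injEq] at hL
      simp [hL.1]
  by_cases hm : m.1 = l.1 → m.2 = l.2
  · have h1 : FreeGroup.IsReduced (L ++ [m] ++ [l]) :=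
      FreeGroup.IsReduced.append_overlap (hL ▸ hred)
        (by simp only [List.singleton_append]
            exact FreeGroup.isReduced_cons_cons.mpr ⟨hm, FreeGroup.IsReduced.singleton⟩) (by simp)
    rw [hL, h1.reduce_eq]
    simp [List.head?_append, hhead]
  · push Not at hm
    have hl : l = (m.1, !m.2) := by
      refine Prod.ext hm.1.symm ?_
      have := hm.2
      revert this
      cases m.2 <;> cases l.2 <;> simp
    have hstep : FreeGroup.Red.Step (L ++ (m.1, m.2) :: (m.1, !m.2) :: []) (L ++ []) :=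
      FreeGroup.Red.Step.not
    have h1 : FreeGroup.reduce (x.toWord ++ [l]) = FreeGroup.reduce L := by
      have := FreeGroup.reduce.Step.eq hstep
      rw [List.append_nil] at this
      rw [← this, hL, hl]
      simp
    have h2 : FreeGroup.IsReduced L := by
      rw [hL] at hred
      exact List.IsChain.left_of_append hred
    rw [h1, h2.reduce_eq, hhead]

theorem fa_eq : fa = FreeGroup.mk [(true, true)] := rfl
theorem fb_eq : fb = FreeGroup.mk [(false, true)] := rfl
theorem fa_inv_eq : fa⁻¹ = FreeGroup.mk [(true, false)] := rfl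
theorem fb_inv_eq : fb⁻¹ = FreeGroup.mk [(false, false)] := rfl

theorem free_not_BF {x : F} {e : Bool} (h : x.toWord.head? = some (false, e)) : x ∉ BF := by
  rintro ⟨e', he'⟩
  rw [h] at he'
  simp at he'

theorem free_BF_cons {x : F} (h : x ∈ BF) : ∃ e t, x.toWord = (true, e) :: t := by
  obtain ⟨e, he⟩ := h
  cases hw : x.toWord with
  | nil => rw [hw] at he; simp at he
  | cons hd tl =>
    rw [hw] at he
    simp only [List.head?_cons, Option.some.injEq] at he
    exact ⟨e, tl, by rw [he]⟩

theorem free_BF_left_b (x : F) (hx : x ∈ BF) (s : Bool) :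
    ∃ e t, (FreeGroup.mk [(false, s)] * x).toWord = (false, s) :: (true, e) :: t := by
  obtain ⟨e, t, h⟩ := free_BF_cons hx
  refine ⟨e, t, ?_⟩
  rw [free_hl, h]
  rw [h]
  simp

theorem BF_left_cover (x : F) : x ∈ BF ∨ fa⁻¹ * x ∈ BF := by
  by_cases hx : x ∈ BF
  · exact Or.inl hx
  · right
    refine ⟨false, ?_⟩
    rw [fa_inv_eq, free_hl]
    · rfl
    · intro h
      exact hx ⟨true, h⟩

theorem BF_left_b (x : F) (hx : x ∈ BF) : fb * x ∉ BF := by
  obtain ⟨e, t, h⟩ := free_BF_left_b x hx true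
  exact free_not_BF (e := true) (by rw [fb_eq, h]; rfl)

theorem BF_left_bb (x : F) : ¬ (fb * x ∈ BF ∧ fb⁻¹ * x ∈ BF) := by
  rintro ⟨h1, h2⟩
  obtain ⟨e, t, h⟩ := free_BF_left_b _ h1 false
  have hx : FreeGroup.mk [(false, false)] * (fb * x) = x := by
    rw [← fb_inv_eq, inv_mul_cancel_left]
  rw [hx] at h
  have h3 : (fb⁻¹ * x).toWord = (false, false) :: x.toWord := by
    rw [fb_inv_eq, free_hl]
    rw [h]
    simp
  exact free_not_BF (e := false) (by rw [h3]; rfl) h2

theorem BF_conj_cover (x : F) (hx : x ≠ 1) : x ∈ BF ∨ fa⁻¹ * x * fa ∈ BF := by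
  by_cases hB : x ∈ BF
  · exact Or.inl hB
  · right
    refine ⟨false, ?_⟩
    have h1 : (fa⁻¹ * x).toWord = (true, false) :: x.toWord := by
      rw [fa_inv_eq, free_hl]
      intro h
      exact hB ⟨true, h⟩
    cases hw : x.toWord with
    | nil => exact absurd (FreeGroup.toWord_eq_nil_iff.mp hw) hx
    | cons hd tl =>
      rw [hw] at h1
      rw [fa_eq] at h1 ⊢
      exact free_hr _ _ _ _ _ h1

theorem BF_conj_b (x : F) (hx : x ∈ BF) : fb * x * fb⁻¹ ∉ BF := by
  obtain ⟨e, t, h⟩ := free_BF_left_b x hx true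
  exact free_not_BF (e := true) (by rw [fb_inv_eq, fb_eq]; exact free_hr _ _ _ _ _ h)

theorem BF_conj_bb (x : F) : ¬ (fb * x * fb⁻¹ ∈ BF ∧ fb⁻¹ * x * fb ∈ BF) := by
  rintro ⟨h1, h2⟩
  set y := fb * x * fb⁻¹ with hy
  have hx : x = fb⁻¹ * y * fb := by rw [hy]; group
  obtain ⟨e, t, h⟩ := free_BF_left_b _ h1 false
  have hxh : x.toWord.head? = some (false, false) := by
    rw [hx, fb_inv_eq, fb_eq]
    exact free_hr _ _ _ _ _ h
  have h3 : (fb⁻¹ * x).toWord = (false, false) :: x.toWord := by
    rw [fb_inv_eq, free_hl]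
    rw [hxh]
    simp
  cases hw : x.toWord with
  | nil => rw [hw] at hxh; simp at hxh
  | cons hd tl =>
    rw [hw] at h3
    refine free_not_BF (e := false) ?_ h2
    rw [fb_eq] at h3 ⊢
    exact free_hr _ _ _ _ _ h3

end Pool.Agent.Pa1e8
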