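import Mathlib

/-!
# MP_a1e8df_an, Q2: paradoxical sets give spectral gap (MODULE Gap)

The Murray-von Neumann 14-epsilon argument: if `Y ⊆ B ∪ σ B` and `B, τ B, τ⁻¹ B` are disjoint
subsets of `Y`, then an almost `σ`- and `τ`-invariant square summable function is small on `Y`.
-/

set_option autoImplicit false

namespace Pool.Agent.Pa1e8

theorem gap_sq_le (u v : ℂ) : ‖u‖ ^ 2 ≤ 5 / 4 * ‖v‖ ^ 2 + 5 * ‖v - u‖ ^ 2 := by
  have h : ‖u‖ ≤ ‖v‖ + ‖v - u‖ := by
    have := norm_sub_norm_le u v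
    rw [norm_sub_rev] at this
    linarith
  have h0 := norm_nonneg u
  nlinarith [sq_nonneg (‖v‖ - 4 * ‖v - u‖), norm_nonneg v, norm_nonneg (v - u)]

theorem gap_sq_le' (u v : ℂ) : ‖v‖ ^ 2 ≤ 5 / 4 * ‖u‖ ^ 2 + 5 * ‖v - u‖ ^ 2 := by
  rw [norm_sub_rev]
  exact gap_sq_le v u

/-- the mass of `f` on a set -/
noncomputable def mass {X : Type*} (f : X → ℂ) (A : Set X) : ℝ :=
  ∑' x, Set.indicator A (fun x => ‖f x‖ ^ 2) x

theorem summable_diff {X : Type*} (ρ : Equiv.Perm X) (f : X → ℂ)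
    (hf : Summable fun x => ‖f x‖ ^ 2) : Summable fun x => ‖f (ρ x) - f x‖ ^ 2 := by
  have h1 : Summable fun x => ‖f (ρ x)‖ ^ 2 := (ρ.summable_iff (f := fun x => ‖f x‖ ^ 2)).2 hf
  refine Summable.of_nonneg_of_le (fun x => sq_nonneg _) (fun x => ?_)
    ((h1.mul_left 2).add (hf.mul_left 2))
  have h := norm_sub_le (f (ρ x)) (f x)
  have h0 := norm_nonneg (f (ρ x) - f x)
  nlinarith [sq_nonneg (‖f (ρ x)‖ - ‖f x‖)]

theorem mass_shift {X : Type*} (ρ : Equiv.Perm X) (f : X → ℂ) (B : Set X) :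
    ∑' x, Set.indicator {x | ρ x ∈ B} (fun x => ‖f (ρ x)‖ ^ 2) x = mass f B := by
  unfold mass
  rw [← ρ.tsum_eq (fun x => Set.indicator B (fun x => ‖f x‖ ^ 2) x)]
  refine tsum_congr fun x => ?_
  by_cases h : ρ x ∈ B
  · rw [Set.indicator_of_mem (show x ∈ {x | ρ x ∈ B} from h), Set.indicator_of_mem h]
  · rw [Set.indicator_of_notMem (show x ∉ {x | ρ x ∈ B} from h), Set.indicator_of_notMem h]

theorem mass_cmp {X : Type*} (ρ : Equiv.Perm X) (f : X → ℂ) (B : Set X)
    (hf : Summable fun x => ‖f x‖ ^ 2) (E : ℝ) (hE : ∑' x, ‖f (ρ x) - f x‖ ^ 2 ≤ E) :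
    mass f {x | ρ x ∈ B} ≤ 5 / 4 * mass f B + 5 * E ∧
    mass f B ≤ 5 / 4 * mass f {x | ρ x ∈ B} + 5 * E := by
  have hd := summable_diff ρ f hf
  have h1 : Summable fun x => ‖f (ρ x)‖ ^ 2 := (ρ.summable_iff (f := fun x => ‖f x‖ ^ 2)).2 hf
  have hi1 := h1.indicator {x | ρ x ∈ B}
  have hi0 := hf.indicator {x | ρ x ∈ B}
  have hsh := mass_shift ρ f B
  constructor
  · have h2 : mass f {x | ρ x ∈ B} ≤ ∑' x, (5 / 4 * Set.indicator {x | ρ x ∈ B}
        (fun x => ‖f (ρ x)‖ ^ 2) x + 5 * ‖f (ρ x) - f x‖ ^ 2) := by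
      refine Summable.tsum_le_tsum (fun x => ?_) hi0 ((hi1.mul_left _).add (hd.mul_left _))
      by_cases h : x ∈ {x | ρ x ∈ B}
      · rw [Set.indicator_of_mem h, Set.indicator_of_mem h]
        exact gap_sq_le (f x) (f (ρ x))
      · rw [Set.indicator_of_notMem h, Set.indicator_of_notMem h]
        positivity
    rw [Summable.tsum_add (hi1.mul_left _) (hd.mul_left _), tsum_mul_left, tsum_mul_left, hsh] at h2
    linarith
  · have h2 : ∑' x, Set.indicator {x | ρ x ∈ B} (fun x => ‖f (ρ x)‖ ^ 2) x ≤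
        ∑' x, (5 / 4 * Set.indicator {x | ρ x ∈ B}
        (fun x => ‖f x‖ ^ 2) x + 5 * ‖f (ρ x) - f x‖ ^ 2) := by
      refine Summable.tsum_le_tsum (fun x => ?_) hi1 ((hi0.mul_left _).add (hd.mul_left _))
      by_cases h : x ∈ {x | ρ x ∈ B}
      · rw [Set.indicator_of_mem h, Set.indicator_of_mem h]
        exact gap_sq_le' (f x) (f (ρ x))
      · rw [Set.indicator_of_notMem h, Set.indicator_of_notMem h]
        positivity
    rw [Summable.tsum_add (hi0.mul_left _) (hd.mul_left _), tsum_mul_left, tsum_mul_left, hsh] at h2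
    unfold mass at h2 ⊢
    linarith

theorem mass_nonneg {X : Type*} (f : X → ℂ) (A : Set X) : 0 ≤ mass f A :=
  tsum_nonneg fun _ => Set.indicator_nonneg (fun _ _ => sq_nonneg _) _

theorem gap {X : Type*} (σ τ : Equiv.Perm X) (Y B : Set X) (hBY : B ⊆ Y)
    (hY : ∀ x ∈ Y, τ x ∈ Y) (hY' : ∀ x ∈ Y, τ.symm x ∈ Y)
    (hc : ∀ x ∈ Y, x ∈ B ∨ σ.symm x ∈ B)
    (h1 : ∀ x ∈ B, τ x ∉ B) (h2 : ∀ x, ¬ (τ x ∈ B ∧ τ.symm x ∈ B))
    (f : X → ℂ) (hf : Summable fun x => ‖f x‖ ^ 2) (ε : ℝ) (hε : 0 ≤ ε)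
    (hs : ∑' x, ‖f (σ.symm x) - f x‖ ^ 2 ≤ ε ^ 2)
    (ht : ∑' x, ‖f (τ.symm x) - f x‖ ^ 2 ≤ ε ^ 2) :
    ∑' x, Set.indicator Y (fun x => ‖f x‖ ^ 2) x ≤ (14 * ε) ^ 2 := by
  have ht' : ∑' x, ‖f (τ x) - f x‖ ^ 2 ≤ ε ^ 2 := by
    rw [← τ.tsum_eq (fun x => ‖f (τ.symm x) - f x‖ ^ 2)] at ht
    refine le_trans (le_of_eq (tsum_congr fun x => ?_)) ht
    rw [Equiv.symm_apply_apply, norm_sub_rev]
  have a1 := (mass_cmp σ.symm f B hf _ hs).1
  have a2 := (mass_cmp τ.symm f B hf _ ht).2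
  have a3 := (mass_cmp τ f B hf _ ht').2
  have b1 : mass f Y ≤ mass f B + mass f {x | σ.symm x ∈ B} := by
    unfold mass
    rw [← Summable.tsum_add (hf.indicator _) (hf.indicator _)]
    refine Summable.tsum_le_tsum (fun x => ?_) (hf.indicator _)
      ((hf.indicator _).add (hf.indicator _))
    have hB0 : 0 ≤ Set.indicator B (fun x => ‖f x‖ ^ 2) x :=
      Set.indicator_nonneg (fun _ _ => sq_nonneg _) _
    have hS0 : 0 ≤ Set.indicator {x | σ.symm x ∈ B} (fun x => ‖f x‖ ^ 2) x :=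
      Set.indicator_nonneg (fun _ _ => sq_nonneg _) _
    by_cases h : x ∈ Y
    · rw [Set.indicator_of_mem h]
      rcases hc x h with h' | h'
      · rw [Set.indicator_of_mem h'] at hB0 ⊢
        linarith
      · rw [Set.indicator_of_mem (show x ∈ {x | σ.symm x ∈ B} from h')] at hS0 ⊢
        linarith
    · rw [Set.indicator_of_notMem h]
      linarith
  have b2 : mass f B + mass f {x | τ.symm x ∈ B} + mass f {x | τ x ∈ B} ≤ mass f Y := by
    unfold mass
    rw [← Summable.tsum_add (hf.indicator _) (hf.indicator _),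
      ← Summable.tsum_add ((hf.indicator _).add (hf.indicator _)) (hf.indicator _)]
    refine Summable.tsum_le_tsum (fun x => ?_)
      (((hf.indicator _).add (hf.indicator _)).add (hf.indicator _)) (hf.indicator _)
    have hY0 : 0 ≤ Set.indicator Y (fun x => ‖f x‖ ^ 2) x :=
      Set.indicator_nonneg (fun _ _ => sq_nonneg _) _
    by_cases hB : x ∈ B
    · have n1 : x ∉ {x | τ.symm x ∈ B} := by
        intro h
        have := h1 _ h
        rw [Equiv.apply_symm_apply] at this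
        exact this hB
      have n2 : x ∉ {x | τ x ∈ B} := h1 x hB
      rw [Set.indicator_of_mem hB, Set.indicator_of_notMem n1, Set.indicator_of_notMem n2,
        Set.indicator_of_mem (hBY hB)]
      simp
    · rw [Set.indicator_of_notMem hB]
      by_cases hT : x ∈ {x | τ.symm x ∈ B}
      · have n2 : x ∉ {x | τ x ∈ B} := fun h => h2 x ⟨h, hT⟩
        have hxY : x ∈ Y := by
          have := hY _ (hBY hT)
          rwa [Equiv.apply_symm_apply] at this
        rw [Set.indicator_of_mem hT, Set.indicator_of_notMem n2, Set.indicator_of_mem hxY]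
        simp
      · rw [Set.indicator_of_notMem hT]
        by_cases hT' : x ∈ {x | τ x ∈ B}
        · have hxY : x ∈ Y := by
            have := hY' _ (hBY hT')
            rwa [Equiv.symm_apply_apply] at this
          rw [Set.indicator_of_mem hT', Set.indicator_of_mem hxY]
          simp
        · rw [Set.indicator_of_notMem hT']
          simpa using hY0
  have hB := mass_nonneg f B
  change mass f Y ≤ _
  have hE : 0 ≤ ε ^ 2 := sq_nonneg ε
  nlinarith

/-- the same paradoxical configuration kills every finitely additive invariant mean -/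
theorem mean_eq_zero {X : Type*} (σ τ : Equiv.Perm X) (Y B : Set X) (hBY : B ⊆ Y)
    (hY : ∀ x ∈ Y, τ x ∈ Y) (hY' : ∀ x ∈ Y, τ.symm x ∈ Y)
    (hc : ∀ x ∈ Y, x ∈ B ∨ σ.symm x ∈ B)
    (h1 : ∀ x ∈ B, τ x ∉ B) (h2 : ∀ x, ¬ (τ x ∈ B ∧ τ.symm x ∈ B))
    (μ : Set X → ℝ) (hpos : ∀ A, 0 ≤ μ A)
    (hadd : ∀ A A', Disjoint A A' → μ (A ∪ A') = μ A + μ A')
    (hσ : ∀ A, μ (σ '' A) = μ A) (hτ : ∀ A, μ (τ '' A) = μ A) : μ Y = 0 := by
  have hmono : ∀ A A' : Set X, A ⊆ A' → μ A ≤ μ A' := by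
    intro A A' h
    have := hadd A (A' \ A) Set.disjoint_sdiff_right
    rw [Set.union_diff_cancel h] at this
    rw [this]
    linarith [hpos (A' \ A)]
  have hsub : ∀ A A' : Set X, μ (A ∪ A') ≤ μ A + μ A' := by
    intro A A'
    have h := hadd A (A' \ A) Set.disjoint_sdiff_right
    rw [Set.union_diff_self] at h
    rw [h]
    have := hmono (A' \ A) A' Set.diff_subset
    linarith
  have hτ' : μ (τ.symm '' B) = μ B := by
    have := hτ (τ.symm '' B)
    rw [← Set.image_comp] at this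
    rw [← this]
    congr 1
    ext x
    simp
  have b1 : μ Y ≤ 2 * μ B := by
    have h : Y ⊆ B ∪ σ '' B := by
      intro x hx
      rcases hc x hx with h | h
      · exact Or.inl h
      · exact Or.inr ⟨_, h, Equiv.apply_symm_apply _ _⟩
    have := (hmono _ _ h).trans (hsub _ _)
    rw [hσ] at this
    linarith
  have b2 : 3 * μ B ≤ μ Y := by
    have d1 : Disjoint B (τ '' B) := by
      rw [Set.disjoint_left]
      rintro x hx ⟨y, hy, rfl⟩
      exact h1 y hy hx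
    have d2 : Disjoint (B ∪ τ '' B) (τ.symm '' B) := by
      rw [Set.disjoint_left]
      rintro x hx ⟨y, hy, rfl⟩
      rcases hx with hx | ⟨z, hz, hzx⟩
      · have := h1 _ hx
        rw [Equiv.apply_symm_apply] at this
        exact this hy
      · refine h2 (τ.symm y) ⟨by rwa [Equiv.apply_symm_apply], ?_⟩
        rw [← hzx, Equiv.symm_apply_apply]
        exact hz
    have h : (B ∪ τ '' B) ∪ τ.symm '' B ⊆ Y := by
      rintro x ((hx | ⟨y, hy, rfl⟩) | ⟨y, hy, rfl⟩)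
      · exact hBY hx
      · exact hY _ (hBY hy)
      · exact hY' _ (hBY hy)
    have := hmono _ _ h
    rw [hadd _ _ d2, hadd _ _ d1, hτ, hτ'] at this
    linarith
  have := hpos B
  have := hpos Y
  linarith

end Pool.Agent.Pa1e8
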