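import Mathlib

/-!
# MP_a1e8df_an, Q2: generic algebra of operators

Stated for an abstract Hilbert space; `rw` works with these also on `EuclideanSpace`.
-/

set_option autoImplicit false

namespace Pool.Agent.Pa1e8

variable {E : Type*} [NormedAddCommGroup E] [InnerProductSpace ℂ E] [CompleteSpace E]

theorem g_star_sub (y z : E →L[ℂ] E) : star (y - z) = star y - star z := star_sub _ _

theorem g_star_mul (y z : E →L[ℂ] E) : star (y * z) = star z * star y := star_mul _ _

theorem g_star_star (y : E →L[ℂ] E) : star (star y) = y := star_star _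

theorem g_norm_star (y : E →L[ℂ] E) : ‖star y‖ = ‖y‖ := norm_star _

theorem g_sa (y : E →L[ℂ] E) (c : ℝ) :
    star (star y * y - (c : ℂ) • (1 : E →L[ℂ] E)) = star y * y - (c : ℂ) • (1 : E →L[ℂ] E) := by
  rw [star_sub, star_mul, star_star, star_smul, star_one]
  congr 2
  exact Complex.conj_ofReal _

omit [CompleteSpace E] in
theorem g_norm_one_le : ‖(1 : E →L[ℂ] E)‖ ≤ 1 := ContinuousLinearMap.norm_id_le

omit [CompleteSpace E] in
theorem g_norm_mul (y z : E →L[ℂ] E) : ‖y * z‖ ≤ ‖y‖ * ‖z‖ := norm_mul_le _ _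

theorem g_norm_z (y : E →L[ℂ] E) (c : ℝ) :
    ‖star y * y - (c : ℂ) • (1 : E →L[ℂ] E)‖ ≤ ‖y‖ * ‖y‖ + |c| := by
  refine (norm_sub_le _ _).trans (add_le_add ?_ ?_)
  · refine (norm_mul_le _ _).trans ?_
    rw [norm_star]
  · rw [norm_smul, Complex.norm_real, Real.norm_eq_abs]
    calc |c| * ‖(1 : E →L[ℂ] E)‖ ≤ |c| * 1 := by gcongr; exact g_norm_one_le
      _ = |c| := mul_one _

theorem g_diff (y : E →L[ℂ] E) (h L : ℝ) :
    star y * y - (L : ℂ) • (1 : E →L[ℂ] E) - (star y * y - (h : ℂ) • (1 : E →L[ℂ] E))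
      = ((h - L : ℝ) : ℂ) • (1 : E →L[ℂ] E) := by
  rw [Complex.ofReal_sub, sub_smul]
  abel

omit [CompleteSpace E] in
theorem g_neg_one_smul (y : E →L[ℂ] E) : (-1 : ℂ) • y = -y := neg_one_smul _ _

omit [CompleteSpace E] in
theorem g_sub_eq (y z : E →L[ℂ] E) : y - z = y + (-1 : ℂ) • z := by
  rw [neg_one_smul, sub_eq_add_neg]

omit [CompleteSpace E] in
theorem g_smul_sub (c : ℂ) (y z : E →L[ℂ] E) : c • (y - z) = c • y - c • z := smul_sub _ _ _

omit [CompleteSpace E] in
theorem g_mul_split (P X X' y y' : E →L[ℂ] E) :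
    P - y * y' = (P - X * X') + ((X - y) * X' + y * (X' - y')) := by
  rw [sub_mul, mul_sub]
  abel

omit [CompleteSpace E] in
theorem g_sub_smul (a b : ℂ) (y : E →L[ℂ] E) : (a - b) • y = a • y - b • y := sub_smul _ _ _

theorem g_inv_mul {h k : E →L[ℂ] E} (h1 : k * (1 + h) = 1) (h2 : (1 + h) * k = 1) :
    k * (h - 1) = (h - 1) * k := by
  have e1 : k + k * h = 1 := by rw [← h1, mul_add, mul_one]
  have e2 : k + h * k = 1 := by rw [← h2, add_mul, one_mul]
  have e3 : k * h = h * k := by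
    have := e1.trans e2.symm
    exact add_left_cancel this
  rw [mul_sub, sub_mul, e3, mul_one, one_mul]

end Pool.Agent.Pa1e8
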