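import Pool.Agent.Lib.Pa1e8df.Free
import Pool.Agent.Lib.Pa1e8df.Gap

/-!
# MP_a1e8df_an, Q2: paradoxical sets in `G` (MODULE GroupPar)

* `Yc` (nontrivial function part) is moved by the conjugations by the constants `ac, bc`:
  choose an index `i` in the support of the function part, depending only on the support (which
  is invariant under conjugation by constants), and look at the value there (conjugation action
  of `F` on `F \ {1}`, set `BF`).
* `Y0` (`m ≠ 0` or value at `0` nontrivial) is moved by the conjugations by `a0, b0`: look at the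
  value at `0`; if `m ≠ 0` it is multiplied on the left, if `m = 0` it is conjugated.
* every nontrivial element is in `Yc ∪ Y0`.
-/

set_option autoImplicit false

namespace Pool.Agent.Pa1e8

/-- conjugation by `g` as a permutation -/
def cj (g : G) : Equiv.Perm G := (MulAut.conj g).toEquiv

theorem cj_apply (g x : G) : cj g x = g * x * g⁻¹ := rfl
theorem cj_symm_apply (g x : G) : (cj g).symm x = g⁻¹ * x * g := rfl

theorem one_compl (g : G) (hg : g ≠ 1) : g ∈ Yc ∪ Y0 := by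
  by_contra h
  apply hg
  simp only [Set.mem_union, Yc, Y0, Set.mem_ofPred_eq, not_or, not_exists, not_not] at h
  apply Subtype.ext
  apply GG.ext
  · funext i
    exact h.1 i
  · exact h.2.1

/-! ### the constants -/

/-- the support of the function part -/
def supG (g : G) : Set ℤ := {i | g.1.w i ≠ 1}

/-- an element chosen in a nonempty set of integers -/
noncomputable def selZ (s : Set ℤ) : ℤ := Classical.epsilon fun i => i ∈ s

theorem selZ_mem {s : Set ℤ} (h : ∃ i, i ∈ s) : selZ s ∈ s := Classical.epsilon_spec h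

/-- the value at the chosen point of the support -/
noncomputable def valc (g : G) : F := g.1.w (selZ (supG g))

theorem valc_ne {g : G} (h : g ∈ Yc) : valc g ≠ 1 := selZ_mem (s := supG g) h

theorem cst_conj_w (k : F) (x : GG) (i : ℤ) :
    (GG.cst k * x * (GG.cst k)⁻¹).w i = k * x.w i * k⁻¹ := by
  simp

theorem cst_conj_w' (k : F) (x : GG) (i : ℤ) :
    ((GG.cst k)⁻¹ * x * GG.cst k).w i = k⁻¹ * x.w i * k := by
  simp

theorem supG_conj {k : F} {g x : G} (hg : g.1 = GG.cst k) : supG (g * x * g⁻¹) = supG x := by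
  ext i
  have : (g * x * g⁻¹).1.w i = k * x.1.w i * k⁻¹ := by
    rw [← cst_conj_w, ← hg]
    rfl
  simp only [supG, Set.mem_ofPred_eq, this, ne_eq, conj_eq_one_iff]

theorem supG_conj' {k : F} {g x : G} (hg : g.1 = GG.cst k) : supG (g⁻¹ * x * g) = supG x := by
  ext i
  have h1 : (g⁻¹ * x * g).1.w i = k⁻¹ * x.1.w i * k := by
    rw [← cst_conj_w', ← hg]
    rfl
  have h2 : k⁻¹ * x.1.w i * k = k⁻¹ * x.1.w i * (k⁻¹)⁻¹ := by rw [inv_inv]
  simp only [supG, Set.mem_ofPred_eq, h1, ne_eq, h2, conj_eq_one_iff]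

theorem valc_conj {k : F} {g x : G} (hg : g.1 = GG.cst k) :
    valc (g * x * g⁻¹) = k * valc x * k⁻¹ := by
  unfold valc
  rw [supG_conj hg, ← cst_conj_w, ← hg]
  rfl

theorem valc_conj' {k : F} {g x : G} (hg : g.1 = GG.cst k) :
    valc (g⁻¹ * x * g) = k⁻¹ * valc x * k := by
  unfold valc
  rw [supG_conj' hg, ← cst_conj_w', ← hg]
  rfl

theorem mem_Yc_iff (x : G) : x ∈ Yc ↔ (supG x).Nonempty := Iff.rfl

/-- the paradoxical subset of `Yc` -/
def Bc : Set G := {g | g ∈ Yc ∧ valc g ∈ BF}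

theorem Bc_cover (x : G) (hx : x ∈ Yc) : x ∈ Bc ∨ (cj ac).symm x ∈ Bc := by
  rcases BF_conj_cover (valc x) (valc_ne hx) with h | h
  · exact Or.inl ⟨hx, h⟩
  · right
    rw [cj_symm_apply]
    refine ⟨?_, ?_⟩
    · rw [mem_Yc_iff, supG_conj' (k := fa) rfl]
      exact hx
    · rw [valc_conj' (k := fa) rfl]
      exact h

theorem Yc_conj {k : F} {g x : G} (hg : g.1 = GG.cst k) (hx : x ∈ Yc) : cj g x ∈ Yc := by
  rw [cj_apply, mem_Yc_iff, supG_conj hg]
  exact hx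

theorem Yc_conj' {k : F} {g x : G} (hg : g.1 = GG.cst k) (hx : x ∈ Yc) :
    (cj g).symm x ∈ Yc := by
  rw [cj_symm_apply, mem_Yc_iff, supG_conj' hg]
  exact hx

theorem Bc_b (x : G) (hx : x ∈ Bc) : cj bc x ∉ Bc := by
  intro h
  have := h.2
  rw [cj_apply, valc_conj (k := fb) rfl] at this
  exact BF_conj_b _ hx.2 this

theorem Bc_bb (x : G) : ¬ (cj bc x ∈ Bc ∧ (cj bc).symm x ∈ Bc) := by
  rintro ⟨h1, h2⟩
  have h1' := h1.2
  have h2' := h2.2
  rw [cj_apply, valc_conj (k := fb) rfl] at h1'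
  rw [cj_symm_apply, valc_conj' (k := fb) rfl] at h2'
  exact BF_conj_bb _ ⟨h1', h2'⟩

/-! ### the copy of `F` at position `0` -/

theorem pos_conj_m (k : F) (x : GG) : (GG.pos k * x * (GG.pos k)⁻¹).m = x.m := by
  simp

theorem pos_conj_m' (k : F) (x : GG) : ((GG.pos k)⁻¹ * x * GG.pos k).m = x.m := by
  simp

theorem pos_conj_w_zero (k : F) (x : GG) (hx : x.m = 0) :
    (GG.pos k * x * (GG.pos k)⁻¹).w 0 = k * x.w 0 * k⁻¹ := by
  simp [hx]

theorem pos_conj_w_zero' (k : F) (x : GG) (hx : x.m = 0) :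
    ((GG.pos k)⁻¹ * x * GG.pos k).w 0 = k⁻¹ * x.w 0 * k := by
  simp [hx]

theorem pos_conj_w_ne (k : F) (x : GG) (hx : x.m ≠ 0) :
    (GG.pos k * x * (GG.pos k)⁻¹).w 0 = k * x.w 0 := by
  have h : (Pi.mulSingle (0 : ℤ) k : ℤ → F) (-x.m) = 1 :=
    Pi.mulSingle_eq_of_ne (M := fun _ : ℤ => F) (neg_ne_zero.2 hx) k
  simp [h]

theorem pos_conj_w_ne' (k : F) (x : GG) (hx : x.m ≠ 0) :
    ((GG.pos k)⁻¹ * x * GG.pos k).w 0 = k⁻¹ * x.w 0 := by
  have h : (Pi.mulSingle (0 : ℤ) k : ℤ → F) (-x.m) = 1 :=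
    Pi.mulSingle_eq_of_ne (M := fun _ : ℤ => F) (neg_ne_zero.2 hx) k
  simp [h]

/-- the paradoxical subset of `Y0` -/
def B0 : Set G := {g | g ∈ Y0 ∧ g.1.w 0 ∈ BF}

section pos

variable {k : F} {g x : G}

theorem cj0_m (hg : g.1 = GG.pos k) : (cj g x).1.m = x.1.m := by
  have : (cj g x).1 = GG.pos k * x.1 * (GG.pos k)⁻¹ := by rw [← hg]; rfl
  rw [this, pos_conj_m]

theorem cj0_m' (hg : g.1 = GG.pos k) : ((cj g).symm x).1.m = x.1.m := by
  have : ((cj g).symm x).1 = (GG.pos k)⁻¹ * x.1 * GG.pos k := by rw [← hg]; rfl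
  rw [this, pos_conj_m']

theorem cj0_w (hg : g.1 = GG.pos k) (hx : x.1.m = 0) :
    (cj g x).1.w 0 = k * x.1.w 0 * k⁻¹ := by
  have : (cj g x).1 = GG.pos k * x.1 * (GG.pos k)⁻¹ := by rw [← hg]; rfl
  rw [this, pos_conj_w_zero _ _ hx]

theorem cj0_w' (hg : g.1 = GG.pos k) (hx : x.1.m = 0) :
    ((cj g).symm x).1.w 0 = k⁻¹ * x.1.w 0 * k := by
  have : ((cj g).symm x).1 = (GG.pos k)⁻¹ * x.1 * GG.pos k := by rw [← hg]; rfl
  rw [this, pos_conj_w_zero' _ _ hx]

theorem cj0_v (hg : g.1 = GG.pos k) (hx : x.1.m ≠ 0) :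
    (cj g x).1.w 0 = k * x.1.w 0 := by
  have : (cj g x).1 = GG.pos k * x.1 * (GG.pos k)⁻¹ := by rw [← hg]; rfl
  rw [this, pos_conj_w_ne _ _ hx]

theorem cj0_v' (hg : g.1 = GG.pos k) (hx : x.1.m ≠ 0) :
    ((cj g).symm x).1.w 0 = k⁻¹ * x.1.w 0 := by
  have : ((cj g).symm x).1 = (GG.pos k)⁻¹ * x.1 * GG.pos k := by rw [← hg]; rfl
  rw [this, pos_conj_w_ne' _ _ hx]

theorem Y0_conj (hg : g.1 = GG.pos k) (hx : x ∈ Y0) : cj g x ∈ Y0 := by
  by_cases hm : x.1.m = 0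
  · right
    rw [cj0_w hg hm]
    intro h
    rw [conj_eq_one_iff] at h
    rcases hx with hx | hx
    · exact hx hm
    · exact hx h
  · left
    rw [cj0_m hg]
    exact hm

theorem Y0_conj' (hg : g.1 = GG.pos k) (hx : x ∈ Y0) : (cj g).symm x ∈ Y0 := by
  by_cases hm : x.1.m = 0
  · right
    rw [cj0_w' hg hm]
    intro h
    have h2 : k⁻¹ * x.1.w 0 * (k⁻¹)⁻¹ = 1 := by rw [inv_inv]; exact h
    rw [conj_eq_one_iff] at h2
    rcases hx with hx | hx
    · exact hx hm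
    · exact hx h2
  · left
    rw [cj0_m' hg]
    exact hm

end pos

theorem B0_cover (x : G) (hx : x ∈ Y0) : x ∈ B0 ∨ (cj a0).symm x ∈ B0 := by
  by_cases hm : x.1.m = 0
  · have hne : x.1.w 0 ≠ 1 := by
      rcases hx with hx | hx
      · exact absurd hm hx
      · exact hx
    rcases BF_conj_cover (x.1.w 0) hne with h | h
    · exact Or.inl ⟨hx, h⟩
    · refine Or.inr ⟨Y0_conj' (k := fa) rfl hx, ?_⟩
      rw [cj0_w' (k := fa) rfl hm]
      exact h
  · rcases BF_left_cover (x.1.w 0) with h | h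
    · exact Or.inl ⟨hx, h⟩
    · refine Or.inr ⟨Y0_conj' (k := fa) rfl hx, ?_⟩
      rw [cj0_v' (k := fa) rfl hm]
      exact h

theorem B0_b (x : G) (hx : x ∈ B0) : cj b0 x ∉ B0 := by
  intro h
  have h2 := h.2
  by_cases hm : x.1.m = 0
  · rw [cj0_w (k := fb) rfl hm] at h2
    exact BF_conj_b _ hx.2 h2
  · rw [cj0_v (k := fb) rfl hm] at h2
    exact BF_left_b _ hx.2 h2

theorem B0_bb (x : G) : ¬ (cj b0 x ∈ B0 ∧ (cj b0).symm x ∈ B0) := by
  rintro ⟨h1, h2⟩
  have h1' := h1.2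
  have h2' := h2.2
  by_cases hm : x.1.m = 0
  · rw [cj0_w (k := fb) rfl hm] at h1'
    rw [cj0_w' (k := fb) rfl hm] at h2'
    exact BF_conj_bb _ ⟨h1', h2'⟩
  · rw [cj0_v (k := fb) rfl hm] at h1'
    rw [cj0_v' (k := fb) rfl hm] at h2'
    exact BF_left_bb _ ⟨h1', h2'⟩

/-- gap for the conjugations by the constants on `Yc` -/
theorem gap_Yc (f : G → ℂ) (hf : Summable fun x => ‖f x‖ ^ 2) (ε : ℝ) (hε : 0 ≤ ε)
    (hs : ∑' x, ‖f (ac⁻¹ * x * ac) - f x‖ ^ 2 ≤ ε ^ 2)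
    (ht : ∑' x, ‖f (bc⁻¹ * x * bc) - f x‖ ^ 2 ≤ ε ^ 2) :
    ∑' x, Set.indicator Yc (fun x => ‖f x‖ ^ 2) x ≤ (14 * ε) ^ 2 :=
  gap (cj ac) (cj bc) Yc Bc (fun _ h => h.1) (fun _ h => Yc_conj (k := fb) rfl h)
    (fun _ h => Yc_conj' (k := fb) rfl h) Bc_cover Bc_b Bc_bb f hf ε hε hs ht

/-- gap for the conjugations by the copy of `F` at position `0` on `Y0` -/
theorem gap_Y0 (f : G → ℂ) (hf : Summable fun x => ‖f x‖ ^ 2) (ε : ℝ) (hε : 0 ≤ ε)
    (hs : ∑' x, ‖f (a0⁻¹ * x * a0) - f x‖ ^ 2 ≤ ε ^ 2)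
    (ht : ∑' x, ‖f (b0⁻¹ * x * b0) - f x‖ ^ 2 ≤ ε ^ 2) :
    ∑' x, Set.indicator Y0 (fun x => ‖f x‖ ^ 2) x ≤ (14 * ε) ^ 2 :=
  gap (cj a0) (cj b0) Y0 B0 (fun _ h => h.1) (fun _ h => Y0_conj (k := fb) rfl h)
    (fun _ h => Y0_conj' (k := fb) rfl h) B0_cover B0_b B0_bb f hf ε hε hs ht

/-- `G` is not inner amenable -/
theorem not_innerAmenable : ¬ ∃ μ : Set G → ℝ, (∀ A, 0 ≤ μ A) ∧ μ Set.univ = 1 ∧ μ {1} = 0 ∧
    (∀ A B, Disjoint A B → μ (A ∪ B) = μ A + μ B) ∧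
    (∀ (g : G) (A : Set G), μ ((fun x => g * x * g⁻¹) '' A) = μ A) := by
  rintro ⟨μ, hpos, huniv, h1, hadd, hinv⟩
  have hsub : ∀ A B : Set G, μ (A ∪ B) ≤ μ A + μ B := by
    intro A B
    have e1 : μ (A ∪ B) = μ A + μ (B \ A) := by
      rw [← hadd A (B \ A) Set.disjoint_sdiff_right, Set.union_sdiff_self]
    have e2 : μ B = μ (B ∩ A) + μ (B \ A) := by
      rw [← hadd (B ∩ A) (B \ A) ?_, Set.inter_union_sdiff]
      exact Set.disjoint_sdiff_right.mono_left Set.inter_subset_right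
    have := hpos (B ∩ A)
    linarith
  have hc : μ Yc = 0 :=
    mean_eq_zero (cj ac) (cj bc) Yc Bc (fun _ h => h.1) (fun _ h => Yc_conj (k := fb) rfl h)
      (fun _ h => Yc_conj' (k := fb) rfl h) Bc_cover Bc_b Bc_bb μ hpos hadd
      (fun A => hinv ac A) (fun A => hinv bc A)
  have h0 : μ Y0 = 0 :=
    mean_eq_zero (cj a0) (cj b0) Y0 B0 (fun _ h => h.1) (fun _ h => Y0_conj (k := fb) rfl h)
      (fun _ h => Y0_conj' (k := fb) rfl h) B0_cover B0_b B0_bb μ hpos hadd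
      (fun A => hinv a0 A) (fun A => hinv b0 A)
  have hU : (Set.univ : Set G) = {1} ∪ (Yc ∪ Y0) := by
    symm
    rw [Set.eq_univ_iff_forall]
    intro g
    by_cases hg : g = 1
    · exact Or.inl hg
    · exact Or.inr (one_compl g hg)
  have h2 := hsub {1} (Yc ∪ Y0)
  have h3 := hsub Yc Y0
  rw [← hU, huniv] at h2
  linarith

/-- `G` is icc -/
theorem icc (g : G) (hg : g ≠ 1) : {k : G | ∃ h : G, k = h * g * h⁻¹}.Infinite := by
  set C : Set G := {k : G | ∃ h : G, k = h * g * h⁻¹} with hC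
  by_contra hfin
  rw [Set.not_infinite] at hfin
  have hgC : g ∈ C := ⟨1, by simp⟩
  have hcard : 0 < (C.ncard : ℝ) := by
    have := (Set.ncard_pos hfin).2 ⟨g, hgC⟩
    exact_mod_cast this
  refine not_innerAmenable ⟨fun A => ((A ∩ C).ncard : ℝ) / C.ncard, ?_, ?_, ?_, ?_, ?_⟩
  · intro A
    positivity
  · simp only [Set.univ_inter]
    exact div_self hcard.ne'
  · have : ({1} : Set G) ∩ C = ∅ := by
      rw [Set.eq_empty_iff_forall_notMem]
      rintro x ⟨hx, h, hh⟩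
      rw [Set.mem_singleton_iff] at hx
      subst hx
      apply hg
      rw [eq_comm, conj_eq_one_iff] at hh
      exact hh
    simp [this]
  · intro A B hAB
    have e : (A ∪ B) ∩ C = (A ∩ C) ∪ (B ∩ C) := Set.union_inter_distrib_right A B C
    have hd : Disjoint (A ∩ C) (B ∩ C) :=
      hAB.mono Set.inter_subset_left Set.inter_subset_left
    simp only [e]
    rw [Set.ncard_union_eq hd (hfin.subset Set.inter_subset_right)
      (hfin.subset Set.inter_subset_right)]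
    push_cast
    rw [add_div]
  · intro k A
    have e : (fun x => k * x * k⁻¹) '' A ∩ C = (fun x => k * x * k⁻¹) '' (A ∩ C) := by
      ext x
      constructor
      · rintro ⟨⟨a, ha, rfl⟩, h, hh⟩
        refine ⟨a, ⟨ha, k⁻¹ * h, ?_⟩, rfl⟩
        simp only at hh
        have : a = k⁻¹ * (k * a * k⁻¹) * k := by group
        rw [this, hh]
        group
      · rintro ⟨a, ⟨ha, h, rfl⟩, rfl⟩
        refine ⟨⟨_, ha, rfl⟩, k * h, ?_⟩
        simp only
        group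
    simp only [e]
    rw [Set.ncard_image_of_injective]
    exact (cj k).injective

end Pool.Agent.Pa1e8
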