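import Pool.Agent.Lib.Pa1e8df.LGDefs

/-!
# MP_a1e8df_an, Q2: basic facts on the left group von Neumann algebra
(MODULE LGBasic)

All operators in `LG Γ` commute with the right translations, hence are left convolutions by
their symbol `T (dl Γ)`.
-/

set_option autoImplicit false
set_option linter.unusedSectionVars false

open scoped InnerProductSpace

namespace Pool.Agent.Pa1e8

universe u

variable {Γ : Type u} [Group Γ]

theorem pt_apply_self (h : Γ) : (pt h : L2 Γ) h = 1 := by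
  classical
  unfold pt
  exact lp.single_apply_self _ _ _

theorem pt_apply_ne {h g : Γ} (hg : g ≠ h) : (pt h : L2 Γ) g = 0 := by
  classical
  unfold pt
  exact lp.single_apply_ne _ _ _ hg

theorem norm_pt (h : Γ) : ‖(pt h : L2 Γ)‖ = 1 := by
  classical
  unfold pt
  rw [lp.norm_single (by norm_num)]
  exact norm_one

theorem pt_one : (pt (1 : Γ) : L2 Γ) = dl Γ := rfl

/-- the inner product (linear in the second variable) with a point mass -/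
theorem inner_pt (h : Γ) (ξ : L2 Γ) : ⟪(pt h : L2 Γ), ξ⟫_ℂ = ξ h := by
  classical
  unfold pt
  rw [lp.inner_single_left]
  simp

theorem lam_pt (g h : Γ) : lam g (pt h) = pt (g * h) := by
  ext x
  rw [lam_apply]
  by_cases hx : x = g * h
  · subst hx
    rw [pt_apply_self, inv_mul_cancel_left, pt_apply_self]
  · rw [pt_apply_ne hx, pt_apply_ne]
    intro h'
    apply hx
    rw [← h', mul_inv_cancel_left]

theorem star_lam (g : Γ) : star (lam g) = lam g⁻¹ := by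
  rw [ContinuousLinearMap.star_eq_adjoint]
  symm
  rw [ContinuousLinearMap.eq_adjoint_iff]
  intro ξ η
  rw [lp.inner_eq_tsum, lp.inner_eq_tsum, ← (Equiv.mulLeft g⁻¹).tsum_eq]
  apply tsum_congr
  intro x
  have h1 : (lam g⁻¹ ξ) ((Equiv.mulLeft g⁻¹) x) = ξ x := by
    rw [lam_apply, inv_inv, Equiv.coe_mulLeft, mul_inv_cancel_left]
  rw [h1]
  rfl

theorem lam_mem_leftSet (g : Γ) : lam g ∈ leftSet Γ := ⟨g, fun _ _ => rfl⟩

theorem mem_leftSet {T : L2 Γ →L[ℂ] L2 Γ} (hT : T ∈ leftSet Γ) : ∃ g : Γ, T = lam g := by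
  obtain ⟨g, hg⟩ := hT
  refine ⟨g, ?_⟩
  ext ξ h
  rw [hg, lam_apply]

theorem lam_mem (g : Γ) : lam g ∈ LG Γ := by
  intro S hS
  exact ((hS (lam g) (lam_mem_leftSet g))).symm

theorem LG_one : (1 : L2 Γ →L[ℂ] L2 Γ) ∈ LG Γ := by
  intro S hS
  rw [mul_one, one_mul]

theorem LG_mul {S T : L2 Γ →L[ℂ] L2 Γ} (hS : S ∈ LG Γ) (hT : T ∈ LG Γ) : S * T ∈ LG Γ := by
  intro U hU
  rw [← mul_assoc, hS U hU, mul_assoc, hT U hU, ← mul_assoc]

theorem LG_add {S T : L2 Γ →L[ℂ] L2 Γ} (hS : S ∈ LG Γ) (hT : T ∈ LG Γ) : S + T ∈ LG Γ := by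
  intro U hU
  rw [mul_add, add_mul, hS U hU, hT U hU]

theorem LG_sub {S T : L2 Γ →L[ℂ] L2 Γ} (hS : S ∈ LG Γ) (hT : T ∈ LG Γ) : S - T ∈ LG Γ := by
  intro U hU
  rw [mul_sub, sub_mul, hS U hU, hT U hU]

theorem LG_smul {T : L2 Γ →L[ℂ] L2 Γ} (c : ℂ) (hT : T ∈ LG Γ) : c • T ∈ LG Γ := by
  intro U hU
  rw [mul_smul_comm, smul_mul_assoc, hT U hU]

theorem LG_star {T : L2 Γ →L[ℂ] L2 Γ} (hT : T ∈ LG Γ) : star T ∈ LG Γ := by
  intro S hS
  have hS' : star S ∈ Set.centralizer (leftSet Γ) := by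
    intro L hL
    obtain ⟨g, rfl⟩ := mem_leftSet hL
    have h1 := hS (lam g⁻¹) (lam_mem_leftSet g⁻¹)
    have h2 := congrArg star h1
    rw [star_mul, star_mul, star_lam, inv_inv] at h2
    exact h2.symm
  have h1 := hT (star S) hS'
  have h2 := congrArg star h1
  rw [star_mul, star_mul, star_star] at h2
  exact h2.symm

/-- inverses of elements of `LG` are in `LG` -/
theorem LG_inv {S T : L2 Γ →L[ℂ] L2 Γ} (hS : S ∈ LG Γ) (h1 : S * T = 1) (h2 : T * S = 1) :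
    T ∈ LG Γ := by
  intro U hU
  have h3 := hS U hU
  calc U * T = (T * S) * (U * T) := by rw [h2, one_mul]
    _ = T * (S * U) * T := by simp only [mul_assoc]
    _ = T * (U * S) * T := by rw [h3]
    _ = T * U * (S * T) := by simp only [mul_assoc]
    _ = T * U := by rw [h1, mul_one]

theorem memlp_rshift (g : Γ) (ξ : L2 Γ) : Memℓp (fun h : Γ => ξ (h * g)) 2 := by
  have h1 : (0 : ℝ) < (2 : ENNReal).toReal := by norm_num
  have h2 := (memℓp_gen_iff h1).mp (lp.memℓp ξ)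
  rw [memℓp_gen_iff h1]
  exact (Equiv.mulRight g).summable_iff.mpr h2

/-- right translation of a square summable function: `(rhoFun g ξ) h = ξ (h g)` -/
noncomputable def rhoFun (g : Γ) (ξ : L2 Γ) : L2 Γ := ⟨fun h => ξ (h * g), memlp_rshift g ξ⟩

theorem norm_rhoFun (g : Γ) (ξ : L2 Γ) : ‖rhoFun g ξ‖ = ‖ξ‖ := by
  have h1 : (0 : ℝ) < (2 : ENNReal).toReal := by norm_num
  rw [lp.norm_eq_tsum_rpow h1, lp.norm_eq_tsum_rpow h1]
  congr 1
  exact (Equiv.mulRight g).tsum_eq (fun h => ‖ξ h‖ ^ (2 : ENNReal).toReal)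

/-- The operator of right translation by `g`. -/
noncomputable def rho (g : Γ) : L2 Γ →L[ℂ] L2 Γ :=
  LinearMap.mkContinuous
    { toFun := rhoFun g
      map_add' := fun _ _ => rfl
      map_smul' := fun _ _ => rfl } 1 (fun ξ => by
        rw [one_mul]
        exact (norm_rhoFun g ξ).le)

theorem rho_apply (g : Γ) (ξ : L2 Γ) (h : Γ) : rho g ξ h = ξ (h * g) := rfl

theorem norm_rho (g : Γ) (ξ : L2 Γ) : ‖rho g ξ‖ = ‖ξ‖ := norm_rhoFun g ξ

theorem rho_mem_centralizer (g : Γ) : rho g ∈ Set.centralizer (leftSet Γ) := by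
  intro L hL
  obtain ⟨k, rfl⟩ := mem_leftSet hL
  ext ξ h
  show lam k (rho g ξ) h = rho g (lam k ξ) h
  rw [lam_apply, rho_apply, rho_apply, lam_apply, mul_assoc]

theorem rho_pt (g h : Γ) : rho g (pt h) = pt (h * g⁻¹) := by
  ext x
  rw [rho_apply]
  by_cases hx : x = h * g⁻¹
  · subst hx
    rw [pt_apply_self, inv_mul_cancel_right, pt_apply_self]
  · rw [pt_apply_ne hx, pt_apply_ne]
    intro h'
    apply hx
    rw [← h', mul_inv_cancel_right]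

theorem LG_pt_eq {T : L2 Γ →L[ℂ] L2 Γ} (hT : T ∈ LG Γ) (h : Γ) :
    T (pt h) = rho h⁻¹ (T (dl Γ)) := by
  have h1 := hT (rho h⁻¹) (rho_mem_centralizer h⁻¹)
  have h2 := congrArg (fun S : L2 Γ →L[ℂ] L2 Γ => S (dl Γ)) h1
  have h3 : rho h⁻¹ (T (dl Γ)) = T (rho h⁻¹ (dl Γ)) := h2
  rw [h3, ← pt_one, rho_pt, one_mul, inv_inv]

/-- an operator of `LG` is the left convolution by its symbol -/
theorem LG_apply_pt {T : L2 Γ →L[ℂ] L2 Γ} (hT : T ∈ LG Γ) (h g : Γ) :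
    T (pt h) g = (T (dl Γ)) (g * h⁻¹) := by
  rw [LG_pt_eq hT, rho_apply]

/-- the symbol of the adjoint -/
theorem LG_star_dl {T : L2 Γ →L[ℂ] L2 Γ} (hT : T ∈ LG Γ) (g : Γ) :
    (star T) (dl Γ) g = (starRingEnd ℂ) ((T (dl Γ)) g⁻¹) := by
  rw [← inner_pt g, ContinuousLinearMap.star_eq_adjoint, ContinuousLinearMap.adjoint_inner_right,
    ← inner_conj_symm, ← pt_one, inner_pt, LG_apply_pt hT, one_mul, pt_one]

/-- the square summability of a vector and of its conjugates -/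
theorem summable_sq (ξ : L2 Γ) : Summable fun x => ‖ξ x‖ ^ 2 := by
  have h1 : (0 : ℝ) < (2 : ENNReal).toReal := by norm_num
  have h2 := (memℓp_gen_iff h1).mp (lp.memℓp ξ)
  simpa using h2

theorem norm_sq_eq_tsum (ξ : L2 Γ) : ‖ξ‖ ^ 2 = ∑' x, ‖ξ x‖ ^ 2 := by
  have h1 : (0 : ℝ) < (2 : ENNReal).toReal := by norm_num
  have h2 := lp.norm_rpow_eq_tsum h1 ξ
  simpa using h2

theorem LG_norm_star_dl {T : L2 Γ →L[ℂ] L2 Γ} (hT : T ∈ LG Γ) :
    ‖(star T) (dl Γ)‖ = ‖T (dl Γ)‖ := by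
  have h1 : ‖(star T) (dl Γ)‖ ^ 2 = ‖T (dl Γ)‖ ^ 2 := by
    rw [norm_sq_eq_tsum, norm_sq_eq_tsum, ← (Equiv.inv Γ).tsum_eq]
    apply tsum_congr
    intro x
    rw [LG_star_dl hT, RCLike.norm_conj, Equiv.inv_apply, inv_inv]
  exact (sq_eq_sq₀ (norm_nonneg _) (norm_nonneg _)).mp h1

/-- the vector state at `dl` is a trace -/
theorem LG_trace {S T : L2 Γ →L[ℂ] L2 Γ} (hS : S ∈ LG Γ) (hT : T ∈ LG Γ) :
    ⟪dl Γ, (S * T) (dl Γ)⟫_ℂ = ⟪dl Γ, (T * S) (dl Γ)⟫_ℂ := by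
  have key : ∀ {S T : L2 Γ →L[ℂ] L2 Γ}, S ∈ LG Γ → T ∈ LG Γ →
      ⟪dl Γ, (S * T) (dl Γ)⟫_ℂ = ∑' x, (S (dl Γ)) x⁻¹ * (T (dl Γ)) x := by
    intro S T hS hT
    have h1 : ⟪dl Γ, (S * T) (dl Γ)⟫_ℂ = ⟪(star S) (dl Γ), T (dl Γ)⟫_ℂ := by
      rw [ContinuousLinearMap.star_eq_adjoint, ContinuousLinearMap.adjoint_inner_left]
      rfl
    rw [h1, lp.inner_eq_tsum]
    apply tsum_congr
    intro x
    rw [LG_star_dl hS, RCLike.inner_apply, RingHomCompTriple.comp_apply, mul_comm]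
    simp
  rw [key hS hT, key hT hS, ← (Equiv.inv Γ).tsum_eq]
  apply tsum_congr
  intro x
  rw [Equiv.inv_apply, inv_inv, mul_comm]

theorem LG_norm_mul_dl_le {S T : L2 Γ →L[ℂ] L2 Γ} (hS : S ∈ LG Γ) (hT : T ∈ LG Γ) :
    ‖(S * T) (dl Γ)‖ ≤ ‖T‖ * ‖S (dl Γ)‖ := by
  rw [← LG_norm_star_dl (LG_mul hS hT), ← LG_norm_star_dl hS, star_mul]
  calc ‖(star T * star S) (dl Γ)‖ = ‖(star T) ((star S) (dl Γ))‖ := rfl
    _ ≤ ‖star T‖ * ‖(star S) (dl Γ)‖ := ContinuousLinearMap.le_opNorm _ _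
    _ = ‖T‖ * ‖(star S) (dl Γ)‖ := by
      rw [ContinuousLinearMap.star_eq_adjoint T]
      congr 1
      exact ContinuousLinearMap.adjoint.norm_map T

theorem LG_norm_mul_lam_dl {T : L2 Γ →L[ℂ] L2 Γ} (hT : T ∈ LG Γ) (g : Γ) :
    ‖(T * lam g) (dl Γ)‖ = ‖T (dl Γ)‖ := by
  have h1 : (T * lam g) (dl Γ) = T (lam g (dl Γ)) := rfl
  rw [h1, ← pt_one, lam_pt, mul_one, LG_pt_eq hT, norm_rho, pt_one]

/-- commutators with group elements are displacements of the symbol under conjugation -/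
theorem LG_comm_norm_sq {T : L2 Γ →L[ℂ] L2 Γ} (hT : T ∈ LG Γ) (g : Γ) :
    ‖(lam g * T - T * lam g) (dl Γ)‖ ^ 2 =
      ∑' x, ‖(T (dl Γ)) (g⁻¹ * x * g) - (T (dl Γ)) x‖ ^ 2 := by
  rw [norm_sq_eq_tsum, ← (Equiv.mulRight g).tsum_eq]
  apply tsum_congr
  intro x
  have h1 : (lam g * T - T * lam g) (dl Γ) = lam g (T (dl Γ)) - T (lam g (dl Γ)) := rfl
  have h2 : lam g (dl Γ) = pt g := by rw [← pt_one, lam_pt, mul_one]
  rw [h1, h2, lp.coeFn_sub, Pi.sub_apply, lam_apply, LG_apply_pt hT, Equiv.coe_mulRight,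
    mul_inv_cancel_right, mul_assoc]

end Pool.Agent.Pa1e8
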