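import Pool.Agent.Lib.Pa1e8df.GroupPar
import Pool.Agent.Lib.Pa1e8df.LGBasic

/-!
# MP_a1e8df_an, Q2: the key lemma in `L(G)` (MODULE KeyLemma)

A contraction `T ∈ L(G)` of 2-norm almost one which almost commutes with the constants
`ac, bc` and such that `T a0 T*` almost commutes with `a0, b0` is 2-norm close to a multiple of
some `λ(t^m)`, `m ≠ 0`.

Proof.  Let `ξ = T δ`, `S = T λ(a0) T*`, `η = S δ`.  By `gap_Yc`, the part `ξ''` of `ξ` off the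
shifts `{tt m}` has norm `≤ 14 ε`; by `gap_Y0`, the part `η''` of `η` on `Y0` has norm
`≤ 14 ε`.  Consider `I = ⟪(T λ(a0)) δ, (S T) δ⟫`.  As `S T = T λ(a0) T* T` and
`‖(T* T - 1) δ‖² = 1 - 2‖Tδ‖² + ‖T*Tδ‖² ≤ 1 - ‖Tδ‖²`, `Re I ≥ 1 - O(ε)`.  Replacing `ξ` by its
restriction `ξ'` to the shifts in both places costs `28 ε`
(`(T λ(a0)) δ = g ↦ ξ (g a0⁻¹)`, `(S T) δ = S ξ`, `‖S‖ ≤ 1`), and then
`I' = ∑_{m,l} conj (ξ (t^m)) ξ (t^l) η (t^m a0 t^{-l})`.  The elements `t^m a0 t^{-l}` are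
pairwise distinct (function part: `fa` at position `m`; shift `m - l`), and they lie in `Y0`
unless `m = l ≠ 0`.  So `|I'| ≤ ‖ξ'‖² ‖η''‖ + ∑_{m ≠ 0} |ξ (t^m)|² |η (t^m a0 t^{-m})|
≤ 14 ε + max_{m ≠ 0} |ξ (t^m)|`.
-/

set_option autoImplicit false

open scoped InnerProductSpace

namespace Pool.Agent.Pa1e8

/-- Cauchy-Schwarz for real series with nonnegative terms -/
theorem cs_tsum {ι : Type*} (f g : ι → ℝ) (hf0 : ∀ i, 0 ≤ f i) (hg0 : ∀ i, 0 ≤ g i)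
    (hf : Summable fun i => f i ^ 2) (hg : Summable fun i => g i ^ 2) :
    Summable (fun i => f i * g i) ∧
      ∑' i, f i * g i ≤ √(∑' i, f i ^ 2) * √(∑' i, g i ^ 2) := by
  have hpq : (2 : ℝ).HolderConjugate 2 := by
    constructor <;> norm_num
  have h := Real.summable_and_inner_le_Lp_mul_Lq_tsum_of_nonneg hpq hf0 hg0
    (by simpa using hf) (by simpa using hg)
  refine ⟨h.1, ?_⟩
  have h2 := h.2
  simp only [Real.rpow_two] at h2
  rw [Real.sqrt_eq_rpow, Real.sqrt_eq_rpow]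
  exact h2

section general

universe u
variable {Γ : Type u} [Group Γ]

theorem memlp_res (A : Set Γ) (ζ : L2 Γ) : Memℓp (fun h : Γ => A.indicator (fun x => ζ x) h) 2 := by
  have h1 : (0 : ℝ) < (2 : ENNReal).toReal := by norm_num
  have h2 := (memℓp_gen_iff h1).mp (lp.memℓp ζ)
  rw [memℓp_gen_iff h1]
  refine h2.of_nonneg_of_le (fun i => by positivity) (fun i => ?_)
  by_cases hi : i ∈ A
  · rw [Set.indicator_of_mem hi]
  · rw [Set.indicator_of_notMem hi, norm_zero, Real.zero_rpow (by norm_num)]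
    positivity

/-- restriction of a square summable function to a set -/
noncomputable def res (A : Set Γ) (ζ : L2 Γ) : L2 Γ :=
  ⟨fun h => A.indicator (fun x => ζ x) h, memlp_res A ζ⟩

theorem res_apply (A : Set Γ) (ζ : L2 Γ) (h : Γ) :
    res A ζ h = A.indicator (fun x => ζ x) h := rfl

theorem res_add_compl (A : Set Γ) (ζ : L2 Γ) : res A ζ + res Aᶜ ζ = ζ := by
  ext h
  show A.indicator (fun x => ζ x) h + Aᶜ.indicator (fun x => ζ x) h = ζ h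
  exact Set.indicator_self_add_compl_apply A (fun x => ζ x) h

theorem norm_res_sq (A : Set Γ) (ζ : L2 Γ) :
    ‖res A ζ‖ ^ 2 = ∑' x, Set.indicator A (fun x => ‖ζ x‖ ^ 2) x := by
  rw [norm_sq_eq_tsum]
  refine tsum_congr fun x => ?_
  rw [res_apply]
  by_cases hx : x ∈ A
  · rw [Set.indicator_of_mem hx, Set.indicator_of_mem hx]
  · rw [Set.indicator_of_notMem hx, Set.indicator_of_notMem hx]
    simp

theorem norm_res_le (A : Set Γ) (ζ : L2 Γ) : ‖res A ζ‖ ≤ ‖ζ‖ := by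
  have h : ‖res A ζ‖ ^ 2 ≤ ‖ζ‖ ^ 2 := by
    rw [norm_res_sq, norm_sq_eq_tsum]
    have h1 : Summable (Set.indicator A (fun x => ‖ζ x‖ ^ 2)) := (summable_sq ζ).indicator A
    refine h1.tsum_le_tsum (fun x => ?_) (summable_sq ζ)
    exact Set.indicator_le_self' (fun _ _ => by positivity) x
  exact (sq_le_sq₀ (norm_nonneg _) (norm_nonneg _)).mp h

theorem memlp_rt (k : Γ) (ζ : L2 Γ) : Memℓp (fun h : Γ => ζ (h * k⁻¹)) 2 := by
  have h1 : (0 : ℝ) < (2 : ENNReal).toReal := by norm_num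
  have h2 := (memℓp_gen_iff h1).mp (lp.memℓp ζ)
  rw [memℓp_gen_iff h1]
  exact (Equiv.mulRight k⁻¹).summable_iff.mpr h2

/-- right translation -/
noncomputable def rt (k : Γ) (ζ : L2 Γ) : L2 Γ := ⟨fun h => ζ (h * k⁻¹), memlp_rt k ζ⟩

theorem rt_apply (k : Γ) (ζ : L2 Γ) (h : Γ) : rt k ζ h = ζ (h * k⁻¹) := rfl

theorem rt_add (k : Γ) (ζ θ : L2 Γ) : rt k (ζ + θ) = rt k ζ + rt k θ := rfl

theorem norm_rt (k : Γ) (ζ : L2 Γ) : ‖rt k ζ‖ = ‖ζ‖ := by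
  have h : ‖rt k ζ‖ ^ 2 = ‖ζ‖ ^ 2 := by
    rw [norm_sq_eq_tsum, norm_sq_eq_tsum]
    exact (Equiv.mulRight k⁻¹).tsum_eq (fun h => ‖ζ h‖ ^ 2)
  exact (sq_eq_sq₀ (norm_nonneg _) (norm_nonneg _)).mp h

theorem norm_dl : ‖dl Γ‖ = 1 := by
  rw [← pt_one]; exact norm_pt 1

/-- the action of an element of `LG` is left convolution by its symbol -/
theorem conv_apply {S : L2 Γ →L[ℂ] L2 Γ} (hS : S ∈ LG Γ) (ζ : L2 Γ) (g : Γ) :
    S ζ g = ∑' h, (S (dl Γ)) (g * h⁻¹) * ζ h := by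
  have h1 : S ζ g = ⟪(pt g : L2 Γ), S ζ⟫_ℂ := (inner_pt g (S ζ)).symm
  have h2 : ⟪(pt g : L2 Γ), S ζ⟫_ℂ = ⟪(star S) (pt g : L2 Γ), ζ⟫_ℂ := by
    rw [ContinuousLinearMap.star_eq_adjoint, ContinuousLinearMap.adjoint_inner_left]
  rw [h1, h2, lp.inner_eq_tsum]
  refine tsum_congr fun h => ?_
  rw [LG_apply_pt (LG_star hS), LG_star_dl hS]
  rw [RCLike.inner_apply, RCLike.conj_conj, mul_inv_rev, inv_inv, mul_comm]

end general

/-- the double series bound -/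
theorem double_bound (x : ℤ → ℝ) (y : ℤ × ℤ → ℝ) (hx0 : ∀ m, 0 ≤ x m) (hy0 : ∀ p, 0 ≤ y p)
    (hx : Summable fun m => x m ^ 2) (hx1 : ∑' m, x m ^ 2 ≤ 1)
    (hy : Summable fun p => y p ^ 2) (δ M : ℝ) (hδ : 0 ≤ δ) (hM : 0 ≤ M)
    (hyD : ∑' p : ℤ × ℤ, (if p.1 = p.2 ∧ p.1 ≠ 0 then 0 else y p) ^ 2 ≤ δ ^ 2)
    (hy1 : ∑' m : ℤ, y (m, m) ^ 2 ≤ 1)
    (hxM : ∀ m, m ≠ 0 → x m ≤ M) :
    Summable (fun p : ℤ × ℤ => x p.1 * x p.2 * y p) ∧
      ∑' p : ℤ × ℤ, x p.1 * x p.2 * y p ≤ δ + M := by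
  have hxx : Summable fun p : ℤ × ℤ => (x p.1 * x p.2) ^ 2 := by
    have := hx.mul_of_nonneg hx (fun m => by positivity) (fun m => by positivity)
    refine this.congr (fun p => ?_)
    ring
  have hxx1 : ∑' p : ℤ × ℤ, (x p.1 * x p.2) ^ 2 ≤ 1 := by
    have h1 : ∑' p : ℤ × ℤ, (x p.1 * x p.2) ^ 2 = (∑' m, x m ^ 2) * ∑' m, x m ^ 2 := by
      rw [hx.tsum_mul_tsum hx (hx.mul_of_nonneg hx (fun m => by positivity)
        (fun m => by positivity))]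
      exact tsum_congr fun p => by ring
    rw [h1]
    have h0 : 0 ≤ ∑' m, x m ^ 2 := tsum_nonneg fun m => by positivity
    nlinarith
  have hxx0 : ∀ p : ℤ × ℤ, 0 ≤ x p.1 * x p.2 := fun p => mul_nonneg (hx0 _) (hx0 _)
  have hs := cs_tsum (fun p : ℤ × ℤ => x p.1 * x p.2) y hxx0 hy0 hxx hy
  refine ⟨hs.1, ?_⟩
  -- the part off the diagonal
  set y0 : ℤ × ℤ → ℝ := fun p => if p.1 = p.2 ∧ p.1 ≠ 0 then 0 else y p with hy0def
  set yd : ℤ × ℤ → ℝ := fun p => if p.1 = p.2 ∧ p.1 ≠ 0 then y p else 0 with hyddef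
  have hsplit : ∀ p, y p = y0 p + yd p := by
    intro p
    by_cases hp : p.1 = p.2 ∧ p.1 ≠ 0
    · simp only [hy0def, hyddef, if_pos hp, zero_add]
    · simp only [hy0def, hyddef, if_neg hp, add_zero]
  have hy00 : ∀ p, 0 ≤ y0 p := by
    intro p
    by_cases hp : p.1 = p.2 ∧ p.1 ≠ 0
    · simp only [hy0def, if_pos hp, le_refl]
    · simp only [hy0def, if_neg hp, hy0 p]
  have hyd0 : ∀ p, 0 ≤ yd p := by
    intro p
    by_cases hp : p.1 = p.2 ∧ p.1 ≠ 0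
    · simp only [hyddef, if_pos hp, hy0 p]
    · simp only [hyddef, if_neg hp, le_refl]
  have hy0s : Summable fun p => y0 p ^ 2 := by
    refine hy.of_nonneg_of_le (fun p => by positivity) (fun p => ?_)
    have := hsplit p
    have h1 := hy00 p
    have h2 := hyd0 p
    nlinarith
  have hyds : Summable fun p => yd p ^ 2 := by
    refine hy.of_nonneg_of_le (fun p => by positivity) (fun p => ?_)
    have := hsplit p
    have h1 := hy00 p
    have h2 := hyd0 p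
    nlinarith
  have hs0 := cs_tsum (fun p : ℤ × ℤ => x p.1 * x p.2) y0 hxx0 hy00 hxx hy0s
  have hsd := cs_tsum (fun p : ℤ × ℤ => x p.1 * x p.2) yd hxx0 hyd0 hxx hyds
  have heq : ∑' p : ℤ × ℤ, x p.1 * x p.2 * y p =
      ∑' p : ℤ × ℤ, x p.1 * x p.2 * y0 p + ∑' p : ℤ × ℤ, x p.1 * x p.2 * yd p := by
    rw [← hs0.1.tsum_add hsd.1]
    exact tsum_congr fun p => by rw [hsplit p]; ring
  rw [heq]
  have hb0 : ∑' p : ℤ × ℤ, x p.1 * x p.2 * y0 p ≤ δ := by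
    refine hs0.2.trans ?_
    have h1 : √(∑' p : ℤ × ℤ, (x p.1 * x p.2) ^ 2) ≤ 1 := by
      exact Real.sqrt_le_one.mpr hxx1
    have h2 : √(∑' p : ℤ × ℤ, y0 p ^ 2) ≤ δ := by
      rw [← Real.sqrt_sq hδ]
      exact Real.sqrt_le_sqrt hyD
    calc _ ≤ 1 * δ := mul_le_mul h1 h2 (Real.sqrt_nonneg _) zero_le_one
      _ = δ := one_mul δ
  have hbd : ∑' p : ℤ × ℤ, x p.1 * x p.2 * yd p ≤ M := by
    have hinj : Function.Injective (fun m : ℤ => (m, m)) := fun a b h => (Prod.mk.inj h).1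
    have h1 : ∑' p : ℤ × ℤ, x p.1 * x p.2 * yd p = ∑' m : ℤ, x m * x m * yd (m, m) := by
      symm
      refine hinj.tsum_eq (f := fun p : ℤ × ℤ => x p.1 * x p.2 * yd p) ?_
      intro p hp
      have hp1 : p.1 = p.2 ∧ p.1 ≠ 0 := by
        by_contra hcon
        apply hp
        simp [hyddef, hcon]
      exact ⟨p.1, Prod.ext rfl hp1.1⟩
    rw [h1]
    have hyy : Summable fun m : ℤ => y (m, m) ^ 2 := hy.comp_injective hinj
    have hc := cs_tsum x (fun m => y (m, m)) hx0 (fun m => hy0 _) hx hyy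
    have h2 : ∑' m : ℤ, x m * y (m, m) ≤ 1 := by
      refine hc.2.trans ?_
      have e1 : √(∑' m : ℤ, x m ^ 2) ≤ 1 := Real.sqrt_le_one.mpr hx1
      have e2 : √(∑' m : ℤ, y (m, m) ^ 2) ≤ 1 := Real.sqrt_le_one.mpr hy1
      calc _ ≤ 1 * 1 := mul_le_mul e1 e2 (Real.sqrt_nonneg _) zero_le_one
        _ = 1 := one_mul 1
    have h3 : ∀ m : ℤ, x m * x m * yd (m, m) ≤ M * (x m * y (m, m)) := by
      intro m
      by_cases hm : m = 0
      · have : yd (m, m) = 0 := by simp [hyddef, hm]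
        rw [this, mul_zero]
        exact mul_nonneg hM (mul_nonneg (hx0 m) (hy0 _))
      · have : yd (m, m) = y (m, m) := by simp [hyddef, hm]
        rw [this]
        have e1 := hxM m hm
        have e2 := hx0 m
        have e3 := hy0 (m, m)
        have e4 : x m * y (m, m) * x m ≤ x m * y (m, m) * M :=
          mul_le_mul_of_nonneg_left e1 (mul_nonneg e2 e3)
        nlinarith
    have h4 : Summable fun m : ℤ => x m * x m * yd (m, m) :=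
      (hsd.1.comp_injective hinj).congr fun m => rfl
    calc ∑' m : ℤ, x m * x m * yd (m, m) ≤ ∑' m : ℤ, M * (x m * y (m, m)) :=
          h4.tsum_le_tsum h3 (hc.1.mul_left M)
      _ = M * ∑' m : ℤ, x m * y (m, m) := tsum_mul_left
      _ ≤ M * 1 := mul_le_mul_of_nonneg_left h2 hM
      _ = M := mul_one M
  linarith

/-- the set of shifts -/
def Sh : Set G := Set.range tt

theorem compl_Sh : Shᶜ = Yc := by
  ext g
  constructor
  · intro hg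
    by_contra hcon
    apply hg
    refine ⟨g.1.m, ?_⟩
    apply Subtype.ext
    apply GG.ext
    · funext i
      have : ¬ (∃ i, g.1.w i ≠ 1) := hcon
      push Not at this
      rw [this i]
      rfl
    · rfl
  · rintro ⟨i, hi⟩ ⟨m, rfl⟩
    exact hi rfl

theorem res_tt (ξ : L2 G) (m : ℤ) : res Sh ξ (tt m) = ξ (tt m) := by
  have h : tt m ∈ Sh := Set.mem_range_self m
  exact Set.indicator_of_mem h _

theorem res_not_mem (ξ : L2 G) {g : G} (hg : g ∉ Sh) : res Sh ξ g = 0 :=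
  Set.indicator_of_notMem hg _

/-- the elements `t^m a0 t^{-l}` -/
def J (p : ℤ × ℤ) : G := tt p.1 * a0 * (tt p.2)⁻¹

theorem J_m (p : ℤ × ℤ) : (J p).1.m = p.1 - p.2 := by
  simp [J, tt, a0]
  ring

theorem J_w (p : ℤ × ℤ) (i : ℤ) : (J p).1.w i = Pi.mulSingle (M := fun _ : ℤ => F) 0 fa (i - p.1) := by
  simp [J, tt, a0]

theorem fa_ne_one : fa ≠ 1 := FreeGroup.of_ne_one true

theorem J_injective : Function.Injective J := by
  intro p q h
  have h1 : (J p).1.w p.1 = (J q).1.w p.1 := by rw [h]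
  rw [J_w, J_w, sub_self, Pi.mulSingle_eq_same] at h1
  have h2 : p.1 = q.1 := by
    by_contra hne
    rw [Pi.mulSingle_eq_of_ne (sub_ne_zero.mpr hne)] at h1
    exact fa_ne_one h1
  have h3 : (J p).1.m = (J q).1.m := by rw [h]
  rw [J_m, J_m] at h3
  exact Prod.ext h2 (by omega)

theorem J_mem (p : ℤ × ℤ) (hp : ¬ (p.1 = p.2 ∧ p.1 ≠ 0)) : J p ∈ Y0 := by
  by_cases h : p.1 = p.2
  · have h0 : p.1 = 0 := by
      by_contra hne
      exact hp ⟨h, hne⟩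
    right
    rw [J_w, h0, sub_zero, Pi.mulSingle_eq_same]
    exact fa_ne_one
  · left
    rw [J_m]
    exact sub_ne_zero.mpr h

/-- the matrix coefficient restricted to the shifts is small unless `ξ` is concentrated -/
theorem main_bound (S : L2 G →L[ℂ] L2 G) (hS : S ∈ LG G) (ξ : L2 G) (hξ : ‖ξ‖ ≤ 1)
    (hη : ‖S (dl G)‖ ≤ 1) (δ M : ℝ) (hδ : 0 ≤ δ) (hM : 0 ≤ M)
    (h0 : ∑' x, Set.indicator Y0 (fun x => ‖(S (dl G)) x‖ ^ 2) x ≤ δ ^ 2)
    (hxM : ∀ m : ℤ, m ≠ 0 → ‖ξ (tt m)‖ ≤ M) :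
    ‖⟪rt a0 (res Sh ξ), S (res Sh ξ)⟫_ℂ‖ ≤ δ + M := by
  set η := S (dl G) with hηdef
  set x : ℤ → ℝ := fun m => ‖ξ (tt m)‖ with hxdef
  set y : ℤ × ℤ → ℝ := fun p => ‖η (J p)‖ with hydef
  have hηs : Summable fun g => ‖η g‖ ^ 2 := summable_sq η
  have hξs : Summable fun g => ‖ξ g‖ ^ 2 := summable_sq ξ
  have hx : Summable fun m => x m ^ 2 := hξs.comp_injective tt_injective
  have hx1 : ∑' m, x m ^ 2 ≤ 1 := by
    have h1 : ∑' m, x m ^ 2 ≤ ∑' g, ‖ξ g‖ ^ 2 :=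
      tsum_comp_le_tsum_of_inj hξs (fun g => by positivity) tt_injective
    rw [← norm_sq_eq_tsum] at h1
    have := norm_nonneg ξ
    nlinarith
  have hy : Summable fun p => y p ^ 2 := hηs.comp_injective J_injective
  have hη1 : ∑' g, ‖η g‖ ^ 2 ≤ 1 := by
    rw [← norm_sq_eq_tsum]
    have := norm_nonneg η
    nlinarith
  have hyD : ∑' p : ℤ × ℤ, (if p.1 = p.2 ∧ p.1 ≠ 0 then 0 else y p) ^ 2 ≤ δ ^ 2 := by
    have hi : Summable (Set.indicator Y0 (fun x => ‖η x‖ ^ 2)) := hηs.indicator Y0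
    have hi0 : ∀ a, 0 ≤ Set.indicator Y0 (fun x => ‖η x‖ ^ 2) a :=
      fun a => Set.indicator_nonneg (fun _ _ => by positivity) a
    have h2 : ∑' p : ℤ × ℤ, (Set.indicator Y0 (fun x => ‖η x‖ ^ 2)) (J p) ≤
        ∑' g, Set.indicator Y0 (fun x => ‖η x‖ ^ 2) g :=
      tsum_comp_le_tsum_of_inj hi hi0 J_injective
    have hle : ∀ p : ℤ × ℤ, (if p.1 = p.2 ∧ p.1 ≠ 0 then 0 else y p) ^ 2 ≤
        (Set.indicator Y0 (fun x => ‖η x‖ ^ 2)) (J p) := by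
      intro p
      by_cases hp : p.1 = p.2 ∧ p.1 ≠ 0
      · rw [if_pos hp]
        have := hi0 (J p)
        simpa using this
      · rw [if_neg hp, Set.indicator_of_mem (J_mem p hp)]
    have hc : Summable fun p : ℤ × ℤ => (Set.indicator Y0 (fun x => ‖η x‖ ^ 2)) (J p) :=
      hi.comp_injective J_injective
    have hl : Summable fun p : ℤ × ℤ => (if p.1 = p.2 ∧ p.1 ≠ 0 then 0 else y p) ^ 2 :=
      hc.of_nonneg_of_le (fun p => by positivity) hle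
    exact (hl.tsum_le_tsum hle hc).trans (h2.trans h0)
  have hy1 : ∑' m : ℤ, y (m, m) ^ 2 ≤ 1 := by
    have hinj : Function.Injective (fun m : ℤ => J (m, m)) := by
      intro a b h
      exact (Prod.mk.inj (J_injective h)).1
    exact (tsum_comp_le_tsum_of_inj hηs (fun g => by positivity) hinj).trans hη1
  obtain ⟨hs, hb⟩ := double_bound x y (fun m => norm_nonneg _) (fun p => norm_nonneg _) hx hx1 hy
    δ M hδ hM hyD hy1 hxM
  -- the values of `S ξ'`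
  have hval : ∀ m : ℤ, (S (res Sh ξ)) (tt m * a0) = ∑' l : ℤ, η (J (m, l)) * ξ (tt l) := by
    intro m
    rw [conv_apply hS]
    have hsup : Function.support (fun h => (S (dl G)) (tt m * a0 * h⁻¹) * (res Sh ξ) h) ⊆
        Set.range tt := by
      intro h hh
      by_contra hcon
      apply hh
      have : (res Sh ξ) h = 0 := res_not_mem ξ hcon
      show (S (dl G)) (tt m * a0 * h⁻¹) * (res Sh ξ) h = 0
      rw [this, mul_zero]
    rw [← tt_injective.tsum_eq hsup]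
    refine tsum_congr fun l => ?_
    rw [res_tt]
    rfl
  have hin : ⟪rt a0 (res Sh ξ), S (res Sh ξ)⟫_ℂ =
      ∑' m : ℤ, ⟪ξ (tt m), (S (res Sh ξ)) (tt m * a0)⟫_ℂ := by
    rw [lp.inner_eq_tsum]
    have hinj : Function.Injective (fun m : ℤ => tt m * a0) := by
      intro a b h
      exact tt_injective (mul_right_cancel h)
    have hsup : Function.support (fun g => ⟪(rt a0 (res Sh ξ)) g, (S (res Sh ξ)) g⟫_ℂ) ⊆
        Set.range (fun m : ℤ => tt m * a0) := by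
      intro g hg
      by_contra hcon
      apply hg
      have : (rt a0 (res Sh ξ)) g = 0 := by
        rw [rt_apply]
        refine res_not_mem ξ ?_
        rintro ⟨m, hm⟩
        apply hcon
        refine ⟨m, ?_⟩
        show tt m * a0 = g
        rw [hm, inv_mul_cancel_right]
      show ⟪(rt a0 (res Sh ξ)) g, (S (res Sh ξ)) g⟫_ℂ = 0
      rw [this, inner_zero_left]
    rw [← hinj.tsum_eq hsup]
    refine tsum_congr fun m => ?_
    rw [rt_apply, mul_inv_cancel_right, res_tt]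
  rw [hin]
  -- termwise estimate
  have hterm : ∀ m : ℤ, ‖⟪ξ (tt m), (S (res Sh ξ)) (tt m * a0)⟫_ℂ‖ ≤
      ∑' l : ℤ, x m * x l * y (m, l) := by
    intro m
    refine (norm_inner_le_norm _ _).trans ?_
    rw [hval m]
    have hsm : Summable fun l : ℤ => x l * y (m, l) := by
      have hinj : Function.Injective (fun l : ℤ => (m, l)) := fun a b h => (Prod.mk.inj h).2
      exact (cs_tsum x (fun l => y (m, l)) (fun _ => norm_nonneg _) (fun _ => norm_nonneg _) hx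
        (hy.comp_injective hinj)).1
    have hsn : Summable fun l : ℤ => ‖η (J (m, l)) * ξ (tt l)‖ := by
      refine hsm.congr fun l => ?_
      rw [norm_mul, mul_comm]
    calc ‖ξ (tt m)‖ * ‖∑' l : ℤ, η (J (m, l)) * ξ (tt l)‖
        ≤ ‖ξ (tt m)‖ * ∑' l : ℤ, ‖η (J (m, l)) * ξ (tt l)‖ :=
          mul_le_mul_of_nonneg_left (norm_tsum_le_tsum_norm hsn) (norm_nonneg _)
      _ = ∑' l : ℤ, x m * x l * y (m, l) := by
          rw [← tsum_mul_left]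
          refine tsum_congr fun l => ?_
          rw [norm_mul]
          ring
  have hfib : Summable fun m : ℤ => ∑' l : ℤ, x m * x l * y (m, l) := by
    have := hs.prod
    exact this
  have hnn : Summable fun m : ℤ => ‖⟪ξ (tt m), (S (res Sh ξ)) (tt m * a0)⟫_ℂ‖ :=
    hfib.of_nonneg_of_le (fun _ => norm_nonneg _) hterm
  calc ‖∑' m : ℤ, ⟪ξ (tt m), (S (res Sh ξ)) (tt m * a0)⟫_ℂ‖
      ≤ ∑' m : ℤ, ‖⟪ξ (tt m), (S (res Sh ξ)) (tt m * a0)⟫_ℂ‖ := norm_tsum_le_tsum_norm hnn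
    _ ≤ ∑' m : ℤ, ∑' l : ℤ, x m * x l * y (m, l) := hnn.tsum_le_tsum hterm hfib
    _ = ∑' p : ℤ × ℤ, x p.1 * x p.2 * y p := (hs.tsum_prod).symm
    _ ≤ δ + M := hb

/-- a square summable function attains its maximum on the nonzero integers -/
theorem exists_max (x : ℤ → ℝ) (hx0 : ∀ m, 0 ≤ x m) (hx : Summable fun m => x m ^ 2) :
    ∃ m : ℤ, m ≠ 0 ∧ ∀ l : ℤ, l ≠ 0 → x l ≤ x m := by
  by_cases h : ∀ l : ℤ, l ≠ 0 → x l ≤ x 1
  · exact ⟨1, one_ne_zero, h⟩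
  · push Not at h
    obtain ⟨l, hl, hlt⟩ := h
    have hpos : 0 < x l := lt_of_le_of_lt (hx0 1) hlt
    have hfin : {m : ℤ | x l ≤ x m}.Finite := by
      have h1 := hx.tendsto_cofinite_zero
      have h2 : ∀ᶠ m in Filter.cofinite, x m ^ 2 < x l ^ 2 :=
        h1.eventually (gt_mem_nhds (by positivity))
      rw [Filter.eventually_cofinite] at h2
      refine h2.subset ?_
      intro m hm
      have hm' : x l ≤ x m := hm
      show ¬ (x m ^ 2 < x l ^ 2)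
      rw [not_lt]
      exact pow_le_pow_left₀ hpos.le hm' 2
    have hfin2 : ({m : ℤ | x l ≤ x m} \ {0}).Finite := hfin.subset Set.sdiff_subset
    have hne : (hfin2.toFinset).Nonempty := by
      refine ⟨l, ?_⟩
      rw [Set.Finite.mem_toFinset]
      exact ⟨le_refl (x l), hl⟩
    obtain ⟨m, hm, hmax⟩ := Finset.exists_max_image hfin2.toFinset x hne
    rw [Set.Finite.mem_toFinset] at hm
    refine ⟨m, hm.2, ?_⟩
    intro k hk
    by_cases hkl : x l ≤ x k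
    · apply hmax k
      rw [Set.Finite.mem_toFinset]
      exact ⟨hkl, hk⟩
    · push Not at hkl
      exact hkl.le.trans hm.1

theorem norm_lam_op {Γ : Type*} [Group Γ] (g : Γ) : ‖(lam g : L2 Γ →L[ℂ] L2 Γ)‖ ≤ 1 := by
  refine ContinuousLinearMap.opNorm_le_bound _ zero_le_one fun ξ => ?_
  rw [norm_lam, one_mul]

theorem gap_T_Yc (T : L2 G →L[ℂ] L2 G) (hT : T ∈ LG G) (ε : ℝ) (hε : 0 ≤ ε)
    (hac : ‖(lam ac * T - T * lam ac) (dl G)‖ ≤ ε)
    (hbc : ‖(lam bc * T - T * lam bc) (dl G)‖ ≤ ε) :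
    ∑' x, Set.indicator Yc (fun x => ‖(T (dl G)) x‖ ^ 2) x ≤ (14 * ε) ^ 2 := by
  refine gap_Yc (fun x => (T (dl G)) x) (summable_sq _) ε hε ?_ ?_
  · rw [← LG_comm_norm_sq hT]
    exact pow_le_pow_left₀ (norm_nonneg _) hac 2
  · rw [← LG_comm_norm_sq hT]
    exact pow_le_pow_left₀ (norm_nonneg _) hbc 2

theorem gap_T_Y0 (T : L2 G →L[ℂ] L2 G) (hT : T ∈ LG G) (ε : ℝ) (hε : 0 ≤ ε)
    (hac : ‖(lam a0 * T - T * lam a0) (dl G)‖ ≤ ε)
    (hbc : ‖(lam b0 * T - T * lam b0) (dl G)‖ ≤ ε) :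
    ∑' x, Set.indicator Y0 (fun x => ‖(T (dl G)) x‖ ^ 2) x ≤ (14 * ε) ^ 2 := by
  refine gap_Y0 (fun x => (T (dl G)) x) (summable_sq _) ε hε ?_ ?_
  · rw [← LG_comm_norm_sq hT]
    exact pow_le_pow_left₀ (norm_nonneg _) hac 2
  · rw [← LG_comm_norm_sq hT]
    exact pow_le_pow_left₀ (norm_nonneg _) hbc 2

theorem key_lemma (T : L2 G →L[ℂ] L2 G) (hT : T ∈ LG G) (hn : ‖T‖ ≤ 1) (ε : ℝ) (hε : 0 ≤ ε)
    (h1 : 1 - ε ^ 2 ≤ ‖T (dl G)‖ ^ 2)
    (hac : ‖(lam ac * T - T * lam ac) (dl G)‖ ≤ ε)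
    (hbc : ‖(lam bc * T - T * lam bc) (dl G)‖ ≤ ε)
    (ha0 : ‖(lam a0 * (T * lam a0 * star T) - (T * lam a0 * star T) * lam a0) (dl G)‖ ≤ ε)
    (hb0 : ‖(lam b0 * (T * lam a0 * star T) - (T * lam a0 * star T) * lam b0) (dl G)‖ ≤ ε) :
    ∃ m : ℤ, m ≠ 0 ∧ 1 - 60 * ε ≤ ‖(T (dl G)) (tt m)‖ := by
  set ξ := T (dl G) with hξdef
  set S := T * lam a0 * star T with hSdef
  have hS : S ∈ LG G := LG_mul (LG_mul hT (lam_mem a0)) (LG_star hT)
  have hnT' : ‖star T‖ ≤ 1 := by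
    rw [ContinuousLinearMap.star_eq_adjoint]
    exact (LinearIsometryEquiv.norm_map ContinuousLinearMap.adjoint T).le.trans hn
  have hnS : ‖S‖ ≤ 1 := by
    calc ‖S‖ ≤ ‖T * lam a0‖ * ‖star T‖ := norm_mul_le _ _
      _ ≤ (‖T‖ * ‖(lam a0 : L2 G →L[ℂ] L2 G)‖) * ‖star T‖ :=
          mul_le_mul_of_nonneg_right (norm_mul_le _ _) (norm_nonneg _)
      _ ≤ (1 * 1) * 1 := by
          have := norm_lam_op a0
          gcongr
      _ = 1 := by norm_num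
  have hle : ∀ (A : L2 G →L[ℂ] L2 G), ‖A‖ ≤ 1 → ∀ v : L2 G, ‖A v‖ ≤ ‖v‖ := by
    intro A hA v
    calc ‖A v‖ ≤ ‖A‖ * ‖v‖ := A.le_opNorm v
      _ ≤ 1 * ‖v‖ := mul_le_mul_of_nonneg_right hA (norm_nonneg _)
      _ = ‖v‖ := one_mul _
  have hξ1 : ‖ξ‖ ≤ 1 := by
    have := hle T hn (dl G)
    rwa [norm_dl] at this
  have hη1 : ‖S (dl G)‖ ≤ 1 := by
    have := hle S hnS (dl G)
    rwa [norm_dl] at this
  have hYc := gap_T_Yc T hT ε hε hac hbc
  have hY0 := gap_T_Y0 S hS ε hε ha0 hb0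
  have hx : Summable fun m : ℤ => ‖ξ (tt m)‖ ^ 2 := (summable_sq ξ).comp_injective tt_injective
  obtain ⟨m, hm, hmax⟩ := exists_max (fun m => ‖ξ (tt m)‖) (fun _ => norm_nonneg _) hx
  refine ⟨m, hm, ?_⟩
  set M := ‖ξ (tt m)‖ with hMdef
  have hM0 : 0 ≤ M := norm_nonneg _
  have hmain := main_bound S hS ξ hξ1 hη1 (14 * ε) M (by positivity) hM0 hY0 hmax
  -- the vectors
  set X := (T * lam a0) (dl G) with hXdef
  have hX : X = rt a0 ξ := by
    ext g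
    rw [rt_apply]
    have e1 : (T * lam a0) (dl G) = T (pt a0) := by
      show T (lam a0 (dl G)) = T (pt a0)
      rw [← pt_one, lam_pt, mul_one]
    rw [hXdef, e1]
    exact LG_apply_pt hT a0 g
  have hXn : ‖X‖ = ‖ξ‖ := LG_norm_mul_lam_dl hT a0
  have hSX : ‖S ξ - X‖ ≤ ε := by
    have e1 : S ξ - X = T (lam a0 ((star T) ξ - dl G)) := by
      rw [map_sub, map_sub]
      rfl
    have e2 : ‖T (lam a0 ((star T) ξ - dl G))‖ ≤ ‖(star T) ξ - dl G‖ := by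
      refine (hle T hn _).trans ?_
      rw [norm_lam]
    have e3 : ‖(star T) ξ - dl G‖ ^ 2 ≤ ε ^ 2 := by
      rw [@norm_sub_sq ℂ]
      have e4 : ⟪(star T) ξ, dl G⟫_ℂ = ⟪ξ, ξ⟫_ℂ := by
        rw [ContinuousLinearMap.star_eq_adjoint, ContinuousLinearMap.adjoint_inner_left]
      rw [e4, inner_self_eq_norm_sq, norm_dl]
      have e5 : ‖(star T) ξ‖ ≤ ‖ξ‖ := hle _ hnT' ξ
      have e6 : ‖(star T) ξ‖ ^ 2 ≤ ‖ξ‖ ^ 2 := pow_le_pow_left₀ (norm_nonneg _) e5 2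
      linarith
    rw [e1]
    refine e2.trans ?_
    exact (sq_le_sq₀ (norm_nonneg _) hε).mp e3
  have hRe : 1 - ε ^ 2 - ε ≤ RCLike.re ⟪X, S ξ⟫_ℂ := by
    have e1 : ⟪X, S ξ⟫_ℂ = ⟪X, X⟫_ℂ + ⟪X, S ξ - X⟫_ℂ := by
      rw [← inner_add_right, add_sub_cancel]
    have e2 : |RCLike.re ⟪X, S ξ - X⟫_ℂ| ≤ ‖X‖ * ‖S ξ - X‖ :=
      (RCLike.abs_re_le_norm _).trans (norm_inner_le_norm _ _)
    have e3 : ‖X‖ * ‖S ξ - X‖ ≤ 1 * ε := mul_le_mul (hXn ▸ hξ1) hSX (norm_nonneg _) zero_le_one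
    have e4 : RCLike.re ⟪X, X⟫_ℂ = ‖ξ‖ ^ 2 := by rw [inner_self_eq_norm_sq, hXn]
    rw [e1, map_add, e4]
    have e5 := neg_le_of_abs_le (e2.trans e3)
    linarith
  -- decomposition
  set ξ' := res Sh ξ with hξ'def
  set ξ'' := res Shᶜ ξ with hξ''def
  have hdec : ξ = ξ' + ξ'' := (res_add_compl Sh ξ).symm
  have hξ'1 : ‖ξ'‖ ≤ 1 := (norm_res_le Sh ξ).trans hξ1
  have hξ''1 : ‖ξ''‖ ≤ 14 * ε := by
    have e1 : ‖ξ''‖ ^ 2 ≤ (14 * ε) ^ 2 := by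
      rw [hξ''def, norm_res_sq, compl_Sh]
      exact hYc
    exact (sq_le_sq₀ (norm_nonneg _) (by positivity)).mp e1
  have hI : ⟪X, S ξ⟫_ℂ = ⟪rt a0 ξ', S ξ'⟫_ℂ + ⟪rt a0 ξ'', S ξ'⟫_ℂ + ⟪rt a0 ξ, S ξ''⟫_ℂ := by
    rw [hX]
    have e1 : S ξ = S ξ' + S ξ'' := by rw [← map_add, ← hdec]
    have e2 : rt a0 ξ = rt a0 ξ' + rt a0 ξ'' := by rw [← rt_add, ← hdec]
    calc ⟪rt a0 ξ, S ξ⟫_ℂ = ⟪rt a0 ξ, S ξ'⟫_ℂ + ⟪rt a0 ξ, S ξ''⟫_ℂ := by rw [e1, inner_add_right]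
      _ = _ := by
        congr 1
        rw [e2, inner_add_left]
  have hb1 : ‖⟪rt a0 ξ'', S ξ'⟫_ℂ‖ ≤ 14 * ε := by
    refine (norm_inner_le_norm _ _).trans ?_
    rw [norm_rt]
    have e1 : ‖S ξ'‖ ≤ 1 := (hle S hnS ξ').trans hξ'1
    calc ‖ξ''‖ * ‖S ξ'‖ ≤ (14 * ε) * 1 := mul_le_mul hξ''1 e1 (norm_nonneg _) (by positivity)
      _ = 14 * ε := mul_one _
  have hb2 : ‖⟪rt a0 ξ, S ξ''⟫_ℂ‖ ≤ 14 * ε := by
    refine (norm_inner_le_norm _ _).trans ?_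
    rw [norm_rt]
    have e1 : ‖S ξ''‖ ≤ 14 * ε := (hle S hnS ξ'').trans hξ''1
    calc ‖ξ‖ * ‖S ξ''‖ ≤ 1 * (14 * ε) := mul_le_mul hξ1 e1 (norm_nonneg _) zero_le_one
      _ = 14 * ε := one_mul _
  have hfin : 1 - ε ^ 2 - ε ≤ (14 * ε + M) + 14 * ε + 14 * ε := by
    refine hRe.trans ?_
    refine (RCLike.re_le_norm _).trans ?_
    rw [hI]
    refine (norm_add_le _ _).trans ?_
    exact add_le_add ((norm_add_le _ _).trans (add_le_add hmain hb1)) hb2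
  by_cases hbig : ε ≤ 1
  · nlinarith
  · push Not at hbig
    linarith

/-- consequence: `T δ` is close to a unimodular multiple of `δ_{t^m}` -/
theorem key_lemma' (T : L2 G →L[ℂ] L2 G) (hT : T ∈ LG G) (hn : ‖T‖ ≤ 1) (ε : ℝ) (hε : 0 ≤ ε)
    (hε1 : ε ≤ 1 / 100)
    (h1 : 1 - ε ^ 2 ≤ ‖T (dl G)‖ ^ 2)
    (hac : ‖(lam ac * T - T * lam ac) (dl G)‖ ≤ ε)
    (hbc : ‖(lam bc * T - T * lam bc) (dl G)‖ ≤ ε)
    (ha0 : ‖(lam a0 * (T * lam a0 * star T) - (T * lam a0 * star T) * lam a0) (dl G)‖ ≤ ε)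
    (hb0 : ‖(lam b0 * (T * lam a0 * star T) - (T * lam a0 * star T) * lam b0) (dl G)‖ ≤ ε) :
    ∃ m : ℤ, m ≠ 0 ∧ ∃ c : ℂ, ‖c‖ = 1 ∧ ‖T (dl G) - c • pt (tt m)‖ ^ 2 ≤ 120 * ε := by
  obtain ⟨m, hm, hbig⟩ := key_lemma T hT hn ε hε h1 hac hbc ha0 hb0
  refine ⟨m, hm, ?_⟩
  set ξ := T (dl G) with hξdef
  set z := ξ (tt m) with hzdef
  have hz0 : 0 < ‖z‖ := by linarith
  have hξ1 : ‖ξ‖ ≤ 1 := by
    calc ‖T (dl G)‖ ≤ ‖T‖ * ‖dl G‖ := T.le_opNorm _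
      _ ≤ 1 * 1 := mul_le_mul hn (norm_dl (Γ := G)).le (norm_nonneg _) zero_le_one
      _ = 1 := one_mul 1
  have hzn : ((‖z‖ : ℝ) : ℂ) ≠ 0 := by exact_mod_cast hz0.ne'
  refine ⟨z / (‖z‖ : ℂ), ?_, ?_⟩
  · rw [norm_div, Complex.norm_real, norm_norm, div_self hz0.ne']
  · set c : ℂ := z / (‖z‖ : ℂ) with hcdef
    have hc : ‖c‖ = 1 := by
      rw [hcdef, norm_div, Complex.norm_real, norm_norm, div_self hz0.ne']
    rw [@norm_sub_sq ℂ, norm_smul, hc, norm_pt]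
    have e1 : ⟪ξ, c • (pt (tt m) : L2 G)⟫_ℂ = c * (starRingEnd ℂ) z := by
      rw [inner_smul_right, ← inner_conj_symm, inner_pt]
    have e2 : c * (starRingEnd ℂ) z = (‖z‖ : ℂ) := by
      rw [hcdef, div_mul_eq_mul_div, Complex.mul_conj, Complex.normSq_eq_norm_sq]
      push_cast
      field_simp
    rw [e1, e2]
    have e3 : RCLike.re ((‖z‖ : ℝ) : ℂ) = ‖z‖ := by
      exact Complex.ofReal_re _
    rw [e3]
    have := norm_nonneg ξ
    nlinarith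

/-- `L(G)` does not have property Gamma (from the gaps on `Yc` and `Y0`) -/
theorem non_gamma (T : L2 G →L[ℂ] L2 G) (hT : T ∈ LG G) (h0 : ⟪dl G, T (dl G)⟫_ℂ = 0)
    (h1 : ‖T (dl G)‖ = 1) :
    1 / 20 < ‖(lam ac * T - T * lam ac) (dl G)‖ ∨ 1 / 20 < ‖(lam bc * T - T * lam bc) (dl G)‖ ∨
    1 / 20 < ‖(lam a0 * T - T * lam a0) (dl G)‖ ∨ 1 / 20 < ‖(lam b0 * T - T * lam b0) (dl G)‖ := by
  by_contra hcon
  push Not at hcon
  obtain ⟨hac, hbc, ha0, hb0⟩ := hcon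
  have hYc := gap_T_Yc T hT (1 / 20) (by norm_num) hac hbc
  have hY0 := gap_T_Y0 T hT (1 / 20) (by norm_num) ha0 hb0
  set ξ := T (dl G) with hξdef
  have hz : ξ 1 = 0 := by
    rw [← inner_pt, pt_one]
    exact h0
  have hs := summable_sq ξ
  have hc : Summable (Set.indicator Yc (fun x => ‖ξ x‖ ^ 2)) := hs.indicator Yc
  have h0' : Summable (Set.indicator Y0 (fun x => ‖ξ x‖ ^ 2)) := hs.indicator Y0
  have hle : ∀ g, ‖ξ g‖ ^ 2 ≤
      Set.indicator Yc (fun x => ‖ξ x‖ ^ 2) g + Set.indicator Y0 (fun x => ‖ξ x‖ ^ 2) g := by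
    intro g
    have n1 : 0 ≤ Set.indicator Yc (fun x => ‖ξ x‖ ^ 2) g :=
      Set.indicator_nonneg (fun _ _ => by positivity) g
    have n2 : 0 ≤ Set.indicator Y0 (fun x => ‖ξ x‖ ^ 2) g :=
      Set.indicator_nonneg (fun _ _ => by positivity) g
    by_cases hg : g = 1
    · rw [hg, hz, norm_zero]
      rw [hg] at n1 n2
      have : (0 : ℝ) ^ 2 = 0 := by norm_num
      rw [this]
      exact add_nonneg n1 n2
    · rcases one_compl g hg with h | h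
      · have e : Set.indicator Yc (fun x => ‖ξ x‖ ^ 2) g = ‖ξ g‖ ^ 2 :=
          Set.indicator_of_mem h _
        linarith
      · have e : Set.indicator Y0 (fun x => ‖ξ x‖ ^ 2) g = ‖ξ g‖ ^ 2 :=
          Set.indicator_of_mem h _
        linarith
  have hsum := hs.tsum_le_tsum hle (hc.add h0')
  rw [hc.tsum_add h0', ← norm_sq_eq_tsum, h1] at hsum
  norm_num at hYc hY0 hsum
  linarith

end Pool.Agent.Pa1e8
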