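import Mathlib

/-!
# MP_a1e8df_an, Q2: the left group von Neumann algebra
-/

set_option autoImplicit false

namespace Pool.Agent.Pa1e8

universe u

/-- the Hilbert space of square summable functions on `Γ` -/
abbrev L2 (Γ : Type u) : Type u := lp (fun _ : Γ => ℂ) 2

variable {Γ : Type u} [Group Γ]

theorem memlp_shift (g : Γ) (ξ : L2 Γ) : Memℓp (fun h : Γ => ξ (g⁻¹ * h)) 2 := by
  have h1 : (0 : ℝ) < (2 : ENNReal).toReal := by norm_num
  have h2 := (memℓp_gen_iff h1).mp (lp.memℓp ξ)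
  rw [memℓp_gen_iff h1]
  exact (Equiv.mulLeft g⁻¹).summable_iff.mpr h2

/-- left translation of a square summable function: `(lamFun g ξ) h = ξ (g⁻¹ h)` -/
noncomputable def lamFun (g : Γ) (ξ : L2 Γ) : L2 Γ := ⟨fun h => ξ (g⁻¹ * h), memlp_shift g ξ⟩

theorem lamFun_apply (g : Γ) (ξ : L2 Γ) (h : Γ) : lamFun g ξ h = ξ (g⁻¹ * h) := rfl

theorem norm_lamFun (g : Γ) (ξ : L2 Γ) : ‖lamFun g ξ‖ = ‖ξ‖ := by
  have h1 : (0 : ℝ) < (2 : ENNReal).toReal := by norm_num
  rw [lp.norm_eq_tsum_rpow h1, lp.norm_eq_tsum_rpow h1]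
  congr 1
  exact (Equiv.mulLeft g⁻¹).tsum_eq (fun h => ‖ξ h‖ ^ (2 : ENNReal).toReal)

/-- The operator of left translation by `g`. -/
noncomputable def lam (g : Γ) : L2 Γ →L[ℂ] L2 Γ :=
  LinearMap.mkContinuous
    { toFun := lamFun g
      map_add' := fun _ _ => rfl
      map_smul' := fun _ _ => rfl } 1 (fun ξ => by
        rw [one_mul]
        exact (norm_lamFun g ξ).le)

theorem lam_apply (g : Γ) (ξ : L2 Γ) (h : Γ) : lam g ξ h = ξ (g⁻¹ * h) := rfl

theorem norm_lam (g : Γ) (ξ : L2 Γ) : ‖lam g ξ‖ = ‖ξ‖ := norm_lamFun g ξ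

theorem lam_one : lam (1 : Γ) = 1 := by
  ext ξ h
  rw [lam_apply, inv_one, one_mul]
  rfl

theorem lam_mul (g k : Γ) : lam (g * k) = lam g * lam k := by
  ext ξ h
  rw [lam_apply]
  show _ = lam g (lam k ξ) h
  rw [lam_apply, lam_apply, mul_inv_rev, mul_assoc]

/-- The set of left translation operators. -/
def leftSet (Γ : Type u) [Group Γ] : Set (L2 Γ →L[ℂ] L2 Γ) :=
  {T | ∃ g : Γ, ∀ (f : L2 Γ) (h : Γ), T f h = f (g⁻¹ * h)}

/-- The left group von Neumann algebra: the bicommutant of the left translations. -/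
def LG (Γ : Type u) [Group Γ] : Set (L2 Γ →L[ℂ] L2 Γ) :=
  Set.centralizer (Set.centralizer (leftSet Γ))

open Classical in
/-- The canonical trace vector. -/
noncomputable def dl (Γ : Type u) [Group Γ] : L2 Γ := lp.single 2 (1 : Γ) (1 : ℂ)

open Classical in
/-- The point mass at `h`. -/
noncomputable def pt (h : Γ) : L2 Γ := lp.single 2 h (1 : ℂ)

end Pool.Agent.Pa1e8
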