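import Mathlib

/-!
# MP_a1e8df_an, Q2: rearrangement with bounded partial sums (MODULE Rearr)

Greedy: if the current partial sum is `≤ 0` take a remaining nonnegative term, otherwise a
remaining nonpositive one.
-/

set_option autoImplicit false

namespace Pool.Agent.Pa1e8

theorem rearr_step (n : ℕ) (c : Fin n → ℝ) (C : ℝ) (hC : ∀ i, |c i| ≤ C) (h0 : ∑ i, c i = 0)
    (hC0 : 0 ≤ C) (hn : 0 < n) (k : ℕ) (hk : k ≤ n) :
    ∃ q : ℕ → Fin n, Set.InjOn q (Set.Iio k) ∧ ∀ m ≤ k, |∑ i ∈ Finset.range m, c (q i)| ≤ C := by
  classical
  induction k with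
  | zero =>
    exact ⟨fun _ => ⟨0, hn⟩, by simp, by
      intro m hm
      obtain rfl : m = 0 := by omega
      simpa using hC0⟩
  | succ k ih =>
    obtain ⟨q, hq, hb⟩ := ih (by omega)
    set T := ∑ i ∈ Finset.range k, c (q i) with hT
    set R : Finset (Fin n) := Finset.univ \ (Finset.range k).image q with hR
    have hinj : Set.InjOn q (Finset.range k : Set ℕ) := by
      intro a ha b hb' h
      exact hq (by simpa using ha) (by simpa using hb') h
    have hcard : ((Finset.range k).image q).card = k := by
      rw [Finset.card_image_of_injOn hinj, Finset.card_range]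
    have hRcard : 0 < R.card := by
      rw [hR, Finset.card_sdiff_of_subset (Finset.subset_univ _), hcard, Finset.card_univ,
        Fintype.card_fin]
      omega
    have hRne : R.Nonempty := Finset.card_pos.1 hRcard
    have hsum : ∑ j ∈ R, c j = - T := by
      have h := Finset.sum_sdiff (f := c) (Finset.subset_univ ((Finset.range k).image q))
      rw [h0, Finset.sum_image hinj] at h
      rw [hR]
      linarith
    have hTb : |T| ≤ C := hb k le_rfl
    obtain ⟨j, hjR, hj⟩ : ∃ j ∈ R, |T + c j| ≤ C := by
      by_cases hT0 : T ≤ 0
      · obtain ⟨j, hj, hj0⟩ : ∃ j ∈ R, 0 ≤ c j := by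
          by_contra hcon
          push Not at hcon
          have := Finset.sum_lt_sum_of_nonempty hRne (f := c) (g := fun _ => (0 : ℝ)) hcon
          simp at this
          linarith
        refine ⟨j, hj, abs_le.2 ⟨?_, ?_⟩⟩
        · have := (abs_le.1 hTb).1
          linarith
        · have := (abs_le.1 (hC j)).2
          linarith
      · push Not at hT0
        obtain ⟨j, hj, hj0⟩ : ∃ j ∈ R, c j ≤ 0 := by
          by_contra hcon
          push Not at hcon
          have := Finset.sum_lt_sum_of_nonempty hRne (f := fun _ => (0 : ℝ)) (g := c) hcon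
          simp at this
          linarith
        refine ⟨j, hj, abs_le.2 ⟨?_, ?_⟩⟩
        · have := (abs_le.1 (hC j)).1
          linarith
        · have := (abs_le.1 hTb).2
          linarith
    have hjn : ∀ i < k, q i ≠ j := by
      intro i hi hij
      rw [hR, Finset.mem_sdiff] at hjR
      exact hjR.2 (Finset.mem_image.2 ⟨i, Finset.mem_range.2 hi, hij⟩)
    refine ⟨Function.update q k j, ?_, ?_⟩
    · intro a ha b hb' h
      simp only [Set.mem_Iio] at ha hb'
      by_cases hak : a = k
      · by_cases hbk : b = k
        · rw [hak, hbk]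
        · subst hak
          rw [Function.update_self, Function.update_of_ne hbk] at h
          exact absurd h.symm (hjn b (by omega))
      · by_cases hbk : b = k
        · subst hbk
          rw [Function.update_self, Function.update_of_ne hak] at h
          exact absurd h (hjn a (by omega))
        · rw [Function.update_of_ne hak, Function.update_of_ne hbk] at h
          exact hq (by simp only [Set.mem_Iio]; omega) (by simp only [Set.mem_Iio]; omega) h
    · intro m hm
      rcases Nat.lt_or_ge k m with h | h
      · obtain rfl : m = k + 1 := by omega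
        rw [Finset.sum_range_succ, Function.update_self]
        have : ∑ i ∈ Finset.range k, c (Function.update q k j i) = T := by
          rw [hT]
          refine Finset.sum_congr rfl fun i hi => ?_
          rw [Function.update_of_ne (by have := Finset.mem_range.1 hi; omega)]
        rw [this]
        exact hj
      · have : ∑ i ∈ Finset.range m, c (Function.update q k j i) =
            ∑ i ∈ Finset.range m, c (q i) := by
          refine Finset.sum_congr rfl fun i hi => ?_
          rw [Function.update_of_ne (by have := Finset.mem_range.1 hi; omega)]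
        rw [this]
        exact hb m h

theorem rearr (n : ℕ) (c : Fin n → ℝ) (C : ℝ) (hC : ∀ i, |c i| ≤ C) (h0 : ∑ i, c i = 0) :
    ∃ p : Equiv.Perm (Fin n), ∀ m : Fin n, |∑ i ∈ Finset.Iic m, c (p i)| ≤ C := by
  rcases Nat.eq_zero_or_pos n with hn | hn
  · subst hn
    exact ⟨Equiv.refl _, fun m => m.elim0⟩
  · have hC0 : 0 ≤ C := (abs_nonneg _).trans (hC ⟨0, hn⟩)
    obtain ⟨q, hq, hb⟩ := rearr_step n c C hC h0 hC0 hn n le_rfl
    have hinj : Function.Injective fun i : Fin n => q i := by
      intro a b h
      exact Fin.ext (hq (by simp) (by simp) h)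
    refine ⟨Equiv.ofBijective _ (Finite.injective_iff_bijective.1 hinj), fun m => ?_⟩
    have h1 : ∑ i ∈ Finset.Iic m, c (q i) = ∑ i ∈ Finset.range ((m : ℕ) + 1), c (q i) := by
      rw [Nat.range_succ_eq_Iic, ← Fin.map_valEmbedding_Iic, Finset.sum_map]
      rfl
    have h2 := hb ((m : ℕ) + 1) m.2
    rw [← h1] at h2
    exact h2

end Pool.Agent.Pa1e8
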