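import Pool.Agent.Lib.Pa1e8df.MatDefs
import Pool.Agent.Lib.Pa1e8df.Rearr

/-!
# MP_a1e8df_an, Q2: selfadjoint matrices of trace zero are bounded commutators (MODULE MatComm)

Diagonalise `z` in an orthonormal basis `v_i` (`LinearMap.IsSymmetric.eigenvectorBasis`), order
the eigenvalues `λ` as in `rearr`, let `s_m` be the partial sums (`s_{n-1} = 0`),
`Y v_{p m} = s_m v_{p m}`, `u v_{p m} = v_{p (m+1)}` (cyclically). Then
`z = Y - u Y u⁻¹ = a u - u a` with `a = Y u⁻¹`, `‖a‖ ≤ max |s_m| ≤ ‖z‖`, `‖u‖ ≤ 1`.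
-/

set_option autoImplicit false

open scoped InnerProductSpace

namespace Pool.Agent.Pa1e8

/-- the diagonal operator in an orthonormal basis -/
theorem exists_diag {E : Type*} [NormedAddCommGroup E] [InnerProductSpace ℂ E]
    {n : ℕ} (w : OrthonormalBasis (Fin n) ℂ E) (s : Fin n → ℝ) (C : ℝ) (hC0 : 0 ≤ C)
    (hC : ∀ m, |s m| ≤ C) :
    ∃ Y : E →L[ℂ] E, ‖Y‖ ≤ C ∧ ∀ m, Y (w m) = (s m : ℂ) • w m := by
  classical
  have hY : ∀ x : E, (∑ m, (s m : ℂ) • ((innerSL ℂ (w m)).smulRight (w m)) : E →L[ℂ] E) x =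
      ∑ m, ((s m : ℂ) * ⟪w m, x⟫_ℂ) • w m := by
    intro x
    rw [sum_apply]
    refine Finset.sum_congr rfl (fun m _ => ?_)
    rw [mul_smul]
    rfl
  refine ⟨∑ m, (s m : ℂ) • ((innerSL ℂ (w m)).smulRight (w m)), ?_, ?_⟩
  · refine ContinuousLinearMap.opNorm_le_bound _ hC0 (fun x => ?_)
    rw [hY x]
    have h1 : ‖∑ m, ((s m : ℂ) * ⟪w m, x⟫_ℂ) • w m‖ ^ 2 ≤ (C * ‖x‖) ^ 2 := by
      rw [← w.sum_sq_norm_inner_right (∑ m, ((s m : ℂ) * ⟪w m, x⟫_ℂ) • w m)]
      have h2 : ∀ i, ⟪w i, ∑ m, ((s m : ℂ) * ⟪w m, x⟫_ℂ) • w m⟫_ℂ = (s i : ℂ) * ⟪w i, x⟫_ℂ :=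
        fun i => w.orthonormal.inner_right_fintype (fun m => (s m : ℂ) * ⟪w m, x⟫_ℂ) i
      rw [mul_pow, ← w.sum_sq_norm_inner_right x, Finset.mul_sum]
      refine Finset.sum_le_sum (fun i _ => ?_)
      rw [h2 i, norm_mul, mul_pow]
      refine mul_le_mul_of_nonneg_right ?_ (sq_nonneg _)
      rw [Complex.norm_real, Real.norm_eq_abs]
      exact pow_le_pow_left₀ (abs_nonneg _) (hC i) 2
    exact le_of_sq_le_sq h1 (mul_nonneg hC0 (norm_nonneg _))
  · intro m
    rw [hY (w m), Finset.sum_eq_single m]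
    · rw [w.inner_eq_one, mul_one]
    · intro b _ hb
      rw [w.inner_eq_zero hb, mul_zero, zero_smul]
    · intro h
      exact absurd (Finset.mem_univ m) h

theorem mat_comm (n : ℕ) (z : Mn n) (hz : star z = z) (h0 : ntr z = 0) :
    ∃ a u : Mn n, ‖a‖ ≤ ‖z‖ ∧ ‖u‖ ≤ 1 ∧ z = a * u - u * a := by
  classical
  rcases Nat.eq_zero_or_pos n with hn | hn
  · subst hn
    refine ⟨0, 0, by simp, by simp, ?_⟩
    ext x i
    exact i.elim0
  -- the eigenbasis
  have hsymm : (z : EuclideanSpace ℂ (Fin n) →ₗ[ℂ] EuclideanSpace ℂ (Fin n)).IsSymmetric :=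
    (ContinuousLinearMap.isSelfAdjoint_iff_isSymmetric).mp hz
  have hfin : Module.finrank ℂ (EuclideanSpace ℂ (Fin n)) = n := by simp
  set v := hsymm.eigenvectorBasis hfin with hv
  set ev := hsymm.eigenvalues hfin with hev
  have hzv : ∀ i, z (v i) = (ev i : ℂ) • v i := fun i =>
    hsymm.apply_eigenvectorBasis hfin i
  -- the sum of the eigenvalues
  have hn' : (n : ℂ) ≠ 0 := by exact_mod_cast hn.ne'
  have htr : ∑ i, (ev i : ℂ) = 0 := by
    have h1 : LinearMap.trace ℂ _ (z : EuclideanSpace ℂ (Fin n) →ₗ[ℂ] EuclideanSpace ℂ (Fin n)) =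
        ∑ i, ⟪v i, z (v i)⟫_ℂ := LinearMap.trace_eq_sum_inner _ v
    have h2 : LinearMap.trace ℂ _ (z : EuclideanSpace ℂ (Fin n) →ₗ[ℂ] EuclideanSpace ℂ (Fin n)) =
        ∑ i, ⟪EuclideanSpace.basisFun (Fin n) ℂ i, z (EuclideanSpace.basisFun (Fin n) ℂ i)⟫_ℂ :=
      LinearMap.trace_eq_sum_inner _ (EuclideanSpace.basisFun (Fin n) ℂ)
    have h3 : ∑ i, ⟪v i, z (v i)⟫_ℂ = ∑ i, (ev i : ℂ) := by
      refine Finset.sum_congr rfl (fun i _ => ?_)
      rw [hzv i, inner_smul_right, v.inner_eq_one, mul_one]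
    rw [← h3, ← h1, h2]
    unfold ntr at h0
    rw [div_eq_zero_iff] at h0
    rcases h0 with h0 | h0
    · rw [← h0]
      refine Finset.sum_congr rfl (fun i _ => ?_)
      rw [EuclideanSpace.basisFun_apply]
    · exact absurd h0 hn'
  have htr' : ∑ i, ev i = 0 := by
    have : ((∑ i, ev i : ℝ) : ℂ) = 0 := by
      rw [Complex.ofReal_sum]
      exact htr
    exact_mod_cast this
  have hbd : ∀ i, |ev i| ≤ ‖z‖ := by
    intro i
    have h1 : ‖z (v i)‖ ≤ ‖z‖ * ‖v i‖ := z.le_opNorm _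
    rw [hzv i, norm_smul, v.norm_eq_one, mul_one, mul_one, Complex.norm_real,
      Real.norm_eq_abs] at h1
    exact h1
  obtain ⟨p, hp⟩ := rearr n ev ‖z‖ hbd htr'
  set w : OrthonormalBasis (Fin n) ℂ (EuclideanSpace ℂ (Fin n)) := v.reindex p.symm with hw
  have hwm : ∀ m, w m = v (p m) := by
    intro m
    rw [hw, OrthonormalBasis.reindex_apply, Equiv.symm_symm]
  have hzw : ∀ m, z (w m) = (ev (p m) : ℂ) • w m := by
    intro m
    rw [hwm m, hzv]
  set s : Fin n → ℝ := fun m => ∑ i ∈ Finset.Iic m, ev (p i) with hs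
  obtain ⟨Y, hYn, hY⟩ := exists_diag w s ‖z‖ (norm_nonneg _) hp
  obtain ⟨n', rfl⟩ : ∃ n', n = n' + 1 := ⟨n - 1, by omega⟩
  -- the cyclic shift
  set U : EuclideanSpace ℂ (Fin (n' + 1)) ≃ₗᵢ[ℂ] EuclideanSpace ℂ (Fin (n' + 1)) :=
    w.equiv w (finRotate (n' + 1)) with hU
  have hUw : ∀ m, U (w m) = w (finRotate (n' + 1) m) := by
    intro m
    rw [hU, OrthonormalBasis.equiv_apply_basis]
  set u : Mn (n' + 1) := U.toContinuousLinearEquiv.toContinuousLinearMap with hu
  set u' : Mn (n' + 1) := U.symm.toContinuousLinearEquiv.toContinuousLinearMap with hu'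
  have hux : ∀ x, u x = U x := fun _ => rfl
  have hux' : ∀ x, u' x = U.symm x := fun _ => rfl
  have hun : ‖u‖ ≤ 1 := by
    refine ContinuousLinearMap.opNorm_le_bound _ zero_le_one (fun x => ?_)
    rw [hux, LinearIsometryEquiv.norm_map, one_mul]
  have hun' : ‖u'‖ ≤ 1 := by
    refine ContinuousLinearMap.opNorm_le_bound _ zero_le_one (fun x => ?_)
    rw [hux', LinearIsometryEquiv.norm_map, one_mul]
  refine ⟨Y * u', u, ?_, hun, ?_⟩
  · calc ‖Y * u'‖ ≤ ‖Y‖ * ‖u'‖ := norm_mul_le _ _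
      _ ≤ ‖z‖ * 1 := mul_le_mul hYn hun' (norm_nonneg _) (norm_nonneg _)
      _ = ‖z‖ := mul_one _
  · -- check on the basis
    have hkey : ∀ m, z (w m) = (Y * u' * u - u * (Y * u')) (w m) := by
      intro m
      have h1 : (Y * u' * u) (w m) = (s m : ℂ) • w m := by
        show Y (u' (u (w m))) = _
        rw [hux, hux', LinearIsometryEquiv.symm_apply_apply, hY]
      obtain ⟨k, hk⟩ : ∃ k, finRotate (n' + 1) k = m := ⟨(finRotate (n' + 1)).symm m, by simp⟩
      have h2 : (u * (Y * u')) (w m) = (s k : ℂ) • w m := by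
        show u (Y (u' (w m))) = _
        rw [hux, hux']
        have h3 : U.symm (w m) = w k := by
          rw [← hk, ← hUw, LinearIsometryEquiv.symm_apply_apply]
        rw [h3, hY, map_smul, hUw, hk]
      rw [sub_apply, h1, h2, hzw, ← sub_smul]
      congr 1
      rw [← Complex.ofReal_sub]
      congr 1
      -- s m - s k = ev (p m)
      rcases eq_or_ne k (Fin.last n') with hkl | hkl
      · have hm0 : m = 0 := by
          rw [← hk, hkl, finRotate_last]
        have h4 : s k = 0 := by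
          rw [hs, hkl]
          show ∑ i ∈ Finset.Iic (Fin.last n'), ev (p i) = 0
          have h5 : Finset.Iic (Fin.last n') = (Finset.univ : Finset (Fin (n' + 1))) := by
            ext i
            simp [Fin.le_last]
          rw [h5, Equiv.sum_comp p ev]
          exact htr'
        have h6 : s m = ev (p m) := by
          rw [hs, hm0]
          show ∑ i ∈ Finset.Iic (0 : Fin (n' + 1)), ev (p i) = _
          have h5 : Finset.Iic (0 : Fin (n' + 1)) = {0} := by
            ext i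
            simp
          rw [h5, Finset.sum_singleton]
        rw [h4, h6, sub_zero]
      · have hlt : (k : ℕ) < n' := by
          have h7 : (k : ℕ) < n' + 1 := k.2
          have h8 : (k : ℕ) ≠ n' := fun h => hkl (Fin.ext h)
          omega
        have hmk : (m : ℕ) = (k : ℕ) + 1 := by
          rw [← hk, coe_finRotate_of_ne_last hkl]
        have h9 : Finset.Iic m = insert m (Finset.Iic k) := by
          ext i
          simp only [Finset.mem_Iic, Finset.mem_insert, Fin.le_def, Fin.ext_iff]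
          omega
        have h10 : m ∉ Finset.Iic k := by
          simp only [Finset.mem_Iic, Fin.le_def]
          omega
        show ev (p m) = (∑ i ∈ Finset.Iic m, ev (p i)) - ∑ i ∈ Finset.Iic k, ev (p i)
        rw [h9, Finset.sum_insert h10]
        ring
    apply ContinuousLinearMap.coe_injective
    refine w.toBasis.ext (fun m => ?_)
    rw [OrthonormalBasis.coe_toBasis]
    exact hkey m

end Pool.Agent.Pa1e8
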