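import Mathlib

/-!
# MP_a1e8df_an, Q2: matrices with the normalised Hilbert-Schmidt norm
-/

set_option autoImplicit false

open scoped InnerProductSpace

namespace Pool.Agent.Pa1e8

/-- `n × n` matrices, as operators on the Euclidean space -/
abbrev Mn (n : ℕ) : Type := EuclideanSpace ℂ (Fin n) →L[ℂ] EuclideanSpace ℂ (Fin n)

/-- the square of the normalised Hilbert-Schmidt norm -/
noncomputable def hs {n : ℕ} (x : Mn n) : ℝ :=
  (∑ k : Fin n, ‖x (EuclideanSpace.single k (1 : ℂ))‖ ^ 2) / (n : ℝ)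

/-- the normalised trace -/
noncomputable def ntr {n : ℕ} (x : Mn n) : ℂ :=
  (∑ k : Fin n, ⟪EuclideanSpace.single k (1 : ℂ), x (EuclideanSpace.single k (1 : ℂ))⟫_ℂ) / (n : ℂ)

/-- the normalised Hilbert-Schmidt inner product -/
noncomputable def ip {n : ℕ} (x y : Mn n) : ℂ :=
  (∑ k : Fin n, ⟪x (EuclideanSpace.single k (1 : ℂ)), y (EuclideanSpace.single k (1 : ℂ))⟫_ℂ) /
    (n : ℂ)

end Pool.Agent.Pa1e8
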