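import Pool.Agent.Lib.Pa1e8df.MatDefs

/-!
# MP_a1e8df_an, Q2: facts on the normalised Hilbert-Schmidt norm (MODULE MatHS)
-/

set_option autoImplicit false

open scoped InnerProductSpace

namespace Pool.Agent.Pa1e8

variable {n : ℕ}

/-- the columns of a matrix, as one vector -/
noncomputable def cols (x : Mn n) : PiLp 2 (fun _ : Fin n => EuclideanSpace ℂ (Fin n)) :=
  WithLp.toLp 2 (fun k => x (EuclideanSpace.single k (1 : ℂ)))

lemma cols_apply (x : Mn n) (k : Fin n) : cols x k = x (EuclideanSpace.single k (1 : ℂ)) := rfl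

lemma norm_cols_sq (x : Mn n) :
    ‖cols x‖ ^ 2 = ∑ k : Fin n, ‖x (EuclideanSpace.single k (1 : ℂ))‖ ^ 2 := by
  rw [PiLp.norm_sq_eq_of_L2]
  rfl

lemma inner_cols (x y : Mn n) : ⟪cols x, cols y⟫_ℂ =
    ∑ k : Fin n, ⟪x (EuclideanSpace.single k (1 : ℂ)), y (EuclideanSpace.single k (1 : ℂ))⟫_ℂ := by
  rw [PiLp.inner_apply]
  rfl

lemma cols_add (x y : Mn n) : cols (x + y) = cols x + cols y := by
  ext k : 1
  rfl

lemma cols_sub (x y : Mn n) : cols (x - y) = cols x - cols y := by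
  ext k : 1
  rfl

lemma cols_smul (c : ℂ) (x : Mn n) : cols (c • x) = c • cols x := by
  ext k : 1
  rfl

lemma hs_eq_cols (x : Mn n) : hs x = ‖cols x‖ ^ 2 / (n : ℝ) := by
  rw [norm_cols_sq]
  rfl

lemma ip_eq_cols (x y : Mn n) : ip x y = ⟪cols x, cols y⟫_ℂ / (n : ℂ) := by
  rw [inner_cols]
  rfl

lemma norm_basis (k : Fin n) : ‖(EuclideanSpace.single k (1 : ℂ))‖ = 1 := by
  rw [PiLp.norm_single, norm_one]

theorem hs_nonneg (x : Mn n) : 0 ≤ hs x := by
  rw [hs_eq_cols]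
  positivity

theorem hs_le_norm_sq (x : Mn n) : hs x ≤ ‖x‖ ^ 2 := by
  rcases Nat.eq_zero_or_pos n with h0 | h0
  · subst h0
    unfold hs
    simp
  · unfold hs
    have hn : (0 : ℝ) < n := by exact_mod_cast h0
    rw [div_le_iff₀ hn]
    calc ∑ k : Fin n, ‖x (EuclideanSpace.single k (1 : ℂ))‖ ^ 2
        ≤ ∑ _k : Fin n, ‖x‖ ^ 2 := by
          apply Finset.sum_le_sum
          intro k _
          have h1 := x.le_opNorm (EuclideanSpace.single k (1 : ℂ))
          rw [norm_basis, mul_one] at h1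
          gcongr
      _ = ‖x‖ ^ 2 * n := by
          rw [Finset.sum_const, Finset.card_univ, Fintype.card_fin, nsmul_eq_mul, mul_comm]

theorem hs_star (x : Mn n) : hs (star x) = hs x := by
  unfold hs
  congr 1
  have h1 : ∀ y : Mn n, ∀ k j : Fin n, (y (EuclideanSpace.single k (1 : ℂ))) j =
      ⟪EuclideanSpace.single j (1 : ℂ), y (EuclideanSpace.single k (1 : ℂ))⟫_ℂ := by
    intro y k j
    rw [EuclideanSpace.inner_single_left]
    simp
  have h2 : ∀ k j : Fin n, ‖(star x (EuclideanSpace.single k (1 : ℂ))) j‖ =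
      ‖(x (EuclideanSpace.single j (1 : ℂ))) k‖ := by
    intro k j
    rw [h1, h1, ContinuousLinearMap.star_eq_adjoint, ContinuousLinearMap.adjoint_inner_right,
      norm_inner_symm]
  calc ∑ k : Fin n, ‖star x (EuclideanSpace.single k (1 : ℂ))‖ ^ 2
      = ∑ k : Fin n, ∑ j : Fin n, ‖(star x (EuclideanSpace.single k (1 : ℂ))) j‖ ^ 2 := by
        apply Finset.sum_congr rfl
        intro k _
        rw [EuclideanSpace.norm_sq_eq]
    _ = ∑ k : Fin n, ∑ j : Fin n, ‖(x (EuclideanSpace.single j (1 : ℂ))) k‖ ^ 2 := by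
        apply Finset.sum_congr rfl
        intro k _
        apply Finset.sum_congr rfl
        intro j _
        rw [h2]
    _ = ∑ j : Fin n, ∑ k : Fin n, ‖(x (EuclideanSpace.single j (1 : ℂ))) k‖ ^ 2 :=
        Finset.sum_comm
    _ = ∑ k : Fin n, ‖x (EuclideanSpace.single k (1 : ℂ))‖ ^ 2 := by
        apply Finset.sum_congr rfl
        intro k _
        rw [EuclideanSpace.norm_sq_eq]

theorem hs_smul (c : ℂ) (x : Mn n) : hs (c • x) = ‖c‖ ^ 2 * hs x := by
  rw [hs_eq_cols, hs_eq_cols, cols_smul, norm_smul, mul_pow, mul_div_assoc]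

theorem hs_neg (x : Mn n) : hs (-x) = hs x := by
  have h1 : cols (-x) = -cols x := by
    ext k : 1
    rfl
  rw [hs_eq_cols, h1, norm_neg, ← hs_eq_cols]

theorem hs_mul_le_left (x y : Mn n) : hs (x * y) ≤ ‖x‖ ^ 2 * hs y := by
  unfold hs
  rw [← mul_div_assoc]
  apply div_le_div_of_nonneg_right _ (Nat.cast_nonneg n)
  rw [Finset.mul_sum]
  apply Finset.sum_le_sum
  intro k _
  have h1 := x.le_opNorm (y (EuclideanSpace.single k (1 : ℂ)))
  calc ‖(x * y) (EuclideanSpace.single k (1 : ℂ))‖ ^ 2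
      = ‖x (y (EuclideanSpace.single k (1 : ℂ)))‖ ^ 2 := rfl
    _ ≤ (‖x‖ * ‖y (EuclideanSpace.single k (1 : ℂ))‖) ^ 2 := by gcongr
    _ = ‖x‖ ^ 2 * ‖y (EuclideanSpace.single k (1 : ℂ))‖ ^ 2 := by rw [mul_pow]

theorem hs_mul_le_right (x y : Mn n) : hs (x * y) ≤ ‖y‖ ^ 2 * hs x := by
  rw [← hs_star (x * y), star_mul]
  have h1 := hs_mul_le_left (star y) (star x)
  have h2 : ‖star y‖ = ‖y‖ := by
    rw [ContinuousLinearMap.star_eq_adjoint]
    exact LinearIsometryEquiv.norm_map _ y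
  rw [h2, hs_star x] at h1
  exact h1

lemma sqrt_hs (x : Mn n) : √(hs x) = ‖cols x‖ / √(n : ℝ) := by
  rw [hs_eq_cols, Real.sqrt_div (by positivity), Real.sqrt_sq (norm_nonneg _)]

theorem sqrt_hs_add_le (x y : Mn n) : √(hs (x + y)) ≤ √(hs x) + √(hs y) := by
  rw [sqrt_hs, sqrt_hs, sqrt_hs, cols_add, ← add_div]
  apply div_le_div_of_nonneg_right _ (Real.sqrt_nonneg _)
  exact norm_add_le _ _

theorem hs_one (hn : n ≠ 0) : hs (1 : Mn n) = 1 := by
  unfold hs
  have hn' : (n : ℝ) ≠ 0 := by exact_mod_cast hn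
  have h1 : ∀ k : Fin n, ‖(1 : Mn n) (EuclideanSpace.single k (1 : ℂ))‖ ^ 2 = 1 := by
    intro k
    have h2 : (1 : Mn n) (EuclideanSpace.single k (1 : ℂ)) = EuclideanSpace.single k (1 : ℂ) := rfl
    rw [h2, norm_basis, one_pow]
  rw [Finset.sum_congr rfl (fun k _ => h1 k), Finset.sum_const, Finset.card_univ,
    Fintype.card_fin, nsmul_eq_mul, mul_one]
  exact div_self hn'

theorem hs_eq_ip (x : Mn n) : ((hs x : ℝ) : ℂ) = ip x x := by
  rw [hs_eq_cols, ip_eq_cols, inner_self_eq_norm_sq_to_K]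
  push_cast
  rfl

theorem hs_eq_ntr (x : Mn n) : ((hs x : ℝ) : ℂ) = ntr (star x * x) := by
  rw [hs_eq_ip]
  unfold ip ntr
  congr 1
  apply Finset.sum_congr rfl
  intro k _
  have h1 : (star x * x) (EuclideanSpace.single k (1 : ℂ)) =
      (star x) (x (EuclideanSpace.single k (1 : ℂ))) := rfl
  rw [h1, ContinuousLinearMap.star_eq_adjoint, ContinuousLinearMap.adjoint_inner_right]

theorem ntr_add (x y : Mn n) : ntr (x + y) = ntr x + ntr y := by
  unfold ntr
  rw [← add_div, ← Finset.sum_add_distrib]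
  congr 1
  apply Finset.sum_congr rfl
  intro k _
  rw [← inner_add_right]
  rfl

theorem ntr_sub (x y : Mn n) : ntr (x - y) = ntr x - ntr y := by
  unfold ntr
  rw [← sub_div, ← Finset.sum_sub_distrib]
  congr 1
  apply Finset.sum_congr rfl
  intro k _
  rw [← inner_sub_right]
  rfl

theorem ntr_smul_one (hn : n ≠ 0) (c : ℂ) : ntr (c • (1 : Mn n)) = c := by
  unfold ntr
  have hn' : (n : ℂ) ≠ 0 := by exact_mod_cast hn
  have h1 : ∀ k : Fin n, ⟪EuclideanSpace.single k (1 : ℂ),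
      (c • (1 : Mn n)) (EuclideanSpace.single k (1 : ℂ))⟫_ℂ = c := by
    intro k
    have h2 : (c • (1 : Mn n)) (EuclideanSpace.single k (1 : ℂ)) =
      c • EuclideanSpace.single k (1 : ℂ) := rfl
    rw [h2, inner_smul_right, inner_self_eq_norm_sq_to_K, norm_basis]
    simp
  rw [Finset.sum_congr rfl (fun k _ => h1 k), Finset.sum_const, Finset.card_univ,
    Fintype.card_fin, nsmul_eq_mul]
  field_simp

/-- polarisation -/
theorem ip_polar (x y : Mn n) :
    4 * ip x y = ((hs (x + y) : ℝ) : ℂ) - ((hs (x - y) : ℝ) : ℂ)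
      + Complex.I * (((hs (x - Complex.I • y) : ℝ) : ℂ) - ((hs (x + Complex.I • y) : ℝ) : ℂ)) := by
  rw [ip_eq_cols, hs_eq_cols, hs_eq_cols, hs_eq_cols, hs_eq_cols, cols_add, cols_sub, cols_sub,
    cols_add, cols_smul, inner_eq_sum_norm_sq_div_four]
  push_cast
  simp only [RCLike.I_to_complex, Complex.coe_algebraMap]
  ring

theorem norm_ip_comm (x y : Mn n) : ‖ip x y‖ = ‖ip y x‖ := by
  rw [ip_eq_cols, ip_eq_cols, norm_div, norm_div, norm_inner_symm]

/-- Cauchy-Schwarz -/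
theorem norm_ip_le (x y : Mn n) : ‖ip x y‖ ≤ √(hs x) * √(hs y) := by
  rw [ip_eq_cols, norm_div, sqrt_hs, sqrt_hs, div_mul_div_comm, Real.mul_self_sqrt
    (Nat.cast_nonneg n), Complex.norm_natCast]
  apply div_le_div_of_nonneg_right _ (Nat.cast_nonneg n)
  exact norm_inner_le_norm _ _

theorem hs_sub_ge (x y : Mn n) : hs x + hs y - 2 * ‖ip x y‖ ≤ hs (x - y) := by
  rw [ip_eq_cols, norm_div, Complex.norm_natCast, hs_eq_cols, hs_eq_cols, hs_eq_cols, cols_sub,
    norm_sub_sq (𝕜 := ℂ)]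
  have h1 : RCLike.re ⟪cols x, cols y⟫_ℂ ≤ ‖⟪cols x, cols y⟫_ℂ‖ := RCLike.re_le_norm _
  have h2 : ‖cols x‖ ^ 2 / (n : ℝ) + ‖cols y‖ ^ 2 / (n : ℝ) - 2 * (‖⟪cols x, cols y⟫_ℂ‖ / (n : ℝ)) =
      (‖cols x‖ ^ 2 - 2 * ‖⟪cols x, cols y⟫_ℂ‖ + ‖cols y‖ ^ 2) / (n : ℝ) := by ring
  rw [h2]
  apply div_le_div_of_nonneg_right _ (Nat.cast_nonneg n)
  linarith

lemma col_identity {x r : Mn n} (h : star x * x + star r * r = 1)
    (v : EuclideanSpace ℂ (Fin n)) : ‖x v‖ ^ 2 + ‖r v‖ ^ 2 = ‖v‖ ^ 2 := by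
  have h0 : (star x) (x v) + (star r) (r v) = v := by
    have h1 := congrArg (fun T : Mn n => T v) h
    exact h1
  have h1 : ⟪v, (star x) (x v)⟫_ℂ + ⟪v, (star r) (r v)⟫_ℂ = ⟪v, v⟫_ℂ := by
    rw [← inner_add_right, h0]
  rw [ContinuousLinearMap.star_eq_adjoint, ContinuousLinearMap.star_eq_adjoint,
    ContinuousLinearMap.adjoint_inner_right, ContinuousLinearMap.adjoint_inner_right,
    inner_self_eq_norm_sq_to_K, inner_self_eq_norm_sq_to_K, inner_self_eq_norm_sq_to_K] at h1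
  exact_mod_cast h1

/-- if `x* x + r* r = 1` then `x` is a contraction and `hs x + hs r = 1` -/
theorem norm_le_one_of_col {x r : Mn n} (h : star x * x + star r * r = 1) : ‖x‖ ≤ 1 := by
  apply ContinuousLinearMap.opNorm_le_bound _ zero_le_one
  intro v
  rw [one_mul]
  have h1 := col_identity h v
  have h2 : ‖x v‖ ^ 2 ≤ ‖v‖ ^ 2 := by
    have := sq_nonneg ‖r v‖
    linarith
  exact (pow_le_pow_iff_left₀ (norm_nonneg _) (norm_nonneg _) two_ne_zero).mp h2

theorem hs_add_hs_of_col (hn : n ≠ 0) {x r : Mn n} (h : star x * x + star r * r = 1) :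
    hs x + hs r = 1 := by
  unfold hs
  have hn' : (n : ℝ) ≠ 0 := by exact_mod_cast hn
  rw [← add_div, ← Finset.sum_add_distrib]
  have h1 : ∀ k : Fin n, ‖x (EuclideanSpace.single k (1 : ℂ))‖ ^ 2 +
      ‖r (EuclideanSpace.single k (1 : ℂ))‖ ^ 2 = 1 := by
    intro k
    rw [col_identity h, norm_basis, one_pow]
  rw [Finset.sum_congr rfl (fun k _ => h1 k), Finset.sum_const, Finset.card_univ,
    Fintype.card_fin, nsmul_eq_mul, mul_one]
  exact div_self hn'

end Pool.Agent.Pa1e8
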