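import Mathlib

/-!
# MP_a1e8df_an, Q2: maximal separated sets and the final counting argument (MODULE Net)
-/

set_option autoImplicit false

namespace Pool.Agent.Pa1e8

/-- In a totally bounded set there is a maximal finite set of pairwise unrelated points, if
unrelated points are uniformly separated. -/
theorem exists_max_net {E : Type*} [PseudoMetricSpace E] {D : Set E} (hD : TotallyBounded D)
    (r : E → E → Prop) (hsymm : ∀ x y, r x y → r y x) (hrefl : ∀ x ∈ D, r x x) {c : ℝ}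
    (hc : 0 < c) (hsep : ∀ x ∈ D, ∀ y ∈ D, ¬ r x y → c ≤ dist x y) :
    ∃ S : Finset E, (↑S : Set E) ⊆ D ∧ (∀ x ∈ S, ∀ y ∈ S, x ≠ y → ¬ r x y) ∧
      ∀ z ∈ D, ∃ s ∈ S, r z s := by
  classical
  obtain ⟨t, htf, ht⟩ := Metric.totallyBounded_iff.1 hD (c / 2) (by positivity)
  -- bound on the cardinality
  have hbound : ∀ S : Finset E, (↑S : Set E) ⊆ D → (∀ x ∈ S, ∀ y ∈ S, x ≠ y → ¬ r x y) →
      S.card ≤ htf.toFinset.card := by
    intro S hS hSr
    have hch : ∀ x ∈ S, ∃ y ∈ t, dist x y < c / 2 := by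
      intro x hx
      have := ht (hS hx)
      simpa using this
    choose! g hg1 hg2 using hch
    refine Finset.card_le_card_of_injOn g (fun x hx => by simpa using hg1 x hx) ?_
    intro x hx y hy hxy
    by_contra hne
    have h1 := hsep x (hS hx) y (hS hy) (hSr x hx y hy hne)
    have h2 := hg2 x hx
    have h3 := hg2 y hy
    have h4 : dist x y ≤ dist x (g x) + dist (g x) y := dist_triangle _ _ _
    have h5 : dist (g x) y = dist y (g y) := by rw [hxy, dist_comm]
    rw [h5] at h4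
    linarith
  -- a set of maximal cardinality
  let Pr : ℕ → Prop := fun n => ∃ S : Finset E, (↑S : Set E) ⊆ D ∧
    (∀ x ∈ S, ∀ y ∈ S, x ≠ y → ¬ r x y) ∧ S.card = n
  have h0 : Pr 0 := ⟨∅, by simp, by simp, rfl⟩
  have hmax := Nat.findGreatest_spec (P := Pr) (n := htf.toFinset.card) (Nat.zero_le _) h0
  obtain ⟨S, hS, hSr, hcard⟩ := hmax
  refine ⟨S, hS, hSr, ?_⟩
  intro z hz
  by_contra hcon
  push Not at hcon
  have hzS : z ∉ S := fun h => hcon z h (hrefl z hz)
  have hS' : (↑(insert z S) : Set E) ⊆ D := by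
    intro x hx
    rw [Finset.coe_insert] at hx
    rcases hx with rfl | hx
    · exact hz
    · exact hS hx
  have hSr' : ∀ x ∈ insert z S, ∀ y ∈ insert z S, x ≠ y → ¬ r x y := by
    intro x hx y hy hxy
    rw [Finset.mem_insert] at hx hy
    rcases hx with rfl | hx
    · rcases hy with rfl | hy
      · exact absurd rfl hxy
      · exact hcon y hy
    · rcases hy with rfl | hy
      · exact fun h => hcon x hx (hsymm _ _ h)
      · exact hSr x hx y hy hxy
  have hle := hbound _ hS' hSr'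
  have hP : Pr (insert z S).card := ⟨_, hS', hSr', rfl⟩
  have hge := Nat.le_findGreatest hle hP
  rw [Finset.card_insert_of_notMem hzS, hcard] at hge
  omega

/-- The counting contradiction. `r` is the relation `~`, `q u s` is `u ~ s²`. -/
theorem counting {E : Type*} [PseudoMetricSpace E] {D : Set E} (hD : TotallyBounded D)
    (r q : E → E → Prop) (hsymm : ∀ x y, r x y → r y x) (hrefl : ∀ x ∈ D, r x x) {c : ℝ}
    (hc : 0 < c) (hsep : ∀ x ∈ D, ∀ y ∈ D, ¬ r x y → c ≤ dist x y)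
    (hQ : ∀ s ∈ D, ∃ z ∈ D, ∀ u ∈ D, r z u → q u s)
    (hI : ∀ s ∈ D, ∀ s' ∈ D, ∀ u ∈ D, q u s → q u s' → r s s')
    (t : E) (ht : t ∈ D) (hJ : ∀ u ∈ D, ∀ s ∈ D, r t u → ¬ q u s) : False := by
  classical
  obtain ⟨S, hS, hSr, hmax⟩ := exists_max_net hD r hsymm hrefl hc hsep
  have hF : ∀ s ∈ S, ∃ s' ∈ S, q s' s := by
    intro s hs
    obtain ⟨z, hz, hzu⟩ := hQ s (hS hs)
    obtain ⟨s', hs', hr⟩ := hmax z hz
    exact ⟨s', hs', hzu s' (hS hs') hr⟩
  choose! F hF1 hF2 using hF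
  have hinj : Set.InjOn F (↑S : Set E) := by
    intro x hx y hy hxy
    by_contra hne
    refine hSr x hx y hy hne (hI x (hS hx) y (hS hy) (F x) (hS (hF1 x hx)) (hF2 x hx) ?_)
    rw [hxy]
    exact hF2 y hy
  have hsurj : Set.SurjOn F (↑S : Set E) (↑S : Set E) :=
    Finset.surjOn_of_injOn_of_card_le F (fun x hx => hF1 x hx) hinj le_rfl
  obtain ⟨s0, hs0, hr0⟩ := hmax t ht
  obtain ⟨s, hs, rfl⟩ := hsurj hs0
  exact hJ _ (hS hs0) s (hS hs) hr0 (hF2 s hs)

end Pool.Agent.Pa1e8
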