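import Pool.Agent.Lib.Pa1e8df.PullPush
import Pool.Agent.Lib.Pa1e8df.Net

/-!
# MP_a1e8df_an, Q2: no correspondence between `L(G)` and matrix algebras
-/

set_option autoImplicit false

open scoped InnerProductSpace
open Filter Topology

namespace Pool.Agent.Pa1e8

universe u v

/-! ### approximate point masses -/

theorem g_near_inner {E : Type*} [NormedAddCommGroup E] [InnerProductSpace ℂ E]
    {ξ ξ' e e' : E} {α β : ℝ} (hα : ‖ξ - e‖ ≤ α) (hβ : ‖ξ' - e'‖ ≤ β) (he : ‖e‖ = 1)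
    (he' : ‖e'‖ = 1) : ‖⟪ξ, ξ'⟫_ℂ - ⟪e, e'⟫_ℂ‖ ≤ α * (1 + β) + β := by
  have h1 : ⟪ξ, ξ'⟫_ℂ - ⟪e, e'⟫_ℂ = ⟪ξ - e, ξ'⟫_ℂ + ⟪e, ξ' - e'⟫_ℂ := by
    rw [inner_sub_left, inner_sub_right]
    ring
  have h2 : ‖ξ'‖ ≤ 1 + β := by
    calc ‖ξ'‖ = ‖e' + (ξ' - e')‖ := by congr 1; abel
      _ ≤ ‖e'‖ + ‖ξ' - e'‖ := norm_add_le _ _
      _ ≤ 1 + β := by rw [he']; gcongr
  have h0 : 0 ≤ α := (norm_nonneg _).trans hα
  rw [h1]
  refine (norm_add_le _ _).trans (add_le_add ?_ ?_)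
  · calc ‖⟪ξ - e, ξ'⟫_ℂ‖ ≤ ‖ξ - e‖ * ‖ξ'‖ := norm_inner_le_norm _ _
      _ ≤ α * (1 + β) := by gcongr
  · calc ‖⟪e, ξ' - e'⟫_ℂ‖ ≤ ‖e‖ * ‖ξ' - e'‖ := norm_inner_le_norm _ _
      _ ≤ β := by rw [he, one_mul]; exact hβ

theorem norm_smul_pt {c : ℂ} (hc : ‖c‖ = 1) (g : G) : ‖c • (pt g : L2 G)‖ = 1 := by
  rw [norm_smul, hc, norm_pt, one_mul]

theorem inner_pt_pt_ne {g g' : G} (h : g ≠ g') (c c' : ℂ) :
    ⟪c • (pt g : L2 G), c' • (pt g' : L2 G)⟫_ℂ = 0 := by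
  rw [inner_smul_left, inner_smul_right, inner_pt, pt_apply_ne h, mul_zero, mul_zero]

theorem inner_pt_pt_self (g : G) {c c' : ℂ} (hc : ‖c‖ = 1) (hc' : ‖c'‖ = 1) :
    ‖⟪c • (pt g : L2 G), c' • (pt g : L2 G)⟫_ℂ‖ = 1 := by
  rw [inner_smul_left, inner_smul_right, inner_pt, pt_apply_self, norm_mul, norm_mul,
    RCLike.norm_conj, hc, hc', norm_one, mul_one, mul_one]

theorem near_sq {T : L2 G →L[ℂ] L2 G} {c : ℂ} {m : ℤ} (h : Near T c m) :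
    ‖(T * T) (dl G) - (c ^ 2) • pt (tt (2 * m))‖ ≤ 1 / 10 := by
  obtain ⟨hT, hn, -, hc, h⟩ := h
  have e1 : (pt (tt (2 * m)) : L2 G) = lam (tt m) (pt (tt m)) := by
    rw [lam_pt, ← tt_add]
    congr 2
    ring
  have e2 : (pt (tt m) : L2 G) = lam (tt m) (dl G) := by
    rw [← pt_one, lam_pt, mul_one]
  have hS : (T - c • lam (tt m)) ∈ LG G := LG_sub hT (LG_smul _ (lam_mem _))
  have e3 : (T * T) (dl G) - (c ^ 2) • pt (tt (2 * m))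
      = T (T (dl G) - c • pt (tt m)) + c • (((T - c • lam (tt m)) * lam (tt m)) (dl G)) := by
    rw [e1, map_sub, map_smul]
    show T (T (dl G)) - _ = T (T (dl G)) - c • T (pt (tt m)) +
      c • (T (lam (tt m) (dl G)) - c • lam (tt m) (lam (tt m) (dl G)))
    rw [← e2, smul_sub, smul_smul, sq]
    abel
  rw [e3]
  refine (norm_add_le _ _).trans ?_
  have h1 : ‖T (T (dl G) - c • pt (tt m))‖ ≤ 1 / 20 := by
    calc ‖T (T (dl G) - c • pt (tt m))‖ ≤ ‖T‖ * ‖T (dl G) - c • pt (tt m)‖ := T.le_opNorm _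
      _ ≤ 1 * (1 / 20) := by gcongr
      _ = 1 / 20 := one_mul _
  have h2 : ‖c • (((T - c • lam (tt m)) * lam (tt m)) (dl G))‖ ≤ 1 / 20 := by
    rw [norm_smul, hc, one_mul, LG_norm_mul_lam_dl hS]
    show ‖T (dl G) - c • lam (tt m) (dl G)‖ ≤ 1 / 20
    rw [← e2]
    exact h
  linarith

/-- `u ≈ c' t^l`, `s ≈ c t^m`: the inner product of `u` and `s²` detects `l = 2 m` -/
theorem near_q_ne {u s : L2 G →L[ℂ] L2 G} {c' c : ℂ} {l m : ℤ} (hu : Near u c' l)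
    (hs : Near s c m) (h : l ≠ 2 * m) : ‖⟪u (dl G), (s * s) (dl G)⟫_ℂ‖ ≤ 1 / 5 := by
  have hc2 : ‖c ^ 2‖ = 1 := by rw [norm_pow, hs.2.2.2.1, one_pow]
  have h1 := g_near_inner hu.2.2.2.2 (near_sq hs) (norm_smul_pt hu.2.2.2.1 _)
    (norm_smul_pt hc2 _)
  rw [inner_pt_pt_ne (fun h' => h (tt_injective h')), sub_zero] at h1
  linarith

theorem near_q_eq {u s : L2 G →L[ℂ] L2 G} {c' c : ℂ} {l m : ℤ} (hu : Near u c' l)
    (hs : Near s c m) (h : l = 2 * m) : 4 / 5 ≤ ‖⟪u (dl G), (s * s) (dl G)⟫_ℂ‖ := by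
  have hc2 : ‖c ^ 2‖ = 1 := by rw [norm_pow, hs.2.2.2.1, one_pow]
  have h1 := g_near_inner hu.2.2.2.2 (near_sq hs) (norm_smul_pt hu.2.2.2.1 _)
    (norm_smul_pt hc2 _)
  subst h
  have h2 := inner_pt_pt_self (tt (2 * m)) hu.2.2.2.1 hc2
  have h3 := norm_sub_norm_le ⟪c' • (pt (tt (2 * m)) : L2 G), c ^ 2 • (pt (tt (2 * m)) : L2 G)⟫_ℂ
    ⟪u (dl G), (s * s) (dl G)⟫_ℂ
  rw [norm_sub_rev] at h3
  rw [h2] at h3
  linarith

theorem near_r_eq {u s : L2 G →L[ℂ] L2 G} {c' c : ℂ} {m : ℤ} (hu : Near u c' m)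
    (hs : Near s c m) : 4 / 5 ≤ ‖⟪u (dl G), s (dl G)⟫_ℂ‖ := by
  have h1 := g_near_inner hu.2.2.2.2 hs.2.2.2.2 (norm_smul_pt hu.2.2.2.1 _)
    (norm_smul_pt hs.2.2.2.1 _)
  have h2 := inner_pt_pt_self (tt m) hu.2.2.2.1 hs.2.2.2.1
  have h3 := norm_sub_norm_le ⟪c' • (pt (tt m) : L2 G), c • (pt (tt m) : L2 G)⟫_ℂ
    ⟪u (dl G), s (dl G)⟫_ℂ
  rw [norm_sub_rev] at h3
  rw [h2] at h3
  linarith

theorem near_pt_ne {u : L2 G →L[ℂ] L2 G} {c' : ℂ} {l m : ℤ} (hu : Near u c' l)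
    (h : l ≠ m) : ‖⟪(lam (tt m) : L2 G →L[ℂ] L2 G) (dl G), u (dl G)⟫_ℂ‖ ≤ 1 / 5 := by
  have e2 : (lam (tt m) : L2 G →L[ℂ] L2 G) (dl G) = (1 : ℂ) • pt (tt m) := by
    rw [← pt_one, lam_pt, mul_one, one_smul]
  have h1 := g_near_inner (ξ := (1 : ℂ) • (pt (tt m) : L2 G)) (e := (1 : ℂ) • (pt (tt m) : L2 G))
    (α := 0) (by simp) hu.2.2.2.2 (norm_smul_pt (by simp) _) (norm_smul_pt hu.2.2.2.1 _)
  rw [inner_pt_pt_ne (fun h' => h (tt_injective h').symm), sub_zero] at h1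
  rw [e2]
  linarith

section

variable {I : Type u} {K : Type v} {U₁ : Ultrafilter I} {V : Ultrafilter K}
  {n : K → ℕ} {R : (I → (L2 G →L[ℂ] L2 G)) → (∀ k : K, Mn (n k)) → Prop}

/-- choice of bounded witnesses -/
theorem exists_family {P : ∀ k : K, Mn (n k) → Prop} {D : ∀ k : K, Set (Mn (n k))}
    (hD : ∀ k, ∀ s ∈ D k, ‖s‖ ≤ 1)
    (h : ∀ᶠ k in (V : Filter K), ∃ s ∈ D k, P k s) :
    ∃ s : ∀ k, Mn (n k), (∀ k, ‖s k‖ ≤ 1) ∧ ∀ᶠ k in (V : Filter K), s k ∈ D k ∧ P k (s k) := by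
  classical
  refine ⟨fun k => if h : ∃ s ∈ D k, P k s then h.choose else 0, ?_, ?_⟩
  · intro k
    by_cases h : ∃ s ∈ D k, P k s
    · simp only [dif_pos h]
      exact hD k _ h.choose_spec.1
    · simp only [dif_neg h]
      simp
  · filter_upwards [h] with k hk
    simp only [dif_pos hk]
    exact hk.choose_spec

theorem no_corr (hR : Corr U₁ V n R) : False := by
  obtain ⟨Ac, hAc⟩ := hR.left _ (BN_lam (fun _ => ac))
  obtain ⟨Bc, hBc⟩ := hR.left _ (BN_lam (fun _ => bc))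
  obtain ⟨A0, hA0⟩ := hR.left _ (BN_lam (fun _ => a0))
  obtain ⟨B0, hB0⟩ := hR.left _ (BN_lam (fun _ => b0))
  set D : ∀ k, Set (Mn (n k)) := fun k => Dset (Ac k) (Bc k) (A0 k) (B0 k) with hDdef
  have hDn : ∀ k, ∀ s ∈ D k, ‖s‖ ≤ 1 := fun k s hs => Dset_norm hs
  obtain ⟨T, hT, hTD⟩ := push hR hAc hBc hA0 hB0 (fun _ => 1) (fun _ => one_ne_zero)
  -- (Q)
  have hQ : ∀ᶠ k in (V : Filter K), ∀ s ∈ D k, ∃ z ∈ D k, ∀ u ∈ D k, 1 / 2 ≤ ‖ip z u‖ →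
      1 / 2 ≤ ‖ip u (s * s)‖ := by
    by_contra hcon
    rw [← Ultrafilter.eventually_not] at hcon
    have hcon' : ∀ᶠ k in (V : Filter K), ∃ s ∈ D k, ∀ z ∈ D k, ∃ u ∈ D k, 1 / 2 ≤ ‖ip z u‖ ∧
        ‖ip u (s * s)‖ < 1 / 2 := by
      filter_upwards [hcon] with k hk
      push Not at hk
      exact hk
    obtain ⟨s, hs1, hs⟩ := exists_family hDn hcon'
    obtain ⟨x, c, m, hx, hxn⟩ := pull hR hAc hBc hA0 hB0 s hs1 (hs.mono fun k hk => hk.1)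
    obtain ⟨z, hz, hzD⟩ := push hR hAc hBc hA0 hB0 (fun i => if m i = 0 then 1 else 2 * m i)
      (fun i => by split_ifs with h <;> omega)
    have h1 : ∀ᶠ k in (V : Filter K), ∃ u ∈ D k, 1 / 2 ≤ ‖ip (z k) u‖ ∧
        ‖ip u (s k * s k)‖ < 1 / 2 := by
      filter_upwards [hs, hzD] with k hk hzk
      exact hk.2 _ hzk
    obtain ⟨u, hu1, hu⟩ := exists_family hDn h1
    obtain ⟨xu, c', l, hxu, hxun⟩ := pull hR hAc hBc hA0 hB0 u hu1 (hu.mono fun k hk => hk.1)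
    have h2 := ev_inner_ge hR hz hxu (c := 1 / 2) (c' := 2 / 5) (by norm_num)
      (hu.mono fun k hk => hk.2.1)
    have h3 := ev_inner_le hR hxu (hR.mul hx hx) (c := 1 / 2) (c' := 3 / 5) (by norm_num)
      (hu.mono fun k hk => hk.2.2.le)
    obtain ⟨i, g1, g2, g3, g4⟩ := (h2.and (h3.and (hxn.and hxun))).exists
    have hm0 : m i ≠ 0 := g3.2.2.1
    simp only [if_neg hm0] at g1
    by_cases hl : l i = 2 * m i
    · have := near_q_eq g4 g3 hl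
      have g2' : ‖⟪xu i (dl G), (x i * x i) (dl G)⟫_ℂ‖ ≤ 3 / 5 := g2
      linarith
    · have := near_pt_ne g4 hl
      linarith
  -- (I)
  have hI : ∀ᶠ k in (V : Filter K), ∀ s ∈ D k, ∀ s' ∈ D k, ∀ u ∈ D k, 1 / 2 ≤ ‖ip u (s * s)‖ →
      1 / 2 ≤ ‖ip u (s' * s')‖ → 1 / 2 ≤ ‖ip s s'‖ := by
    by_contra hcon
    rw [← Ultrafilter.eventually_not] at hcon
    have hcon' : ∀ᶠ k in (V : Filter K), ∃ s ∈ D k, ∃ s' ∈ D k, ∃ u ∈ D k,
        1 / 2 ≤ ‖ip u (s * s)‖ ∧ 1 / 2 ≤ ‖ip u (s' * s')‖ ∧ ‖ip s s'‖ < 1 / 2 := by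
      filter_upwards [hcon] with k hk
      push Not at hk
      exact hk
    obtain ⟨s, hs1, hs⟩ := exists_family hDn hcon'
    obtain ⟨s', hs1', hs'⟩ := exists_family hDn (hs.mono fun k hk => hk.2)
    obtain ⟨u, hu1, hu⟩ := exists_family hDn (hs'.mono fun k hk => hk.2)
    obtain ⟨x, c, m, hx, hxn⟩ := pull hR hAc hBc hA0 hB0 s hs1 (hs.mono fun k hk => hk.1)
    obtain ⟨x', c', m', hx', hxn'⟩ := pull hR hAc hBc hA0 hB0 s' hs1' (hs'.mono fun k hk => hk.1)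
    obtain ⟨xu, cu, l, hxu, hxun⟩ := pull hR hAc hBc hA0 hB0 u hu1 (hu.mono fun k hk => hk.1)
    have h1 := ev_inner_ge hR hxu (hR.mul hx hx) (c := 1 / 2) (c' := 2 / 5) (by norm_num)
      (hu.mono fun k hk => hk.2.1)
    have h2 := ev_inner_ge hR hxu (hR.mul hx' hx') (c := 1 / 2) (c' := 2 / 5) (by norm_num)
      (hu.mono fun k hk => hk.2.2.1)
    have h3 := ev_inner_le hR hx hx' (c := 1 / 2) (c' := 3 / 5) (by norm_num)
      (hu.mono fun k hk => hk.2.2.2.le)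
    obtain ⟨i, g1, g2, g3, g4, g5, g6⟩ :=
      (h1.and (h2.and (h3.and (hxn.and (hxn'.and hxun))))).exists
    have g1' : 2 / 5 ≤ ‖⟪xu i (dl G), (x i * x i) (dl G)⟫_ℂ‖ := g1
    have g2' : 2 / 5 ≤ ‖⟪xu i (dl G), (x' i * x' i) (dl G)⟫_ℂ‖ := g2
    have e1 : l i = 2 * m i := by
      by_contra h
      have := near_q_ne g6 g4 h
      linarith
    have e2 : l i = 2 * m' i := by
      by_contra h
      have := near_q_ne g6 g5 h
      linarith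
    have e3 : m' i = m i := by omega
    rw [e3] at g5
    have := near_r_eq g4 g5
    linarith
  -- (J)
  have hJ : ∀ᶠ k in (V : Filter K), ∀ u ∈ D k, ∀ s ∈ D k, 1 / 2 ≤ ‖ip (T k) u‖ →
      ¬ 1 / 2 ≤ ‖ip u (s * s)‖ := by
    by_contra hcon
    rw [← Ultrafilter.eventually_not] at hcon
    have hcon' : ∀ᶠ k in (V : Filter K), ∃ u ∈ D k, ∃ s ∈ D k,
        1 / 2 ≤ ‖ip (T k) u‖ ∧ 1 / 2 ≤ ‖ip u (s * s)‖ := by
      filter_upwards [hcon] with k hk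
      push Not at hk
      exact hk
    obtain ⟨u, hu1, hu⟩ := exists_family hDn hcon'
    obtain ⟨s, hs1, hs⟩ := exists_family hDn (hu.mono fun k hk => hk.2)
    obtain ⟨x, c, m, hx, hxn⟩ := pull hR hAc hBc hA0 hB0 s hs1 (hs.mono fun k hk => hk.1)
    obtain ⟨xu, cu, l, hxu, hxun⟩ := pull hR hAc hBc hA0 hB0 u hu1 (hu.mono fun k hk => hk.1)
    have h1 := ev_inner_ge hR hT hxu (c := 1 / 2) (c' := 2 / 5) (by norm_num)
      (hs.mono fun k hk => hk.2.1)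
    have h2 := ev_inner_ge hR hxu (hR.mul hx hx) (c := 1 / 2) (c' := 2 / 5) (by norm_num)
      (hs.mono fun k hk => hk.2.2)
    obtain ⟨i, g1, g2, g3, g4⟩ := (h1.and (h2.and (hxn.and hxun))).exists
    have g2' : 2 / 5 ≤ ‖⟪xu i (dl G), (x i * x i) (dl G)⟫_ℂ‖ := g2
    have e1 : l i = 1 := by
      by_contra h
      have := near_pt_ne g4 h
      linarith
    have e2 : l i = 2 * m i := by
      by_contra h
      have := near_q_ne g4 g3 h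
      linarith
    omega
  obtain ⟨k, hk0, hkT, hkQ, hkI, hkJ⟩ :=
    ((ev_ne_zero hR).and (hTD.and (hQ.and (hI.and hJ)))).exists
  have hd : dd ^ 2 ≤ 1 / 4 := by unfold dd; norm_num
  have hprop : ProperSpace (Mn (n k)) := FiniteDimensional.proper ℂ _
  have hTB : TotallyBounded (D k) := by
    refine (isCompact_closedBall (0 : Mn (n k)) 1).totallyBounded.subset ?_
    intro s hs
    rw [mem_closedBall_zero_iff]
    exact hDn k s hs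
  refine counting hTB (fun x y => 1 / 2 ≤ ‖ip x y‖) (fun u s => 1 / 2 ≤ ‖ip u (s * s)‖)
    (fun x y h => by rwa [norm_ip_comm] at h) ?_ (c := 1 / 2) (by norm_num) ?_ hkQ hkI (T k) hkT
    hkJ
  · intro x hx
    show 1 / 2 ≤ ‖ip x x‖
    rw [← hs_eq_ip, Complex.norm_real, Real.norm_of_nonneg (hs_nonneg _)]
    have := Dset_hs hk0 hx
    linarith
  · intro x hx y hy hxy
    have h1 := Dset_hs hk0 hx
    have h2 := Dset_hs hk0 hy
    have h3 := hs_sub_ge x y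
    have h4 := hs_le_norm_sq (x - y)
    have h5 : ‖ip x y‖ < 1 / 2 := not_le.mp hxy
    rw [dist_eq_norm]
    have h6 : (1 / 2 : ℝ) ^ 2 ≤ ‖x - y‖ ^ 2 := by linarith
    exact le_of_sq_le_sq h6 (norm_nonneg _)

end

end Pool.Agent.Pa1e8
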