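import Pool.Agent.Lib.Pa1e8df.Rel
import Pool.Agent.Lib.Pa1e8df.KeyLemma

/-!
# MP_a1e8df_an, Q2: pulling back and pushing forward along a correspondence
-/

set_option autoImplicit false

open scoped InnerProductSpace
open Filter Topology

namespace Pool.Agent.Pa1e8

universe u v

/-- tolerance -/
noncomputable def dd : ℝ := 1 / 100000

theorem dd_pos : 0 < dd := by unfold dd; norm_num

/-- the set of contractions satisfying the relations up to `dd` -/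
def Dset {m : ℕ} (Ac Bc A0 B0 : Mn m) : Set (Mn m) :=
  {s | ∃ r : Mn m, star s * s + star r * r = 1 ∧ hs r ≤ dd ^ 2 ∧
    hs (Ac * s - s * Ac) ≤ dd ^ 2 ∧ hs (Bc * s - s * Bc) ≤ dd ^ 2 ∧
    hs (A0 * (s * A0 * star s) - (s * A0 * star s) * A0) ≤ dd ^ 2 ∧
    hs (B0 * (s * A0 * star s) - (s * A0 * star s) * B0) ≤ dd ^ 2}

theorem Dset_norm {m : ℕ} {Ac Bc A0 B0 : Mn m} {s : Mn m} (h : s ∈ Dset Ac Bc A0 B0) :
    ‖s‖ ≤ 1 := by
  obtain ⟨r, hr, -⟩ := h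
  exact norm_le_one_of_col hr

theorem Dset_hs {m : ℕ} (hm : m ≠ 0) {Ac Bc A0 B0 : Mn m} {s : Mn m}
    (h : s ∈ Dset Ac Bc A0 B0) : 1 - dd ^ 2 ≤ hs s := by
  obtain ⟨r, hr, hr2, -⟩ := h
  have := hs_add_hs_of_col hm hr
  linarith

theorem g_polar {E : Type*} [NormedAddCommGroup E] [InnerProductSpace ℂ E] (x y : E) :
    ⟪x, y⟫_ℂ = (((‖x + y‖ ^ 2 : ℝ) : ℂ) - ((‖x - y‖ ^ 2 : ℝ) : ℂ) +
      Complex.I * (((‖x - Complex.I • y‖ ^ 2 : ℝ) : ℂ) -
        ((‖x + Complex.I • y‖ ^ 2 : ℝ) : ℂ))) / 4 := by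
  rw [inner_eq_sum_norm_sq_div_four]
  simp only [RCLike.I_to_complex, RCLike.ofReal_eq_complex_ofReal]
  push_cast
  ring

section

variable {Γ : Type} [Group Γ] {I : Type u} {K : Type v} {U₁ : Ultrafilter I} {V : Ultrafilter K}
  {n : K → ℕ} {R : (I → (L2 Γ →L[ℂ] L2 Γ)) → (∀ k : K, Mn (n k)) → Prop}

/-- convergence of inner products -/
theorem inner_pres (hR : Corr U₁ V n R) {x y x' y'} (h : R x y) (h' : R x' y') :
    ∃ L : ℂ, Tendsto (fun i => ⟪x i (dl Γ), x' i (dl Γ)⟫_ℂ) (U₁ : Filter I) (𝓝 L) ∧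
      Tendsto (fun k => ip (y k) (y' k)) (V : Filter K) (𝓝 L) := by
  obtain ⟨L1, h1, g1⟩ := trace_pres hR (hR.add h h')
  obtain ⟨L2', h2, g2⟩ := trace_pres hR (corr_sub hR h h')
  obtain ⟨L3, h3, g3⟩ := trace_pres hR (corr_sub hR h (hR.smul Complex.I h'))
  obtain ⟨L4, h4, g4⟩ := trace_pres hR (hR.add h (hR.smul Complex.I h'))
  refine ⟨((L1 : ℂ) - L2' + Complex.I * ((L3 : ℂ) - L4)) / 4, ?_, ?_⟩
  · have e : (fun i => ⟪x i (dl Γ), x' i (dl Γ)⟫_ℂ) = fun i =>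
        ((((‖(x + x') i (dl Γ)‖ ^ 2 : ℝ) : ℂ)) - ((‖(x - x') i (dl Γ)‖ ^ 2 : ℝ) : ℂ) +
          Complex.I * (((‖(x - Complex.I • x') i (dl Γ)‖ ^ 2 : ℝ) : ℂ) -
            ((‖(x + Complex.I • x') i (dl Γ)‖ ^ 2 : ℝ) : ℂ))) / 4 := by
      funext i
      exact g_polar _ _
    rw [e]
    have hc := Complex.continuous_ofReal
    exact ((((hc.tendsto _).comp h1).sub ((hc.tendsto _).comp h2)).add
      ((((hc.tendsto _).comp h3).sub ((hc.tendsto _).comp h4)).const_mul Complex.I)).div_const 4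
  · have e : (fun k => ip (y k) (y' k)) = fun k =>
        ((((hs ((y + y') k) : ℝ) : ℂ)) - ((hs ((y - y') k) : ℝ) : ℂ) +
          Complex.I * (((hs ((y - Complex.I • y') k) : ℝ) : ℂ) -
            ((hs ((y + Complex.I • y') k) : ℝ) : ℂ))) / 4 := by
      funext k
      have := ip_polar (y k) (y' k)
      simp only [Pi.add_apply, Pi.sub_apply, Pi.smul_apply]
      rw [← this]
      ring
    rw [e]
    have hc := Complex.continuous_ofReal
    exact ((((hc.tendsto _).comp g1).sub ((hc.tendsto _).comp g2)).add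
      ((((hc.tendsto _).comp g3).sub ((hc.tendsto _).comp g4)).const_mul Complex.I)).div_const 4

theorem ev_le_of_ev_le (hR : Corr U₁ V n R) {x y} (h : R x y) {c c' : ℝ} (hc : c < c')
    (hy : ∀ᶠ k in (V : Filter K), hs (y k) ≤ c) :
    ∀ᶠ i in (U₁ : Filter I), ‖x i (dl Γ)‖ ^ 2 ≤ c' := by
  obtain ⟨L, h1, g1⟩ := trace_pres hR h
  have hL : L ≤ c := le_of_tendsto g1 hy
  exact (h1.eventually (gt_mem_nhds (lt_of_le_of_lt hL hc))).mono fun i hi => hi.le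

theorem ev_ge_of_ev_ge (hR : Corr U₁ V n R) {x y} (h : R x y) {c c' : ℝ} (hc : c' < c)
    (hy : ∀ᶠ k in (V : Filter K), c ≤ hs (y k)) :
    ∀ᶠ i in (U₁ : Filter I), c' ≤ ‖x i (dl Γ)‖ ^ 2 := by
  obtain ⟨L, h1, g1⟩ := trace_pres hR h
  have hL : c ≤ L := ge_of_tendsto g1 hy
  exact (h1.eventually (lt_mem_nhds (lt_of_lt_of_le hc hL))).mono fun i hi => hi.le

theorem ev_inner_ge (hR : Corr U₁ V n R) {x y x' y'} (h : R x y) (h' : R x' y') {c c' : ℝ}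
    (hc : c' < c) (hy : ∀ᶠ k in (V : Filter K), c ≤ ‖ip (y k) (y' k)‖) :
    ∀ᶠ i in (U₁ : Filter I), c' ≤ ‖⟪x i (dl Γ), x' i (dl Γ)⟫_ℂ‖ := by
  obtain ⟨L, h1, g1⟩ := inner_pres hR h h'
  have hL : c ≤ ‖L‖ := ge_of_tendsto g1.norm hy
  exact (h1.norm.eventually (lt_mem_nhds (lt_of_lt_of_le hc hL))).mono fun i hi => hi.le

theorem ev_inner_le (hR : Corr U₁ V n R) {x y x' y'} (h : R x y) (h' : R x' y') {c c' : ℝ}
    (hc : c < c') (hy : ∀ᶠ k in (V : Filter K), ‖ip (y k) (y' k)‖ ≤ c) :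
    ∀ᶠ i in (U₁ : Filter I), ‖⟪x i (dl Γ), x' i (dl Γ)⟫_ℂ‖ ≤ c' := by
  obtain ⟨L, h1, g1⟩ := inner_pres hR h h'
  have hL : ‖L‖ ≤ c := le_of_tendsto g1.norm hy
  exact (h1.norm.eventually (gt_mem_nhds (lt_of_le_of_lt hL hc))).mono fun i hi => hi.le

theorem nullM_iff_of_zero {y : ∀ k : K, Mn (n k)} (h : ∀ᶠ k in (V : Filter K), y k = 0) :
    nullM V n y := by
  intro ε hε
  filter_upwards [h] with k hk
  rw [hk]
  simpa [hs] using hε

/-- the indices with `n k = 0` are negligible -/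
theorem ev_ne_zero (hR : Corr U₁ V n R) : ∀ᶠ k in (V : Filter K), n k ≠ 0 := by
  by_contra hcon
  rw [← Ultrafilter.eventually_not] at hcon
  have h1 : nullM V n (1 : ∀ k, Mn (n k)) := by
    intro ε hε
    filter_upwards [hcon] with k hk
    have hk' : n k = 0 := not_not.mp hk
    have : hs (1 : Mn (n k)) = 0 := by
      unfold hs
      rw [hk']
      simp
    exact lt_of_eq_of_lt this hε
  have h2 := (hR.null hR.one).mpr h1 1 one_pos
  obtain ⟨i, hi⟩ := h2.exists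
  have : ‖((1 : I → (L2 Γ →L[ℂ] L2 Γ)) i) (dl Γ)‖ = 1 := norm_dl_one
  rw [this] at hi
  exact lt_irrefl _ hi

end

end Pool.Agent.Pa1e8
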