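import Pool.Agent.Lib.Pa1e8df.Pull

/-!
# MP_a1e8df_an, Q2: pulling back and pushing forward along a correspondence
-/

set_option autoImplicit false

open scoped InnerProductSpace
open Filter Topology

namespace Pool.Agent.Pa1e8

universe u v

section

variable {I : Type u} {K : Type v} {U₁ : Ultrafilter I} {V : Ultrafilter K}
  {n : K → ℕ} {R : (I → (L2 G →L[ℂ] L2 G)) → (∀ k : K, Mn (n k)) → Prop}

/-- `T δ` is close to a unimodular multiple of the point mass at `t^m` -/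
def Near (T : L2 G →L[ℂ] L2 G) (c : ℂ) (m : ℤ) : Prop :=
  T ∈ LG G ∧ ‖T‖ ≤ 1 ∧ m ≠ 0 ∧ ‖c‖ = 1 ∧ ‖T (dl G) - c • pt (tt m)‖ ≤ 1 / 20

/-- replacing a preimage of a family of contractions by a family of contractions -/
theorem exists_contraction (hR : Corr U₁ V n R) (s r : ∀ k, Mn (n k)) (x w) (hx : R x s)
    (hw : R w r) (h : ∀ᶠ k in (V : Filter K), star (s k) * s k + star (r k) * r k = 1) :
    ∃ x' : I → (L2 G →L[ℂ] L2 G), R x' s ∧ ∀ i, ‖x' i‖ ≤ 1 := by
  have h1 : R (star x * x + star w * w - 1) (star s * s + star r * r - 1) :=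
    corr_sub hR (hR.add (hR.mul (hR.star hx) hx) (hR.mul (hR.star hw) hw)) hR.one
  have h2 : nullM V n (star s * s + star r * r - 1) := by
    apply nullM_iff_of_zero
    filter_upwards [h] with k hk
    show star (s k) * s k + star (r k) * r k - 1 = 0
    rw [hk, sub_self]
  have h3 := (hR.null h1).mpr h2
  choose kk hk1 hk2 hk3 hk4 hk5 hk6 using fun i => cut (x i) (w i)
  have hxm := (hR.bn hx).1
  have hwm := (hR.bn hw).1
  have hkm : ∀ i, kk i ∈ LG G := fun i =>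
    LG_inv (LG_add LG_one (LG_add (LG_mul (LG_star (hxm i)) (hxm i))
      (LG_mul (LG_star (hwm i)) (hwm i)))) (hk2 i) (hk1 i)
  refine ⟨fun i => (2 : ℂ) • (x i * kk i), ?_, hk5⟩
  refine hR.congrN hx ⟨fun i => LG_smul _ (LG_mul (hxm i) (hkm i)), 1, hk5⟩ ?_
  intro ε hε
  filter_upwards [h3 ε hε] with i hi
  have e : ((fun i => (2 : ℂ) • (x i * kk i)) - x) i
      = -((x i * kk i) * ((star (x i) * x i + star (w i) * w i) - 1)) := by
    rw [← hk6 i]
    simp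
  rw [e, ContinuousLinearMap.neg_apply, norm_neg]
  have h5 : ‖x i * kk i‖ ≤ 1 := by
    have := hk5 i
    rw [norm_smul] at this
    simp at this
    linarith [norm_nonneg (x i * kk i)]
  calc ‖((x i * kk i) * ((star (x i) * x i + star (w i) * w i) - 1)) (dl G)‖
      ≤ ‖x i * kk i‖ * ‖((star (x i) * x i + star (w i) * w i) - 1) (dl G)‖ :=
        (x i * kk i).le_opNorm (((star (x i) * x i + star (w i) * w i) - 1) (dl G))
    _ ≤ 1 * ‖((star (x i) * x i + star (w i) * w i) - 1) (dl G)‖ := by gcongr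
    _ = ‖((star x * x + star w * w - 1) i) (dl G)‖ := one_mul _
    _ < ε := hi

theorem pull (hR : Corr U₁ V n R) {Ac Bc A0 B0 : ∀ k, Mn (n k)}
    (hAc : R (fun _ => lam ac) Ac) (hBc : R (fun _ => lam bc) Bc)
    (hA0 : R (fun _ => lam a0) A0) (hB0 : R (fun _ => lam b0) B0)
    (s : ∀ k, Mn (n k)) (hs1 : ∀ k, ‖s k‖ ≤ 1)
    (hs : ∀ᶠ k in (V : Filter K), s k ∈ Dset (Ac k) (Bc k) (A0 k) (B0 k)) :
    ∃ (x : I → (L2 G →L[ℂ] L2 G)) (c : I → ℂ) (m : I → ℤ), R x s ∧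
      ∀ᶠ i in (U₁ : Filter I), Near (x i) (c i) (m i) := by
  classical
  have hr : ∀ k, ∃ r : Mn (n k), ‖r‖ ≤ 1 ∧ (s k ∈ Dset (Ac k) (Bc k) (A0 k) (B0 k) →
      star (s k) * s k + star r * r = 1 ∧ Pool.Agent.Pa1e8.hs r ≤ dd ^ 2) := by
    intro k
    by_cases h : s k ∈ Dset (Ac k) (Bc k) (A0 k) (B0 k)
    · obtain ⟨r, h1, h2, -⟩ := h
      refine ⟨r, ?_, fun _ => ⟨h1, h2⟩⟩
      refine norm_le_one_of_col (r := s k) ?_
      rw [add_comm]
      exact h1
    · exact ⟨0, by simp, fun h' => absurd h' h⟩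
  choose r hr1 hr2 using hr
  obtain ⟨x0, hx0⟩ := hR.right s ⟨1, hs1⟩
  obtain ⟨w, hw⟩ := hR.right r ⟨1, hr1⟩
  obtain ⟨x, hx, hxn⟩ := exists_contraction hR s r x0 w hx0 hw
    (hs.mono fun k hk => (hr2 k hk).1)
  have hxm := (hR.bn hx).1
  have hd := dd_pos
  have hdd : dd ^ 2 < (2 * dd) ^ 2 := by nlinarith
  -- 2-norm almost one
  have f1 : ∀ᶠ i in (U₁ : Filter I), 1 - (2 * dd) ^ 2 ≤ ‖x i (dl G)‖ ^ 2 := by
    refine ev_ge_of_ev_ge hR hx (c := 1 - dd ^ 2) (by linarith) ?_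
    filter_upwards [hs, ev_ne_zero hR] with k hk hk0
    exact Dset_hs hk0 hk
  have sq : ∀ t : ℝ, 0 ≤ t → t ^ 2 ≤ (2 * dd) ^ 2 → t ≤ 2 * dd := by
    intro t ht h
    nlinarith
  have f2 : ∀ᶠ i in (U₁ : Filter I), ‖(lam ac * x i - x i * lam ac) (dl G)‖ ^ 2 ≤ (2 * dd) ^ 2 := by
    have := corr_sub hR (hR.mul hAc hx) (hR.mul hx hAc)
    refine ev_le_of_ev_le hR this hdd ?_
    filter_upwards [hs] with k hk
    obtain ⟨_, _, _, h, _⟩ := hk
    exact h
  have f3 : ∀ᶠ i in (U₁ : Filter I), ‖(lam bc * x i - x i * lam bc) (dl G)‖ ^ 2 ≤ (2 * dd) ^ 2 := by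
    have := corr_sub hR (hR.mul hBc hx) (hR.mul hx hBc)
    refine ev_le_of_ev_le hR this hdd ?_
    filter_upwards [hs] with k hk
    obtain ⟨_, _, _, _, h, _⟩ := hk
    exact h
  have hy := hR.mul (hR.mul hx hA0) (hR.star hx)
  have f4 : ∀ᶠ i in (U₁ : Filter I), ‖(lam a0 * (x i * lam a0 * star (x i))
      - (x i * lam a0 * star (x i)) * lam a0) (dl G)‖ ^ 2 ≤ (2 * dd) ^ 2 := by
    have := corr_sub hR (hR.mul hA0 hy) (hR.mul hy hA0)
    refine ev_le_of_ev_le hR this hdd ?_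
    filter_upwards [hs] with k hk
    obtain ⟨_, _, _, _, _, h, _⟩ := hk
    exact h
  have f5 : ∀ᶠ i in (U₁ : Filter I), ‖(lam b0 * (x i * lam a0 * star (x i))
      - (x i * lam a0 * star (x i)) * lam b0) (dl G)‖ ^ 2 ≤ (2 * dd) ^ 2 := by
    have := corr_sub hR (hR.mul hB0 hy) (hR.mul hy hB0)
    refine ev_le_of_ev_le hR this hdd ?_
    filter_upwards [hs] with k hk
    obtain ⟨_, _, _, _, _, _, h⟩ := hk
    exact h
  have key : ∀ᶠ i in (U₁ : Filter I), ∃ (m : ℤ) (c : ℂ), Near (x i) c m := by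
    filter_upwards [f1, f2, f3, f4, f5] with i g1 g2 g3 g4 g5
    obtain ⟨m, hm, c, hc, h⟩ := key_lemma' (x i) (hxm i) (hxn i) (2 * dd) (by linarith)
      (by unfold dd; norm_num) g1 (sq _ (norm_nonneg _) g2) (sq _ (norm_nonneg _) g3)
      (sq _ (norm_nonneg _) g4) (sq _ (norm_nonneg _) g5)
    refine ⟨m, c, hxm i, hxn i, hm, hc, ?_⟩
    have h2 : ‖x i (dl G) - c • pt (tt m)‖ ^ 2 ≤ (1 / 20) ^ 2 := by
      refine h.trans ?_
      unfold dd
      norm_num
    exact le_of_sq_le_sq h2 (by norm_num)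
  obtain ⟨m, hm⟩ : ∃ m : I → ℤ, ∀ᶠ i in (U₁ : Filter I), ∃ c : ℂ, Near (x i) c (m i) := by
    refine ⟨fun i => if h : ∃ (m : ℤ) (c : ℂ), Near (x i) c m then h.choose else 0, ?_⟩
    filter_upwards [key] with i hi
    simp only [dif_pos hi]
    exact hi.choose_spec
  obtain ⟨c, hc⟩ : ∃ c : I → ℂ, ∀ᶠ i in (U₁ : Filter I), Near (x i) (c i) (m i) := by
    refine ⟨fun i => if h : ∃ (c : ℂ), Near (x i) c (m i) then h.choose else 0, ?_⟩
    filter_upwards [hm] with i hi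
    simp only [dif_pos hi]
    exact hi.choose_spec
  exact ⟨x, c, m, hx, hc⟩

theorem null_zeroN (hR : Corr U₁ V n R) {x y} (h : R x y) (hx : ∀ i, x i = 0) :
    nullM V n y := by
  refine (hR.null h).mp ?_
  intro ε hε
  refine Eventually.of_forall fun i => ?_
  rw [hx i]
  simpa using hε

theorem ev_small (hR : Corr U₁ V n R) {x y} (h : R x y) (hx : ∀ i, x i = 0) :
    ∀ᶠ k in (V : Filter K), hs (y k) ≤ dd ^ 2 :=
  (null_zeroN hR h hx (dd ^ 2) (by have := dd_pos; positivity)).mono fun _ hk => hk.le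

theorem norm_lam_le (g : G) : ‖(lam g : L2 G →L[ℂ] L2 G)‖ ≤ 1 :=
  ContinuousLinearMap.opNorm_le_bound _ zero_le_one fun ξ => by rw [norm_lam, one_mul]

theorem BN_lam (g : I → G) : BN (fun i => lam (g i)) :=
  ⟨fun i => lam_mem _, 1, fun i => norm_lam_le _⟩

theorem comm_ac (m : ℤ) : ac * tt m = tt m * ac := by
  apply Subtype.ext
  ext i
  · simp [ac, tt]
  · simp [ac, tt]

theorem comm_bc (m : ℤ) : bc * tt m = tt m * bc := by
  apply Subtype.ext
  ext i
  · simp [bc, tt]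
  · simp [bc, tt]

theorem comm_a0 {m : ℤ} (hm : m ≠ 0) :
    a0 * (tt m * a0 * (tt m)⁻¹) = (tt m * a0 * (tt m)⁻¹) * a0 := by
  apply Subtype.ext
  ext i
  · by_cases h0 : i = 0
    · subst h0
      simp [a0, tt, Pi.mulSingle, Function.update, hm]
    · simp [a0, tt, Pi.mulSingle, Function.update, h0]
  · simp [a0, tt]

theorem comm_b0 {m : ℤ} (hm : m ≠ 0) :
    b0 * (tt m * a0 * (tt m)⁻¹) = (tt m * a0 * (tt m)⁻¹) * b0 := by
  apply Subtype.ext
  ext i
  · by_cases h0 : i = 0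
    · subst h0
      simp [a0, b0, tt, Pi.mulSingle, Function.update, hm]
    · simp [a0, b0, tt, Pi.mulSingle, Function.update, h0]
  · simp [a0, b0, tt]

theorem push (hR : Corr U₁ V n R) {Ac Bc A0 B0 : ∀ k, Mn (n k)}
    (hAc : R (fun _ => lam ac) Ac) (hBc : R (fun _ => lam bc) Bc)
    (hA0 : R (fun _ => lam a0) A0) (hB0 : R (fun _ => lam b0) B0)
    (m : I → ℤ) (hm : ∀ i, m i ≠ 0) :
    ∃ z : ∀ k, Mn (n k), R (fun i => lam (tt (m i))) z ∧
      ∀ᶠ k in (V : Filter K), z k ∈ Dset (Ac k) (Bc k) (A0 k) (B0 k) := by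
  obtain ⟨y, hy⟩ := hR.left _ (BN_lam (fun i => tt (m i)))
  choose kk z r hk1 hk2 hk3 hk4 hk5 using fun k => cut_unitary (y k)
  -- the unitarity defect
  have h1 := corr_sub hR (hR.mul (hR.star hy) hy) hR.one
  have h2 : nullM V n (star y * y - 1) := by
    refine null_zeroN hR h1 fun i => ?_
    show star (lam (tt (m i))) * lam (tt (m i)) - 1 = 0
    rw [star_lam, ← lam_mul, inv_mul_cancel, lam_one, sub_self]
  have hzn : ∀ k, ‖z k‖ ≤ 1 := fun k => norm_le_one_of_col (hk3 k)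
  have hz : R (fun i => lam (tt (m i))) z := by
    refine hR.congrM hy ⟨1, hzn⟩ ?_
    intro ε hε
    filter_upwards [h2 ε hε] with k hk
    have e : (z - y) k = -((y k * kk k) * (star (y k) * y k - 1)) := by
      rw [← hk4 k]
      exact (neg_sub _ _).symm
    rw [e, hs_neg]
    calc hs ((y k * kk k) * (star (y k) * y k - 1))
        ≤ ‖y k * kk k‖ ^ 2 * hs (star (y k) * y k - 1) := hs_mul_le_left _ _
      _ ≤ 1 ^ 2 * hs (star (y k) * y k - 1) := by
          gcongr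
          · exact hs_nonneg _
          · exact (hk2 k).trans (by norm_num)
      _ = hs ((star y * y - 1) k) := by rw [one_pow, one_mul]; rfl
      _ < ε := hk
  refine ⟨z, hz, ?_⟩
  have hxz := hR.mul (hR.mul hz hA0) (hR.star hz)
  have e1 : ∀ i, (lam (tt (m i)) : L2 G →L[ℂ] L2 G) * lam a0 * star (lam (tt (m i)))
      = lam (tt (m i) * a0 * (tt (m i))⁻¹) := by
    intro i
    rw [star_lam, lam_mul, lam_mul]
  have g1 := ev_small hR (corr_sub hR (hR.mul hAc hz) (hR.mul hz hAc)) (fun i => by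
    show lam ac * lam (tt (m i)) - lam (tt (m i)) * lam ac = 0
    rw [← lam_mul, ← lam_mul, comm_ac, sub_self])
  have g2 := ev_small hR (corr_sub hR (hR.mul hBc hz) (hR.mul hz hBc)) (fun i => by
    show lam bc * lam (tt (m i)) - lam (tt (m i)) * lam bc = 0
    rw [← lam_mul, ← lam_mul, comm_bc, sub_self])
  have g3 := ev_small hR (corr_sub hR (hR.mul hA0 hxz) (hR.mul hxz hA0)) (fun i => by
    show lam a0 * (lam (tt (m i)) * lam a0 * star (lam (tt (m i))))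
      - (lam (tt (m i)) * lam a0 * star (lam (tt (m i)))) * lam a0 = 0
    rw [e1, ← lam_mul, ← lam_mul, comm_a0 (hm i), sub_self])
  have g4 := ev_small hR (corr_sub hR (hR.mul hB0 hxz) (hR.mul hxz hB0)) (fun i => by
    show lam b0 * (lam (tt (m i)) * lam a0 * star (lam (tt (m i))))
      - (lam (tt (m i)) * lam a0 * star (lam (tt (m i)))) * lam b0 = 0
    rw [e1, ← lam_mul, ← lam_mul, comm_b0 (hm i), sub_self])
  have hd := dd_pos
  filter_upwards [g1, g2, g3, g4, h2 (dd ^ 2) (by positivity)] with k q1 q2 q3 q4 q5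
  refine ⟨r k, hk3 k, ?_, q1, q2, q3, q4⟩
  rw [hk5 k, hs_neg]
  calc hs (kk k * (star (y k) * y k - 1)) ≤ ‖kk k‖ ^ 2 * hs (star (y k) * y k - 1) :=
        hs_mul_le_left _ _
    _ ≤ 1 ^ 2 * hs (star (y k) * y k - 1) := by
        gcongr
        · exact hs_nonneg _
        · exact hk1 k
    _ = hs ((star y * y - 1) k) := by rw [one_pow, one_mul]; rfl
    _ ≤ dd ^ 2 := q5.le

end

end Pool.Agent.Pa1e8
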