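import Pool.Agent.Lib.Pa1e8df.MatHS
import Pool.Agent.Lib.Pa1e8df.MatComm
import Pool.Agent.Lib.Pa1e8df.LGBasic
import Pool.Agent.Lib.Pa1e8df.Cut
import Pool.Agent.Lib.Pa1e8df.Base
import Pool.Agent.Lib.Pa1e8df.GenOps

/-!
# MP_a1e8df_an, Q2: correspondences between ultraproducts, and preservation of the trace
-/

set_option autoImplicit false

open scoped InnerProductSpace
open Filter Topology

namespace Pool.Agent.Pa1e8

universe u v

section

variable {Γ : Type} [Group Γ] {I : Type u} {K : Type v} (U₁ : Ultrafilter I) (V : Ultrafilter K)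
  (n : K → ℕ)

/-- bounded families in `LG` -/
def BN (x : I → (L2 Γ →L[ℂ] L2 Γ)) : Prop := (∀ i, x i ∈ LG Γ) ∧ ∃ C : ℝ, ∀ i, ‖x i‖ ≤ C

/-- bounded families of matrices -/
def BM (y : ∀ k : K, Mn (n k)) : Prop := ∃ C : ℝ, ∀ k, ‖y k‖ ≤ C

/-- families of 2-norm zero in the ultraproduct -/
def nullN (x : I → (L2 Γ →L[ℂ] L2 Γ)) : Prop :=
  ∀ ε : ℝ, 0 < ε → ∀ᶠ i in (U₁ : Filter I), ‖x i (dl Γ)‖ < ε

/-- families of 2-norm zero in the ultraproduct -/
def nullM (y : ∀ k : K, Mn (n k)) : Prop :=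
  ∀ ε : ℝ, 0 < ε → ∀ᶠ k in (V : Filter K), hs (y k) < ε

/-- a *-isomorphism between the two ultraproducts, as a correspondence between families -/
structure Corr (R : (I → (L2 Γ →L[ℂ] L2 Γ)) → (∀ k : K, Mn (n k)) → Prop) : Prop where
  bn : ∀ {x y}, R x y → BN x
  bm : ∀ {x y}, R x y → BM n y
  left : ∀ x, BN x → ∃ y, R x y
  right : ∀ y, BM n y → ∃ x, R x y
  add : ∀ {x y x' y'}, R x y → R x' y' → R (x + x') (y + y')
  mul : ∀ {x y x' y'}, R x y → R x' y' → R (x * x') (y * y')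
  star : ∀ {x y}, R x y → R (star x) (star y)
  smul : ∀ (c : ℂ) {x y}, R x y → R (c • x) (c • y)
  one : R 1 1
  null : ∀ {x y}, R x y → (nullN U₁ x ↔ nullM V n y)
  congrN : ∀ {x x' y}, R x y → BN x' → nullN U₁ (x' - x) → R x' y
  congrM : ∀ {x y y'}, R x y → BM n y' → nullM V n (y' - y) → R x y'

variable {U₁ V n}

theorem corr_neg {R : (I → (L2 Γ →L[ℂ] L2 Γ)) → (∀ k : K, Mn (n k)) → Prop}
    (hR : Corr U₁ V n R) {x y} (h : R x y) : R (-x) (-y) := by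
  have := hR.smul (-1) h
  have e1 : ((-1 : ℂ) • x) = -x := neg_one_smul _ _
  have e2 : ((-1 : ℂ) • y) = -y := funext fun k => g_neg_one_smul (y k)
  rwa [e1, e2] at this

theorem corr_sub {R : (I → (L2 Γ →L[ℂ] L2 Γ)) → (∀ k : K, Mn (n k)) → Prop}
    (hR : Corr U₁ V n R) {x y x' y'} (h : R x y) (h' : R x' y') : R (x - x') (y - y') := by
  rw [sub_eq_add_neg, sub_eq_add_neg]
  exact hR.add h (corr_neg hR h')

/-- a bounded real function converges along an ultrafilter -/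
theorem exists_lim {α : Type*} (W : Ultrafilter α) (f : α → ℝ) (C : ℝ) (hf : ∀ a, |f a| ≤ C) :
    ∃ L : ℝ, Tendsto f (W : Filter α) (𝓝 L) := by
  have hK : IsCompact (Set.Icc (-C) C) := isCompact_Icc
  have h2 : (W.map f : Filter ℝ) ≤ 𝓟 (Set.Icc (-C) C) := by
    rw [le_principal_iff, Ultrafilter.mem_coe, Ultrafilter.mem_map]
    refine Filter.mem_of_superset Filter.univ_mem ?_
    intro a _
    exact abs_le.mp (hf a)
  obtain ⟨L, _, hL⟩ := hK.ultrafilter_le_nhds _ h2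
  exact ⟨L, hL⟩

theorem ntr_star_mul_sub {m : ℕ} (y : Mn m) :
    ntr (star y * y - ((hs y : ℝ) : ℂ) • (1 : Mn m)) = 0 := by
  rcases Nat.eq_zero_or_pos m with h | h
  · subst h
    simp [ntr]
  · rw [ntr_sub, ntr_smul_one h.ne', hs_eq_ntr, sub_self]

theorem hs_one_le {m : ℕ} : hs (1 : Mn m) ≤ 1 := by
  rcases Nat.eq_zero_or_pos m with h | h
  · subst h
    simp [hs]
  · rw [hs_one h.ne']

theorem inner_dl_star_mul (x : L2 Γ →L[ℂ] L2 Γ) :
    ⟪dl Γ, (star x * x) (dl Γ)⟫_ℂ = ((‖x (dl Γ)‖ ^ 2 : ℝ) : ℂ) := by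
  show ⟪dl Γ, (star x) (x (dl Γ))⟫_ℂ = _
  rw [ContinuousLinearMap.star_eq_adjoint, ContinuousLinearMap.adjoint_inner_right,
    inner_self_eq_norm_sq_to_K]
  push_cast
  rfl

theorem norm_dl_one : ‖dl Γ‖ = 1 := by
  rw [← pt_one]
  exact norm_pt _

/-- **Trace preservation.** -/
theorem trace_pres {R : (I → (L2 Γ →L[ℂ] L2 Γ)) → (∀ k : K, Mn (n k)) → Prop}
    (hR : Corr U₁ V n R) {x y} (h : R x y) :
    ∃ L : ℝ, Tendsto (fun i => ‖x i (dl Γ)‖ ^ 2) (U₁ : Filter I) (𝓝 L) ∧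
      Tendsto (fun k => hs (y k)) (V : Filter K) (𝓝 L) := by
  obtain ⟨C, hC⟩ := hR.bm h
  have hC0 : ∀ k, hs (y k) ≤ C ^ 2 := fun k => (hs_le_norm_sq _).trans
    (by gcongr; exact hC k)
  obtain ⟨L, hL⟩ := exists_lim V (fun k => hs (y k)) (C ^ 2)
    (fun k => by rw [abs_of_nonneg (hs_nonneg _)]; exact hC0 k)
  refine ⟨L, ?_, hL⟩
  -- commutators
  have hz : ∀ k, ∃ a u : Mn (n k), ‖a‖ ≤ ‖star (y k) * y k - ((hs (y k) : ℝ) : ℂ) • (1 : Mn (n k))‖ ∧
      ‖u‖ ≤ 1 ∧ star (y k) * y k - ((hs (y k) : ℝ) : ℂ) • (1 : Mn (n k)) = a * u - u * a := by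
    intro k
    exact mat_comm (n k) _ (g_sa _ _) (ntr_star_mul_sub _)
  choose a u ha hu hau using hz
  have hBa : BM n a := by
    refine ⟨C * C + C ^ 2, fun k => (ha k).trans ?_⟩
    refine (g_norm_z _ _).trans (add_le_add ?_ ?_)
    · have := hC k
      have h0 := norm_nonneg (y k)
      exact mul_le_mul this this h0 (h0.trans this)
    · rw [abs_of_nonneg (hs_nonneg _)]
      exact hC0 k
  have hBu : BM n u := ⟨1, hu⟩
  obtain ⟨xa, hxa⟩ := hR.right a hBa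
  obtain ⟨xu, hxu⟩ := hR.right u hBu
  have hR1 := corr_sub hR (corr_sub hR (hR.mul (hR.star h) h) (hR.smul (L : ℂ) hR.one))
    (corr_sub hR (hR.mul hxa hxu) (hR.mul hxu hxa))
  have hnull : nullM V n (star y * y - (L : ℂ) • 1 - (a * u - u * a)) := by
    intro ε hε
    have h1 : Tendsto (fun k => |hs (y k) - L| ^ 2) (V : Filter K) (𝓝 0) := by
      have : Tendsto (fun k => |hs (y k) - L| ^ 2) (V : Filter K) (𝓝 (|L - L| ^ 2)) :=
        ((hL.sub_const L).abs).pow 2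
      simpa using this
    filter_upwards [h1.eventually (gt_mem_nhds hε)] with k hk
    refine lt_of_le_of_lt ?_ hk
    have e : (star y * y - (L : ℂ) • 1 - (a * u - u * a)) k
        = (((hs (y k) - L : ℝ)) : ℂ) • (1 : Mn (n k)) := by
      have := hau k
      simp only [Pi.sub_apply, Pi.mul_apply, Pi.star_apply, Pi.smul_apply, Pi.one_apply]
      rw [← this]
      exact g_diff _ _ _
    rw [e, hs_smul, Complex.norm_real, Real.norm_eq_abs]
    calc _ ≤ |hs (y k) - L| ^ 2 * 1 := by gcongr; exact hs_one_le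
      _ = _ := mul_one _
  have hnN := (hR.null hR1).mpr hnull
  rw [Metric.tendsto_nhds]
  intro ε hε
  filter_upwards [hnN ε hε] with i hi
  have hx := (hR.bn h).1 i
  have hxa' := (hR.bn hxa).1 i
  have hxu' := (hR.bn hxu).1 i
  have key : ⟪dl Γ, ((star x * x - (L : ℂ) • 1 - (xa * xu - xu * xa)) i) (dl Γ)⟫_ℂ
      = ((‖x i (dl Γ)‖ ^ 2 - L : ℝ) : ℂ) := by
    simp only [Pi.sub_apply, Pi.mul_apply, Pi.star_apply, Pi.smul_apply, Pi.one_apply,
      ContinuousLinearMap.sub_apply, ContinuousLinearMap.smul_apply, inner_sub_right,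
      inner_smul_right]
    rw [inner_dl_star_mul, LG_trace hxa' hxu', sub_self, sub_zero]
    have : ⟪dl Γ, (1 : L2 Γ →L[ℂ] L2 Γ) (dl Γ)⟫_ℂ = 1 := by
      show ⟪dl Γ, dl Γ⟫_ℂ = 1
      rw [inner_self_eq_norm_sq_to_K, norm_dl_one]
      simp
    rw [this]
    push_cast
    ring
  rw [Real.dist_eq]
  have h3 : |‖x i (dl Γ)‖ ^ 2 - L| = ‖(((‖x i (dl Γ)‖ ^ 2 - L : ℝ)) : ℂ)‖ := by
    rw [Complex.norm_real, Real.norm_eq_abs]
  rw [h3, ← key]
  refine lt_of_le_of_lt (norm_inner_le_norm _ _) ?_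
  rw [norm_dl_one, one_mul]
  exact hi

end

end Pool.Agent.Pa1e8
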